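import Pool.Agent.P.MP_3bd355_an.E.St

/-! The displaced point lies in the cone (helper31). -/

open Set Filter Metric Complex InnerProductSpace
open scoped Topology ComplexConjugate Real

namespace Pool.Agent.P.MP_3bd355_an

theorem e_aim : E_AIM := by
  intro z₀ X C P hX hP
  obtain ⟨δ, hδ, hPδ⟩ := Metric.mem_nhdsWithin_iff.1 hP
  have hb : 0 < -X.im := lt_of_le_of_lt (by positivity) hX
  have hbX : -X.im ≤ ‖X‖ := (neg_le_abs _).trans (Complex.abs_im_le_norm X)
  have hXp : 0 < ‖X‖ := hb.trans_le hbX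
  have e1 : ∀ᶠ ε : ℝ in 𝓝[>] 0, |C| * ε < -X.im / 16 := by
    refine nhdsWithin_le_nhds ?_
    have : Tendsto (fun ε : ℝ => |C| * ε) (𝓝 0) (𝓝 (|C| * 0)) :=
      (continuous_const.mul continuous_id).tendsto 0
    rw [mul_zero] at this
    exact this.eventually (gt_mem_nhds (by positivity))
  have e2 : ∀ᶠ ε : ℝ in 𝓝[>] 0, 2 * (ε * ‖X‖) < δ := by
    refine nhdsWithin_le_nhds ?_
    have : Tendsto (fun ε : ℝ => 2 * (ε * ‖X‖)) (𝓝 0) (𝓝 (2 * (0 * ‖X‖))) :=
      (continuous_const.mul (continuous_id.mul continuous_const)).tendsto 0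
    rw [zero_mul, mul_zero] at this
    exact this.eventually (gt_mem_nhds hδ)
  filter_upwards [e1, e2, self_mem_nhdsWithin] with ε h1 h2 h3 y hy
  have hε : 0 < ε := h3
  set e : ℂ := y - (z₀ - ε * X) with he
  have hy' : y - z₀ = e - ε * X := by rw [he]; ring
  have hen : ‖e‖ ≤ ε * (-X.im / 16) := by
    calc ‖e‖ ≤ C * ε ^ 2 := hy
      _ ≤ |C| * ε ^ 2 := mul_le_mul_of_nonneg_right (le_abs_self C) (by positivity)
      _ = ε * (|C| * ε) := by ring
      _ ≤ ε * (-X.im / 16) := mul_le_mul_of_nonneg_left h1.le hε.le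
  have hn : ‖(ε : ℂ) * X‖ = ε * ‖X‖ := by
    rw [norm_mul, Complex.norm_real, Real.norm_eq_abs, abs_of_pos hε]
  have hεb : ε * -X.im ≤ ε * ‖X‖ := mul_le_mul_of_nonneg_left hbX hε.le
  have hεX : 0 < ε * ‖X‖ := by positivity
  have lo : ε * ‖X‖ / 2 ≤ ‖y - z₀‖ := by
    have := norm_sub_norm_le ((ε : ℂ) * X) e
    rw [norm_sub_rev ((ε : ℂ) * X) e, ← hy', hn] at this
    linarith
  have up : ‖y - z₀‖ ≤ 2 * (ε * ‖X‖) := by
    have := norm_sub_le e ((ε : ℂ) * X)
    rw [← hy', hn] at this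
    linarith
  refine ⟨hPδ ⟨?_, ?_, ?_⟩, lo, up⟩
  · rw [mem_ball, dist_eq_norm]; linarith
  · have hre : (y - z₀).re = e.re - ε * X.re := by rw [hy']; simp
    have him : (y - z₀).im = e.im - ε * X.im := by rw [hy']; simp
    have a1 := Complex.abs_re_le_norm e
    have a3 : |e.re - ε * X.re| ≤ |e.re| + ε * |X.re| := by
      have := abs_sub e.re (ε * X.re)
      rwa [abs_mul, abs_of_pos hε] at this
    have a4 : ε * (4 * |X.re|) ≤ ε * -X.im := mul_le_mul_of_nonneg_left hX.le hε.le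
    have a5 : -‖e‖ ≤ e.im := by
      have := neg_abs_le e.im
      have := Complex.abs_im_le_norm e
      linarith
    rw [hre, him]
    nlinarith
  · intro h
    rw [h, sub_self, norm_zero] at lo
    linarith

end Pool.Agent.P.MP_3bd355_an
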