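import Pool.Agent.P.MP_3bd355_an.E.St
import Pool.Agent.P.MP_3bd355_an.Pk.Lin

/-! The alternative in the exceptional position. -/

open Set Filter Metric Complex InnerProductSpace
open scoped Topology ComplexConjugate Real

namespace Pool.Agent.P.MP_3bd355_an

namespace EAltP

/-- Extension of an identity from the complement of the connection. -/
theorem extend {r A B : ℝ} {z₁ : ℂ} {L K : Set ℂ} {v : ℂ → ℝ} (hC : Cfg r A B z₁ L v)
    (hK : SCU r L v K) {f g : ℂ → ℂ} (hf : AnalyticOnNhd ℂ f (main r L))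
    (hg : AnalyticOnNhd ℂ g (main r L)) (h : ∀ z ∈ main r L, z ∉ K → f z = g z) :
    EqOn f g (main r L) := by
  obtain ⟨p, hp, hv⟩ := Sol.not_const hC.cont hC.sol hC.B0
  have hpK : p ∉ K := by
    intro hpK
    rcases hK.neg p hpK (main_sub r L hp).2 with h1 | h1
    · exact (main_sub r L hp).1.2.ne h1
    · linarith
  refine hf.eqOn_of_preconnected_of_eventuallyEq hg (preconn_main r L) hp ?_
  filter_upwards [hC.cont.isOpen_main.mem_nhds hp, hK.cpt.isClosed.isOpen_compl.mem_nhds hpK]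
    with z h1 h2 using h z h1 h2

/-- The differential with a genuine pole does not vanish identically. -/
theorem QD_ne {r : ℝ} {L : Set ℂ} (hL : Cont r L) {z₀ z₁ : ℂ} (m0 : z₀ ∈ ann r)
    (m1 : z₁ ∈ ann r) (hi : z₀.im = 0) (hne : z₀ ≠ z₁) {a : ℂ} (ha : a ≠ 0) (b : ℂ) (c : ℝ) :
    ∃ ζ ∈ main r L, QD r z₀ z₁ a b c ζ ≠ 0 := by
  by_contra hcon
  push Not at hcon
  have hz0 : z₀ ≠ 0 := LinP.ne_zero_of_ann hL.r0 m0
  have hx : ((z₀.re : ℝ) : ℂ) = z₀ := Complex.ext (by simp) (by simp [hi])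
  have hb : (𝓝[upH] z₀).NeBot := by
    rw [← hx]
    exact upH_neBot _
  have hle : 𝓝[upH] z₀ ≤ 𝓝[≠] z₀ := by
    refine nhdsWithin_mono _ fun z hz e => ?_
    have h1 : 0 < z.im := hz
    rw [mem_singleton_iff.1 e, hi] at h1
    exact lt_irrefl _ h1
  have h1 := (QD_pole hL.r0 hL.r1 m0 m1 hne a b c).mono_left hle
  have h2 : Tendsto (fun z => (z - z₀) * QD r z₀ z₁ a b c z) (𝓝[upH] z₀) (𝓝 0) := by
    refine tendsto_const_nhds.congr' ?_
    filter_upwards [self_mem_nhdsWithin, nhdsWithin_le_nhds ((isOpen_ann r).mem_nhds m0)]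
      with z h3 h4
    rw [hcon z (hL.upper_sub ⟨h4, h3⟩), mul_zero]
  have h3 := tendsto_nhds_unique h1 h2
  rw [div_eq_zero_iff] at h3
  rcases h3 with h3 | h3
  · exact ha (by simpa using h3)
  · exact hz0 h3

end EAltP

open LinP

theorem e_alt (h : S_GORDAN) : E_ALT := by
  classical
  intro r A B z₀ z₁ L K v Ψ hC hK h0L m0 hi hne hΨ
  have hL := hC.cont
  have hWa : ∀ z ∈ main r L, z ∈ ann r := fun z hz => (main_sub r L hz).1
  have hz0 : z₀ ≠ 0 := ne_zero_of_ann hL.r0 m0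
  have hz1 : z₁ ≠ 0 := ne_zero_of_ann hL.r0 hC.m1
  have hre : z₀.re ≠ 0 := fun e => hz0 (Complex.ext e hi)
  refine or_iff_not_imp_left.2 fun hno => ?_
  obtain ⟨S, hS'⟩ : ∃ S : Set ℂ, ∀ z, z ∈ S ↔ z ∈ main r L ∧ z ∉ K :=
    ⟨{z | z ∈ main r L ∧ z ∉ K}, fun _ => Iff.rfl⟩
  obtain ⟨X1, hX1⟩ : ∃ X1 : ℂ, X1 = (I + 4) * z₀ := ⟨_, rfl⟩
  obtain ⟨X2, hX2⟩ : ∃ X2 : ℂ, X2 = (I - 4) * z₀ := ⟨_, rfl⟩
  obtain ⟨l, μ, hl0, hl1, hid⟩ := h (Finsupp.supported ℂ ℝ S × ℝ) (Fin 2) (Fin 4)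
    ![Lf S (fun ζ => -X1 * vk r (ζ / z₀) + conj X1 * vk r (ζ * conj z₀)) (-X1.im),
      Lf S (fun ζ => -X2 * vk r (ζ / z₀) + conj X2 * vk r (ζ * conj z₀)) (-X2.im)]
    ![Lf S (fun _ => 1) 0,
      Lf S (fun ζ => -1 * vk r (ζ / z₁) + conj 1 * vk r (ζ * conj z₁)) (-(1 : ℂ).im),
      Lf S (fun ζ => -(-I) * vk r (ζ / z₁) + conj (-I) * vk r (ζ * conj z₁)) (-(-I).im),
      Lf S (fun ζ => -(2 * ζ ^ 2 * Ψ ζ)) 0] (by
      intro x hx
      have hZ : ∀ ζ ∈ x.1.1.support, ζ ∈ main r L ∧ ζ ∉ K := fun ζ hζ =>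
        (hS' ζ).1 ((Finsupp.mem_supported ℝ _).1 x.1.2 hζ)
      have hZ0 : ∀ ζ ∈ x.1.1.support, ζ ≠ 0 := fun ζ hζ =>
        ne_zero_of_ann hL.r0 (hWa ζ (hZ ζ hζ).1)
      have g0 := hx 0
      have g1 := hx 1
      have g2 := hx 2
      have g3 := hx 3
      simp only [Matrix.cons_val_zero, Matrix.cons_val_one, Matrix.cons_val_two, Matrix.head_cons,
        Matrix.cons_val_three, Matrix.tail_cons, Lf_apply] at g0 g1 g2 g3
      rw [← re_rho r hz1 hZ0] at g1 g2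
      have hrho : rho r x.1.1.support x.1.1 x.2 z₁ = 0 := by
        apply Complex.ext
        · simpa using g1
        · simpa using g2
      by_contra hcon
      push Not at hcon
      have c0 := hcon 0
      have c1 := hcon 1
      simp only [Matrix.cons_val_zero, Matrix.cons_val_one, Lf_apply] at c0 c1
      rw [← re_rho r hz0 hZ0] at c0 c1
      refine hno ⟨x.1.1.support, x.1.1, x.2, ⟨hZ, by simpa using g0, hrho, ?_⟩, by simpa using g3⟩
      rw [hX1, mul_assoc] at c0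
      rw [hX2, mul_assoc] at c1
      generalize z₀ * rho r x.1.1.support x.1.1 x.2 z₀ = W at c0 c1 ⊢
      simp only [add_mul, sub_mul, add_re, sub_re, mul_re, I_re, I_im, re_ofNat, im_ofNat,
        zero_mul, one_mul, sub_zero, zero_sub] at c0 c1
      rcases abs_cases W.re with h1 | h1 <;> linarith [h1.1])
  have hsum : 0 < l 0 + l 1 := by
    obtain ⟨i, hi⟩ := hl1
    have a0 := hl0 0
    have a1 := hl0 1
    fin_cases i
    · simp only [Fin.zero_eta] at hi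
      linarith
    · simp only [Fin.mk_one] at hi
      linarith
  have hX1i : X1.im = z₀.re := by simp [hX1, hi]
  have hX2i : X2.im = z₀.re := by simp [hX2, hi]
  have haim : (((l 0 : ℂ) * X1 + l 1 * X2) / 2).im = (l 0 + l 1) * z₀.re / 2 := by
    simp [hX1i, hX2i]
    ring
  have ha : (((l 0 : ℂ) * X1 + l 1 * X2) / 2).im ≠ 0 := by
    rw [haim]
    exact div_ne_zero (mul_ne_zero hsum.ne' hre) two_ne_zero
  have key : ∀ ζ ∈ main r L, ζ ∉ K → (μ 3 : ℂ) * Ψ ζ =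
      QD r z₀ z₁ (((l 0 : ℂ) * X1 + l 1 * X2) / 2) (-(μ 1 - I * μ 2) / 2) (μ 0 / 2) ζ := by
    intro ζ hζ1 hζ2
    have hζ : ζ ∈ S := (hS' ζ).2 ⟨hζ1, hζ2⟩
    have hζ0 : ζ ≠ 0 := ne_zero_of_ann hL.r0 (hWa ζ hζ1)
    have e : (l 0 : ℂ) * (-X1 * vk r (ζ / z₀) + conj X1 * vk r (ζ * conj z₀)) +
        (l 1 : ℂ) * (-X2 * vk r (ζ / z₀) + conj X2 * vk r (ζ * conj z₀)) =
        μ 0 * 1 + μ 1 * (-1 * vk r (ζ / z₁) + conj 1 * vk r (ζ * conj z₁)) +
          μ 2 * (-(-I) * vk r (ζ / z₁) + conj (-I) * vk r (ζ * conj z₁)) +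
          μ 3 * (-(2 * ζ ^ 2 * Ψ ζ)) := by
      apply eq_of_re
      intro a
      have h1 := hid (⟨Finsupp.single ζ a, Finsupp.single_mem_supported ℝ a hζ⟩, 0)
      simp only [Fin.sum_univ_two, Fin.sum_univ_four, Matrix.cons_val_zero,
        Matrix.cons_val_one, Matrix.cons_val_two, Matrix.cons_val_three, Matrix.head_cons,
        Matrix.tail_cons, Lf_single S _ _ hζ] at h1
      have hm : ∀ (t : ℝ) (X : ℂ), (a * (t * X)).re = t * (a * X).re := fun t X => by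
        rw [mul_left_comm, re_ofReal_mul]
      simp only [mul_add a, add_re, hm] at h1 ⊢
      exact h1
    unfold QD
    rw [eq_div_iff (pow_ne_zero 2 hζ0)]
    simp only [map_div₀, map_mul, map_sub, map_add, conj_ofReal, conj_I, map_one, map_neg,
      map_ofNat, ofReal_div, ofReal_ofNat] at e ⊢
    linear_combination (1 / 2 : ℂ) * e
  have hall : ∀ ζ ∈ main r L, (μ 3 : ℂ) * Ψ ζ =
      QD r z₀ z₁ (((l 0 : ℂ) * X1 + l 1 * X2) / 2) (-(μ 1 - I * μ 2) / 2) (μ 0 / 2) ζ := by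
    refine EAltP.extend hC hK (f := fun ζ => (μ 3 : ℂ) * Ψ ζ)
      (fun z hz => analyticAt_const.mul (hΨ z hz)) (fun z hz => ?_) key
    refine QD_analytic hL.r0 hL.r1 m0 hC.m1 _ _ _ (ann_sub_cann r (hWa z hz)) ?_ (Or.inl ?_)
    · rintro rfl
      exact (main_sub r L hz).2 h0L
    · rintro rfl
      exact (main_sub r L hz).2 hC.mem
  refine ⟨_, _, _, μ 3, ?_, ha, ?_, hall⟩
  · have h1 := hid (0, 1)
    simp [Fin.sum_univ_two, Fin.sum_univ_four, Lf_one, hX1i, hX2i] at h1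
    rw [add_im, haim]
    simp
    linarith
  · obtain ⟨ζ, h1, h2⟩ := EAltP.QD_ne hL m0 hC.m1 hi hne
      (a := ((l 0 : ℂ) * X1 + l 1 * X2) / 2) (fun e => ha (by rw [e, zero_im]))
      (-(μ 1 - I * μ 2) / 2) (μ 0 / 2)
    exact ⟨ζ, h1, by rw [hall ζ h1]; exact h2⟩

end Pool.Agent.P.MP_3bd355_an
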