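import Pool.Agent.P.MP_3bd355_an.E.St

/-! The potential of the arcsine law. -/

open Set Filter Metric Complex InnerProductSpace
open scoped Topology ComplexConjugate Real

namespace Pool.Agent.P.MP_3bd355_an

namespace EArcP

open Polynomial in
/-- The quadratic polynomial whose modulus on the unit circle is `a |cos t - w|`. -/
theorem key (a w : ℝ) (ha : 0 < a) (β γ : ℂ) (hs : β + γ = 2 * w) (hp : β * γ = 1) :
    IntervalIntegrable (fun t : ℝ => Real.log |a * (Real.cos t - w)|) MeasureTheory.volume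
      0 (2 * π) ∧
    ∫ t in (0 : ℝ)..(2 * π), Real.log |a * (Real.cos t - w)| =
      2 * π * (Real.log (a / 2) + (Real.posLog ‖β‖ + Real.posLog ‖γ‖)) := by
  set p : ℂ[X] := C ((a / 2 : ℝ) : ℂ) * ((X - C β) * (X - C γ)) with hpdef
  have hev : ∀ t : ℝ, ‖p.eval (circleMap 0 1 t)‖ = |a * (Real.cos t - w)| := by
    intro t
    have h1 : circleMap 0 1 t = exp (t * I) := by simp [circleMap]
    have h2 : exp (t * I) * exp (-(t * I)) = 1 := by rw [← Complex.exp_add]; simp
    have h3 : (2 : ℂ) * Complex.cos t = exp (t * I) + exp (-(t * I)) := by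
      rw [Complex.two_cos]; simp
    have h4 : p.eval (circleMap 0 1 t) = exp (t * I) * ((a * (Real.cos t - w) : ℝ) : ℂ) := by
      rw [h1, hpdef]
      simp only [eval_mul, eval_C, eval_sub, eval_X]
      push_cast
      linear_combination (a / 2 : ℂ) * hp - (a / 2 : ℂ) * exp (t * I) * hs -
        (a / 2 : ℂ) * exp (t * I) * h3 - (a / 2 : ℂ) * h2
    rw [h4, norm_mul, Complex.norm_exp_ofReal_mul_I, one_mul, Complex.norm_real, Real.norm_eq_abs]
  have hfun : (fun t : ℝ => Real.log |a * (Real.cos t - w)|) =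
      fun t : ℝ => Real.log ‖p.eval (circleMap 0 1 t)‖ := by
    funext t; rw [hev]
  have ha2 : ((a / 2 : ℝ) : ℂ) ≠ 0 := by
    exact_mod_cast (by positivity : (a / 2 : ℝ) ≠ 0)
  have hne : (X - C β) * (X - C γ) ≠ (0 : ℂ[X]) :=
    mul_ne_zero (X_sub_C_ne_zero β) (X_sub_C_ne_zero γ)
  have hM : p.logMahlerMeasure = Real.log (a / 2) + (Real.posLog ‖β‖ + Real.posLog ‖γ‖) := by
    rw [hpdef, logMahlerMeasure_C_mul ha2 hne, logMahlerMeasure_mul_eq_add_logMahlerMeasure hne,
      logMahlerMeasure_X_sub_C, logMahlerMeasure_X_sub_C, Complex.norm_real, Real.norm_eq_abs,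
      abs_of_pos (by positivity)]
  refine ⟨hfun ▸ p.intervalIntegrable_mahlerMeasure, ?_⟩
  rw [hfun, ← hM, logMahlerMeasure_def, Real.circleAverage_def, smul_eq_mul, ← mul_assoc,
    mul_inv_cancel₀ (by positivity), one_mul]

theorem cosh_ge (y : ℝ) (hy : 0 ≤ y) : 1 + y ^ 2 / 2 ≤ Real.cosh y := by
  have h1 : Real.cosh y = Real.cosh (y / 2) ^ 2 + Real.sinh (y / 2) ^ 2 := by
    rw [← Real.cosh_two_mul]; congr 1; ring
  have h2 := Real.cosh_sq (y / 2)
  have h3 : y / 2 ≤ Real.sinh (y / 2) := Real.self_le_sinh_iff.2 (by linarith)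
  nlinarith

theorem root_le (w : ℝ) (hw : 1 ≤ w) : w + √(w ^ 2 - 1) ≤ Real.exp (√(2 * (w - 1))) := by
  set y := √(2 * (w - 1)) with hy
  have hy0 : 0 ≤ y := Real.sqrt_nonneg _
  have hy2 : y ^ 2 = 2 * (w - 1) := Real.sq_sqrt (by linarith)
  have h1 : w ≤ Real.cosh y := by have := cosh_ge y hy0; linarith
  have h2 : 0 ≤ Real.sinh y := Real.sinh_nonneg_iff.2 hy0
  have h3 : √(w ^ 2 - 1) ≤ Real.sinh y := by
    rw [Real.sqrt_le_left h2]
    have := Real.cosh_sq y
    nlinarith
  rw [← Real.cosh_add_sinh]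
  linarith

end EArcP

theorem e_arc : E_ARC := by
  intro a σ ha hσ
  obtain ⟨s, hs⟩ : ∃ s : ℂ, s ^ 2 = ((1 - σ / a : ℝ) : ℂ) ^ 2 - 1 :=
    IsAlgClosed.exists_pow_nat_eq _ (by norm_num)
  have hk := EArcP.key a (1 - σ / a) ha (((1 - σ / a : ℝ) : ℂ) + s) (((1 - σ / a : ℝ) : ℂ) - s)
    (by ring) (by linear_combination -hs)
  have e1 : (fun t : ℝ => Real.log |σ - a * (1 - Real.cos t)|) =
      fun t : ℝ => Real.log |a * (Real.cos t - (1 - σ / a))| := by
    funext t
    congr 2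
    field_simp
    ring
  refine ⟨e1 ▸ hk.1, ?_, fun h0 => ?_⟩
  · rw [e1, hk.2]
    refine mul_le_mul_of_nonneg_left ?_ (by positivity)
    exact le_add_of_nonneg_right (add_nonneg Real.posLog_nonneg Real.posLog_nonneg)
  · set w : ℝ := 1 + σ / a with hw
    have hw1 : 1 ≤ w := by have : 0 ≤ σ / a := by positivity
                           linarith
    have hq : √(w ^ 2 - 1) ^ 2 = w ^ 2 - 1 := Real.sq_sqrt (by nlinarith)
    have hq0 : 0 ≤ √(w ^ 2 - 1) := Real.sqrt_nonneg _
    have hk2 := EArcP.key a w ha ((w + √(w ^ 2 - 1) : ℝ) : ℂ) ((w - √(w ^ 2 - 1) : ℝ) : ℂ)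
      (by push_cast; ring) (by
        rw [← Complex.ofReal_mul, show (w + √(w ^ 2 - 1)) * (w - √(w ^ 2 - 1)) = 1 by
          linear_combination -hq]
        simp)
    have e2 : (fun t : ℝ => Real.log (σ + a * (1 - Real.cos t))) =
        fun t : ℝ => Real.log |a * (Real.cos t - w)| := by
      funext t
      rw [Real.log_abs, ← Real.log_neg_eq_log]
      congr 1
      rw [hw]
      field_simp
      ring
    rw [e2, hk2.2]
    refine mul_le_mul_of_nonneg_left ?_ (by positivity)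
    have hb : 1 ≤ w + √(w ^ 2 - 1) := by linarith
    have hg0 : 0 ≤ w - √(w ^ 2 - 1) := by
      by_contra hneg
      push Not at hneg
      nlinarith
    have hg1 : w - √(w ^ 2 - 1) ≤ 1 := by nlinarith
    have p1 : Real.posLog ‖((w - √(w ^ 2 - 1) : ℝ) : ℂ)‖ = 0 := by
      rw [Complex.norm_real, Real.norm_eq_abs, Real.posLog_eq_zero_iff, abs_abs, abs_of_nonneg hg0]
      exact hg1
    have p2 : Real.posLog ‖((w + √(w ^ 2 - 1) : ℝ) : ℂ)‖ ≤ √(2 * σ / a) := by
      rw [Complex.norm_real, Real.norm_eq_abs, abs_of_nonneg (by linarith),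
        Real.posLog_eq_log (by rw [abs_of_nonneg (by linarith)]; exact hb),
        Real.log_le_iff_le_exp (by linarith)]
      have := EArcP.root_le w hw1
      rwa [show 2 * (w - 1) = 2 * σ / a by rw [hw]; ring] at this
    rw [p1]
    linarith

end Pool.Agent.P.MP_3bd355_an
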