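import Pool.Agent.P.MP_3bd355_an.E.St

/-! The Beurling estimate. -/

open Set Filter Metric Complex InnerProductSpace
open scoped Topology ComplexConjugate Real

namespace Pool.Agent.P.MP_3bd355_an

namespace EBeuP

open MeasureTheory

theorem mem_Icc_of {ρ : ℝ} (hρ : 0 < ρ) (t : ℝ) :
    0 ≤ ρ / 4 * (1 - Real.cos t) ∧ ρ / 4 * (1 - Real.cos t) ≤ ρ / 2 := by
  have h1 := Real.cos_le_one t
  have h2 := Real.neg_one_le_cos t
  constructor
  · have : 0 ≤ 1 - Real.cos t := by linarith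
    positivity
  · nlinarith

/-- The potential is integrable off the compact set. -/
theorem integ {ξ : ℝ → ℂ} {K : Set ℂ} (hξ : Measurable ξ) (hK : IsCompact K) (hm : ∀ t, ξ t ∈ K)
    {z : ℂ} (hz : z ∉ K) :
    IntervalIntegrable (fun t : ℝ => Real.log ‖z - ξ t‖) volume 0 (2 * π) := by
  have hc : ContinuousOn (fun w : ℂ => Real.log ‖z - w‖) K := by
    refine ContinuousOn.log (by fun_prop) fun w hw => ?_
    exact norm_ne_zero_iff.2 (sub_ne_zero.2 fun e => hz (e ▸ hw))
  obtain ⟨C, hC⟩ := hK.exists_bound_of_continuousOn hc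
  have hmeas : Measurable fun t : ℝ => Real.log ‖z - ξ t‖ :=
    Real.measurable_log.comp (measurable_const.sub hξ).norm
  refine (intervalIntegrable_const (c := C)).mono_fun' hmeas.aestronglyMeasurable ?_
  exact Eventually.of_forall fun t => hC _ (hm t)

theorem ae_ne {a σ : ℝ} (ha : 0 < a) : ∀ᵐ t : ℝ, σ - a * (1 - Real.cos t) ≠ 0 := by
  have hc : Set.Countable {t : ℝ | σ - a * (1 - Real.cos t) = 0} := by
    by_cases h : ∃ t₀ : ℝ, σ - a * (1 - Real.cos t₀) = 0
    · obtain ⟨t₀, h0⟩ := h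
      refine ((countable_range fun k : ℤ => 2 * k * π + t₀).union
        (countable_range fun k : ℤ => 2 * k * π - t₀)).mono fun t ht => ?_
      have h1 : Real.cos t₀ = Real.cos t := by
        have h2 : σ - a * (1 - Real.cos t) = 0 := ht
        have h3 : a * (Real.cos t₀ - Real.cos t) = 0 := by linarith
        have := (mul_eq_zero.1 h3).resolve_left ha.ne'
        linarith
      obtain ⟨k, hk | hk⟩ := Real.cos_eq_cos_iff.1 h1
      · exact Or.inl ⟨k, hk.symm⟩
      · exact Or.inr ⟨k, hk.symm⟩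
    · have : {t : ℝ | σ - a * (1 - Real.cos t) = 0} = ∅ :=
        eq_empty_of_forall_notMem fun t ht => h ⟨t, ht⟩
      rw [this]
      exact countable_empty
  exact measure_mono_null (fun t ht => by simpa using ht) (hc.measure_zero volume)

theorem one_le_log : (1 : ℝ) ≤ Real.log (14 / 5) := by
  rw [Real.le_log_iff_exp_le (by norm_num)]
  have := Real.exp_one_lt_d9
  linarith

end EBeuP

open EBeuP MeasureTheory in
theorem e_beu (h1 : E_SEL) (h2 : E_POT) (h3 : E_ARC) : E_BEU := by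
  intro p ρ K W u hρ hK hKc hp hnb hW hd hu hu1 hfr
  obtain ⟨ζ, hζm, hζ⟩ := h1 K p ρ hK hKc hp hnb hρ
  set ξ : ℝ → ℂ := fun t => ζ (ρ / 4 * (1 - Real.cos t)) with hξ
  have hξm : Measurable ξ := hζm.comp (by fun_prop)
  have hI : ∀ t, ρ / 4 * (1 - Real.cos t) ∈ Icc (0 : ℝ) ρ := fun t =>
    ⟨(mem_Icc_of hρ t).1, (mem_Icc_of hρ t).2.trans (by linarith)⟩
  have hξK : ∀ t, ξ t ∈ K := fun t => (hζ _ (hI t)).1
  have hξn : ∀ t, ‖ξ t - p‖ = ρ / 4 * (1 - Real.cos t) := fun t => (hζ _ (hI t)).2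
  have hnK : ∀ z ∈ W, z ∉ K := fun z hz hk => disjoint_left.1 hd hk hz
  have hπ : 0 < 2 * π := by positivity
  have ha : 0 < ρ / 4 := by positivity
  set P : ℂ → ℝ := fun z => ∫ t in (0 : ℝ)..(2 * π), Real.log ‖z - ξ t‖ with hP
  have hPh : HarmonicOnNhd P W := h2 ξ K W hξm hK hξK hW hd
  set H : ℂ → ℝ := fun z => (2 * π)⁻¹ * P z - Real.log (ρ / 4 / 2) with hH
  have hHh : HarmonicOnNhd H W := fun z hz => by
    have e1 : H = (2 * π)⁻¹ • P - fun _ => Real.log (ρ / 4 / 2) := by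
      funext w
      simp [hH]
    rw [e1]
    exact (hPh z hz).const_smul.sub (harmonicAt_const _)
  have hlow : ∀ z t, |‖z - p‖ - ρ / 4 * (1 - Real.cos t)| ≤ ‖z - ξ t‖ := fun z t => by
    rw [← hξn t]
    have := abs_norm_sub_norm_le (z - p) (ξ t - p)
    rwa [sub_sub_sub_cancel_right] at this
  have hup : ∀ z t, ‖z - ξ t‖ ≤ ‖z - p‖ + ρ / 4 * (1 - Real.cos t) := fun z t => by
    rw [← hξn t]
    have := norm_sub_le (z - p) (ξ t - p)
    rwa [sub_sub_sub_cancel_right] at this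
  have hdiv : ∀ z c, 2 * π * (Real.log (ρ / 4 / 2) + c) ≤ P z → c ≤ H z := fun z c h => by
    have : Real.log (ρ / 4 / 2) + c ≤ (2 * π)⁻¹ * P z := by
      rw [le_inv_mul_iff₀ hπ]
      exact h
    simp only [hH]
    linarith
  have H0 : ∀ z ∈ W, 0 ≤ H z := fun z hz => by
    obtain ⟨i1, i2, -⟩ := h3 (ρ / 4) ‖z - p‖ ha (norm_nonneg _)
    refine hdiv z 0 ?_
    rw [add_zero]
    refine i2.trans (intervalIntegral.integral_mono_ae hπ.le i1 (integ hξm hK hξK (hnK z hz)) ?_)
    filter_upwards [ae_ne (σ := ‖z - p‖) ha] with t ht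
    exact Real.log_le_log (abs_pos.2 ht) (hlow z t)
  have H1 : ∀ z ∈ W, 17 / 20 * ρ < ‖z - p‖ → 1 ≤ H z := fun z hz hl => by
    refine hdiv z 1 ?_
    have e1 : Real.log (ρ / 4 / 2) + 1 ≤ Real.log (7 / 20 * ρ) := by
      have e2 : 7 / 20 * ρ = ρ / 4 / 2 * (14 / 5) := by ring
      rw [e2, Real.log_mul (by positivity) (by norm_num)]
      linarith [one_le_log]
    have e3 : ∫ _ in (0 : ℝ)..(2 * π), Real.log (7 / 20 * ρ) ≤ P z := by
      refine intervalIntegral.integral_mono_on hπ.le intervalIntegrable_const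
        (integ hξm hK hξK (hnK z hz)) fun t _ => Real.log_le_log (by positivity) ?_
      have := (mem_Icc_of hρ t).2
      have h5 := (le_abs_self _).trans (hlow z t)
      linarith
    rw [intervalIntegral.integral_const, sub_zero, smul_eq_mul] at e3
    exact (mul_le_mul_of_nonneg_left e1 hπ.le).trans e3
  have H2 : ∀ z ∈ W, H z ≤ 3 * √(‖z - p‖ / ρ) := fun z hz => by
    have hσ : 0 < ‖z - p‖ := norm_pos_iff.2 (sub_ne_zero.2 fun e => hnK z hz (e ▸ hp))
    obtain ⟨-, -, i3⟩ := h3 (ρ / 4) ‖z - p‖ ha hσ.le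
    have e1 : P z ≤ ∫ t in (0 : ℝ)..(2 * π), Real.log (‖z - p‖ + ρ / 4 * (1 - Real.cos t)) := by
      refine intervalIntegral.integral_mono_on hπ.le (integ hξm hK hξK (hnK z hz)) ?_
        fun t _ => Real.log_le_log ?_ (hup z t)
      · refine Continuous.intervalIntegrable (Continuous.log (by fun_prop) fun t => ?_) _ _
        have := (mem_Icc_of hρ t).1
        positivity
      · exact norm_pos_iff.2 (sub_ne_zero.2 fun e => hnK z hz (e ▸ hξK t))
    have e2 : (2 * π)⁻¹ * P z ≤ Real.log (ρ / 4 / 2) + √(2 * ‖z - p‖ / (ρ / 4)) := by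
      rw [inv_mul_le_iff₀ hπ]
      exact e1.trans (i3 hσ)
    have e3 : √(2 * ‖z - p‖ / (ρ / 4)) ≤ 3 * √(‖z - p‖ / ρ) := by
      have e4 : (3 : ℝ) * √(‖z - p‖ / ρ) = √(9 * (‖z - p‖ / ρ)) := by
        rw [Real.sqrt_mul (by norm_num), show (9 : ℝ) = 3 ^ 2 by norm_num,
          Real.sqrt_sq (by norm_num)]
      rw [e4]
      refine Real.sqrt_le_sqrt ?_
      have e5 : 2 * ‖z - p‖ / (ρ / 4) = 8 * (‖z - p‖ / ρ) := by
        field_simp
        ring
      have e6 : 0 ≤ ‖z - p‖ / ρ := by positivity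
      linarith
    simp only [hH]
    linarith
  have hmp : ∀ z ∈ W ∩ ball p ρ, u z - H z ≤ 0 := by
    refine Sub.mp0 ((hu.sub_harm hHh).mono inter_subset_left) (hW.inter isOpen_ball)
      (isBounded_ball.subset inter_subset_right) fun q hq => ?_
    by_cases hb : q ∈ ball p ρ
    · have hqW : q ∈ frontier W := by
        rcases frontier_inter_subset _ _ hq with h | h
        · exact h.1
        · have h6 := h.2
          rw [isOpen_ball.frontier_eq] at h6
          exact absurd hb h6.2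
      refine ((hfr q hqW hb).mono inter_subset_left).of_le ?_
      filter_upwards [self_mem_nhdsWithin] with z hz
      linarith [H0 z hz.1]
    · refine LS.of_eventually ?_
      have hq1 : 17 / 20 * ρ < ‖q - p‖ := by
        rw [mem_ball, dist_eq_norm, not_lt] at hb
        linarith
      have hev : ∀ᶠ z in 𝓝 q, 17 / 20 * ρ < ‖z - p‖ :=
        (continuous_id.sub continuous_const).norm.continuousAt.eventually (lt_mem_nhds hq1)
      filter_upwards [self_mem_nhdsWithin, nhdsWithin_le_nhds hev] with z hz hz'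
      linarith [H1 z hz.1 hz', hu1 z hz.1]
  intro z hz
  by_cases hb : z ∈ ball p ρ
  · linarith [hmp z ⟨hz, hb⟩, H2 z hz]
  · rw [mem_ball, dist_eq_norm, not_lt] at hb
    have e1 : 1 ≤ √(‖z - p‖ / ρ) := Real.one_le_sqrt.2 ((one_le_div hρ).2 hb)
    linarith [hu1 z hz]

end Pool.Agent.P.MP_3bd355_an
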