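import Pool.Agent.P.MP_3bd355_an.E.St

/-! The negative part of `v` is of order `3 / 2` near the continuum. -/

open Set Filter Metric Complex InnerProductSpace
open scoped Topology ComplexConjugate Real

namespace Pool.Agent.P.MP_3bd355_an

namespace EBqP

theorem of_ord (h2 : E_CUB) {u : ℂ → ℝ} {x : ℝ} {j : ℕ} (ho : Ord u x j) (hj : Even j) :
    ∃ C : ℝ, ∀ᶠ η : ℂ in 𝓝[upH] (x : ℂ), -(C * |η.im| ^ 3) ≤ u η := by
  obtain ⟨C0, hC0⟩ := ho.lower hj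
  obtain ⟨Φ, V, c, hΦ, -⟩ := ho
  obtain ⟨C, hC⟩ := h2 u x Φ hΦ
  have h3 : ∀ᶠ η : ℂ in 𝓝[upH] (x : ℂ), 0 ≤ (deriv Φ η.re).re :=
    nhdsWithin_le_nhds ((Har3P.re_tendsto x).eventually (hΦ.nonneg hC0))
  refine ⟨C, ?_⟩
  filter_upwards [hC, h3, self_mem_nhdsWithin] with η h4 h5 h6
  have h7 : 0 < η.im := h6
  rw [abs_of_pos h7]
  have h8 := (abs_le.1 h4).1
  have h9 := mul_nonneg h7.le h5
  linarith

theorem of_lin {u : ℂ → ℝ} {x : ℝ} (h : ∀ᶠ η : ℂ in 𝓝[upH] (x : ℂ), η.im ≤ u η) :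
    ∃ C : ℝ, ∀ᶠ η : ℂ in 𝓝[upH] (x : ℂ), -(C * |η.im| ^ 3) ≤ u η := by
  refine ⟨0, ?_⟩
  filter_upwards [h, self_mem_nhdsWithin] with η h4 h6
  have h7 : 0 < η.im := h6
  linarith

end EBqP

open EBqP

theorem e_bq (h1 : E_GB) (h2 : E_CUB) : E_BQ := by
  intro r A B z₁ L v φ F h s0 s1 p hF hA hp hpa
  have hU := hF.unif
  have hP := hF.pic
  have hL1 : ∀ q ∈ L, ‖q‖ < 1 := by
    rcases hF.cfg.cases with h0 | h0
    · exact absurd h0.1 hA.ne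
    · exact h0.2.1
  obtain ⟨C, hC⟩ := uni_const (P := fun C η => -(C * |η.im| ^ 3) ≤ v (F η))
    (fun C C' η hCC h0 => by
      have := mul_le_mul_of_nonneg_right hCC (by positivity : 0 ≤ |η.im| ^ 3)
      linarith) (a := s0) (b := s1) fun x hx => by
      rcases Icc_cases hP.le hx with hZo | ⟨hlt, rfl | rfl⟩
      · obtain ⟨j, hj, ho⟩ := hF.pv.ord x hZo
        exact of_ord h2 ho hj
      · obtain ⟨Ψ, hΨ⟩ := hF.pv.end0 hlt
        exact of_lin (RefAt.jump_right (u := fun η => v (F η)) hF.cfg.B0 hΨ)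
      · obtain ⟨Ψ, hΨ⟩ := hF.pv.end1 hlt
        exact of_lin (RefAt.jump_left (u := fun η => v (F η)) hF.cfg.B0 hΨ)
  have hS : ∀ᶠ z in 𝓝[main r L] p, -(C * |Real.log ‖φ z‖| ^ 3) ≤ v z := by
    refine Pic.pull hU hP (P := fun z => -(C * |Real.log ‖φ z‖| ^ 3) ≤ v z) (Or.inl hp)
      fun x hx => ⟨univ, univ_mem, ?_⟩
    filter_upwards [hC x hx, St_mem hU.hpos x] with η hη hη' _
    rw [hU.norm_comp hη', Real.log_exp, abs_neg]
    exact hη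
  obtain ⟨C', hC'⟩ := h1 r L φ F h p hU hL1 hp hpa
  refine ⟨|C| * |C'| ^ 3, SolFP.ev_of_off (W := main r L) (fun z hz => ?_) ?_⟩
  · rw [hF.cfg.sol.off z hz]
    have : 0 ≤ |C| * |C'| ^ 3 * (‖z - p‖ * √‖z - p‖) := by positivity
    linarith
  · filter_upwards [hS, hC', self_mem_nhdsWithin] with z h3 h4 h5
    have h6 : Real.log ‖φ z‖ ≤ 0 := Real.log_nonpos (norm_nonneg _) (hU.lt z h5).le
    have h7 : |Real.log ‖φ z‖| ≤ |C'| * √‖z - p‖ := by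
      rw [abs_of_nonpos h6]
      exact h4.trans (mul_le_mul_of_nonneg_right (le_abs_self _) (Real.sqrt_nonneg _))
    have h8 : |Real.log ‖φ z‖| ^ 3 ≤ (|C'| * √‖z - p‖) ^ 3 :=
      pow_le_pow_left₀ (abs_nonneg _) h7 3
    have h9 : (|C'| * √‖z - p‖) ^ 3 = |C'| ^ 3 * (‖z - p‖ * √‖z - p‖) := by
      have := Real.mul_self_sqrt (norm_nonneg (z - p))
      calc (|C'| * √‖z - p‖) ^ 3 = |C'| ^ 3 * ((√‖z - p‖ * √‖z - p‖) * √‖z - p‖) := by ring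
        _ = _ := by rw [this]
    have h10 : C * |Real.log ‖φ z‖| ^ 3 ≤ |C| * (|C'| ^ 3 * (‖z - p‖ * √‖z - p‖)) :=
      calc C * |Real.log ‖φ z‖| ^ 3 ≤ |C| * |Real.log ‖φ z‖| ^ 3 :=
            mul_le_mul_of_nonneg_right (le_abs_self _) (by positivity)
        _ ≤ _ := mul_le_mul_of_nonneg_left (h9 ▸ h8) (abs_nonneg _)
    rw [mul_assoc]
    linarith

end Pool.Agent.P.MP_3bd355_an
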