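import Pool.Agent.P.MP_3bd355_an.E.St

/-! Growth in the cone at an interior point of the radial slit. -/

open Set Filter Metric Complex InnerProductSpace
open scoped Topology ComplexConjugate Real

namespace Pool.Agent.P.MP_3bd355_an

namespace EConeaP

theorem nb (s : ℝ) : (𝓝[upH] (s : ℂ)).NeBot := by
  refine mem_closure_iff_nhdsWithin_neBot.1 ?_
  have : closure upH = {z : ℂ | 0 ≤ z.im} := Complex.closure_setOfPred_lt_im 0
  rw [this]
  simp

theorem cb2 {v : ℂ → ℝ} {s c : ℝ} (hc : 0 < c)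
    (h : ∀ᶠ η : ℂ in 𝓝[upH] (s : ℂ), c * η.im ≤ v η) : CB2 v s := by
  refine ⟨3 / 4 * c, by positivity, ?_⟩
  have h1 : ∀ᶠ η : ℂ in 𝓝[Cone s] (s : ℂ), c * η.im ≤ v η :=
    nhdsWithin_mono _ (Cone_upH (ofReal_im s)) h
  filter_upwards [h1, self_mem_nhdsWithin,
    nhdsWithin_le_nhds (ball_mem_nhds (s : ℂ) one_pos)] with z h2 h3 h4
  rw [mem_ball, dist_eq_norm] at h4
  have h5 : √‖z - s‖ ≤ 1 := Real.sqrt_le_one.2 h4.le
  have h6 := Complex.norm_le_abs_re_add_abs_im (z - s)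
  have h7 := h3.1
  have h8 : (z - s).im = z.im := by simp
  have h9 : 0 ≤ (z - s).im := le_trans (by positivity) h7
  rw [abs_of_nonneg h9] at h6
  have h10 : ‖z - s‖ * √‖z - s‖ ≤ 4 / 3 * z.im := by
    have := mul_le_mul_of_nonneg_left h5 (norm_nonneg (z - s))
    linarith
  have := mul_le_mul_of_nonneg_left h10 hc.le
  linarith

end EConeaP

open EConeaP in
theorem e_conea : E_CONEa := by
  intro r A B x R s z₀ a b c κ v g hC hrx hK him h1 hxs hsR
  have hs : (s : ℂ) ∈ κ '' Icc 0 1 := by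
    rw [him]; exact ⟨by simp, by simpa using hxs.le, by simpa using hsR.le⟩
  obtain ⟨t, ht, hts⟩ := id hs
  have ht0 : 0 < t := lt_of_le_of_ne ht.1 fun e => by
    rw [← e, hK.start] at hts
    exact hxs.ne (by exact_mod_cast hts)
  have ht1 : t < 1 := lt_of_le_of_ne ht.2 fun e => by
    rw [e, h1] at hts
    exact hsR.ne' (by exact_mod_cast hts)
  have hs0 : 0 < s := by linarith [hC.r0]
  have hn : r < ‖κ t‖ := by
    rw [hts, Complex.norm_real, Real.norm_of_nonneg hs0.le]; linarith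
  have hsa : (s : ℂ) ∈ ann r := by
    rw [← hts]; exact ⟨hn, (hK.mem t ⟨ht.1, ht1⟩).2⟩
  have hz0 : (s : ℂ) ≠ z₀ := fun e => hK.avoid (e ▸ hs)
  have hpos : ∀ᶠ z in 𝓝 (s : ℂ), 0 ≤ v z := hts ▸ hK.v_pos t ⟨ht.1, ht1⟩ hn
  have hall : ∀ᶠ z in 𝓝 (s : ℂ), 0 ≤ v z ∧ z ∈ ann r ∧ z ≠ z₀ :=
    hpos.and (((isOpen_ann r).eventually_mem hsa).and (eventually_ne_nhds hz0))
  obtain ⟨ρ, hρ, hb⟩ := Metric.eventually_nhds_iff_ball.1 hall
  have hUs : ∀ z ∈ ball (s : ℂ) ρ ∩ upH, z ∈ ann r \ κ '' Icc 0 1 := fun z hz =>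
    ⟨(hb z hz.1).2.1, by rw [him]; exact fun h => (ne_of_gt hz.2) h.1⟩
  have hUo : IsOpen (ball (s : ℂ) ρ ∩ upH) := isOpen_ball.inter isOpen_upH
  have hUc : IsPreconnected (ball (s : ℂ) ρ ∩ upH) :=
    ((convex_ball _ _).inter (convex_halfSpace_im_gt 0)).isPreconnected
  have hUm : ball (s : ℂ) ρ ∩ upH ∈ 𝓝[upH] (s : ℂ) :=
    inter_mem (nhdsWithin_le_nhds (ball_mem_nhds _ hρ)) self_mem_nhdsWithin
  have hh : HarmonicOnNhd v (ball (s : ℂ) ρ ∩ upH) := fun z hz => hK.v_harm z (hUs z hz)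
  obtain ⟨Φ, hΦ⟩ : ∃ Φ, RefAt v s Φ := by
    refine refAt_of_tendsto (mem_of_superset hUm hh) ?_
    have e1 : ∀ᶠ u : ℝ in 𝓝 s, (u : ℂ) ∈ ann r :=
      (Complex.continuous_ofReal.tendsto s).eventually ((isOpen_ann r).eventually_mem hsa)
    filter_upwards [e1, Ioo_mem_nhds hxs hsR] with u h2 h3
    have h4 : v u = 0 := hK.v_zero u h2 (by
      rw [him]; exact ⟨by simp, by simpa using h3.1.le, by simpa using h3.2.le⟩)
    rw [← h4]
    exact ((hK.v_cont.continuousAt ((isOpen_ann r).mem_nhds h2)).tendsto).mono_left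
      nhdsWithin_le_nhds
  have hp : ∀ z ∈ ball (s : ℂ) ρ ∩ upH, 0 < v z := by
    intro z hz
    refine lt_of_le_of_ne (hb z hz.1).1 fun e => ?_
    have h2 := harm_zero_of_min hUo hUc hh (fun y hy => (hb y hy.1).1) hz e.symm
    have h3 : ∀ y ∈ ball (s : ℂ) ρ ∩ upH, QD r z₀ x a b c y = 0 := by
      intro y hy
      have h4 : v =ᶠ[𝓝 y] fun _ => (0 : ℝ) := mem_of_superset (hUo.mem_nhds hy) h2
      rw [← hK.prod y (hUs y hy) (hb y hy.1).2.2, grad_congr h4, grad_const, zero_mul]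
    have h5 : ContinuousAt (QD r z₀ x a b c) s :=
      (QD_analytic hC.r0 hC.r1 hC.m0 hC.m1 a b c ⟨hsa.1.le, hsa.2.le⟩ hz0
        (Or.inl fun e => hxs.ne' (by exact_mod_cast e))).continuousAt
    have := nb s
    have h6 : QD r z₀ x a b c s = 0 :=
      tendsto_nhds_unique (h5.tendsto.mono_left (nhdsWithin_le_nhds (s := upH)))
        (tendsto_const_nhds.congr' (mem_of_superset hUm fun y hy => (h3 y hy).symm))
    obtain ⟨-, q, hq, h7⟩ := hK.traj t ⟨ht0, ht1⟩ hn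
    rw [hts, h6, zero_mul] at h7
    have : (q : ℂ) = 0 := by linear_combination h7
    exact hq.ne' (by exact_mod_cast this)
  obtain ⟨c', hc', h⟩ := (hΦ.ord_zero (hΦ.hopf (mem_of_superset hUm hp))).zero_pos
  exact cb2 hc' h

end Pool.Agent.P.MP_3bd355_an
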