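import Pool.Agent.P.MP_3bd355_an.E.St

/-! Package CONEb: growth of order `3 / 2` in the cone at the tip of the radial slit. -/

open Set Filter Metric Complex InnerProductSpace
open scoped Topology ComplexConjugate Real

namespace Pool.Agent.P.MP_3bd355_an

namespace EConebP

theorem neBot_up (x : ℝ) : (𝓝[upH] (x : ℂ)).NeBot := (tendsto_vert x).neBot

theorem ana (R : ℝ) (η : ℂ) : AnalyticAt ℂ (fun η : ℂ => (R : ℂ) - η ^ 2) η := by fun_prop

theorem der (R : ℝ) (η : ℂ) : deriv (fun η : ℂ => (R : ℂ) - η ^ 2) η = -(2 * η) := by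
  have : HasDerivAt (fun η : ℂ => (R : ℂ) - η ^ 2) (-(2 * η)) η := by
    simpa using (hasDerivAt_pow 2 η).const_sub (R : ℂ)
  exact this.deriv

theorem not_seg {x R : ℝ} {η : ℂ} (hη : η ∈ upH) : (R : ℂ) - η ^ 2 ∉ seg x R := by
  rintro ⟨h1, -, h3⟩
  have h0 : 0 < η.im := hη
  simp only [sub_im, ofReal_im, sub_re, ofReal_re, pow_two, mul_im, mul_re] at h1 h3
  have hre : η.re = 0 := by
    have : η.re * η.im = 0 := by linarith
    exact (mul_eq_zero.1 this).resolve_right h0.ne'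
  rw [hre] at h3
  nlinarith

theorem real_seg {x R t : ℝ} (ht : t ^ 2 ≤ R - x) : (R : ℂ) - (t : ℂ) ^ 2 ∈ seg x R := by
  have e : (R : ℂ) - (t : ℂ) ^ 2 = ((R - t ^ 2 : ℝ) : ℂ) := by push_cast; ring
  rw [e]
  refine ⟨ofReal_im _, ?_, ?_⟩
  · rw [ofReal_re]; linarith
  · rw [ofReal_re]; nlinarith [sq_nonneg t]

/-- The last step: from the cubic asymptotics in the chart to the bound in the cone. -/
theorem cone {v : ℂ → ℝ} {R : ℝ} (h : Ord (fun η : ℂ => v ((R : ℂ) - η ^ 2)) 0 2) : CB2 v R := by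
  obtain ⟨c, hc, h⟩ := h.asymp
  obtain ⟨δ, hδ, hb⟩ := har2_ball (h (c / 12) (by positivity))
  refine ⟨c / 12, by positivity, ?_⟩
  have hball : ∀ᶠ z in 𝓝[Cone (R : ℂ)] (R : ℂ), z ∈ ball (R : ℂ) (δ ^ 2) :=
    mem_nhdsWithin_of_mem_nhds (ball_mem_nhds _ (by positivity))
  filter_upwards [hball, self_mem_nhdsWithin] with z hz hcz
  obtain ⟨h1, h2⟩ := hcz
  have hz0 : z - R ≠ 0 := sub_ne_zero.2 h2
  have hm0 : 0 < ‖z - R‖ := norm_pos_iff.2 hz0
  have ht : (z - R).im ≤ ‖z - R‖ := (le_abs_self _).trans (abs_im_le_norm _)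
  have ht0 : (z - R).im ≠ 0 := by
    intro h0
    have : (z - R).re = 0 := by
      rw [h0] at h1
      exact abs_eq_zero.1 (le_antisymm (by linarith) (abs_nonneg _))
    exact hz0 (Complex.ext this h0)
  obtain ⟨η, hη, hup⟩ : ∃ η : ℂ, η ^ 2 = -(z - R) ∧ 0 < η.im := by
    obtain ⟨η, hη⟩ := IsAlgClosed.exists_pow_nat_eq (-(z - R)) (n := 2) (by norm_num)
    have hi : η.im ≠ 0 := by
      intro h0
      have := congrArg Complex.im hη
      rw [pow_two, mul_im, h0, neg_im] at this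
      exact ht0 (by linarith)
    rcases lt_or_gt_of_ne hi with h | h
    · exact ⟨-η, by rw [neg_sq, hη], by rw [neg_im]; linarith⟩
    · exact ⟨η, hη, h⟩
  have hn : ‖η‖ ^ 2 = ‖z - R‖ := by rw [← norm_pow, hη, norm_neg]
  have hs : √‖z - R‖ = ‖η‖ := by rw [← hn, Real.sqrt_sq (norm_nonneg _)]
  have hlt : ‖η‖ < δ := by
    rw [mem_ball, dist_eq_norm, ← hn] at hz
    exact lt_of_pow_lt_pow_left₀ 2 hδ.le hz
  have hE := hb η ⟨by simpa using hlt, hup⟩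
  have ez : (R : ℂ) - η ^ 2 = z := by rw [hη]; ring
  simp only [ez, ofReal_zero, sub_zero, show 2 + 1 = 3 from rfl] at hE
  have e1 : η.re ^ 2 + η.im ^ 2 = ‖z - R‖ := by
    rw [← hn, Complex.sq_norm, normSq_apply]; ring
  have e2 : η.re ^ 2 - η.im ^ 2 = -(z - R).re := by
    have := congrArg Complex.re hη
    rw [pow_two, mul_re, neg_re] at this
    linarith
  have e3 : (η ^ 3).im = η.im * (3 * η.re ^ 2 - η.im ^ 2) := by
    simp only [pow_succ, pow_zero, one_mul, mul_im, mul_re]; ring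
  have a1 := le_abs_self (z - R).re
  have a2 := neg_abs_le (z - R).re
  have hq : ‖η‖ / 2 ≤ η.im := by
    refine le_of_sq_le_sq ?_ hup.le
    rw [div_pow, hn]; linarith
  have hp : ‖z - R‖ / 3 ≤ 3 * η.re ^ 2 - η.im ^ 2 := by linarith
  have hI : ‖η‖ / 2 * (‖z - R‖ / 3) ≤ (η ^ 3).im := by
    rw [e3]; exact mul_le_mul hq hp (by positivity) hup.le
  have e4 : ‖η‖ ^ 3 = ‖z - R‖ * ‖η‖ := by rw [← hn]; ring
  rw [e4] at hE
  rw [hs]
  have := (abs_le.1 hE).1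
  have := mul_le_mul_of_nonneg_left hI hc.le
  linarith

end EConebP

open EConebP in
theorem e_coneb (h : S_CRIT2) : E_CONEb := by
  intro r A B x R z₀ a b c κ v g hCH hrx hC hK h1 hxR hA
  obtain ⟨hRa, hQ0, -⟩ := hC.end_neg hA
  rw [h1] at hRa hQ0
  have hg0 := (h r A B z₀ x a b c κ v g hCH hC).2.1
  have hRK : (R : ℂ) ∈ κ '' Icc 0 1 := ⟨1, by simp, h1⟩
  have hz0 : (R : ℂ) ≠ z₀ := fun e => hC.avoid (e ▸ hRK)
  have hRx : (R : ℂ) ≠ x := fun e => hxR.ne' (by exact_mod_cast e)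
  obtain ⟨P, hP⟩ : ∃ P : ℂ → ℂ, P = fun η : ℂ => (R : ℂ) - η ^ 2 := ⟨_, rfl⟩
  have hPa : ∀ η, AnalyticAt ℂ P η := fun η => hP ▸ ana R η
  have hPd : ∀ η, deriv P η = -(2 * η) := fun η => hP ▸ der R η
  have hPn : ∀ η ∈ upH, P η ∉ κ '' Icc 0 1 := fun η hη => by rw [hK, hP]; exact not_seg hη
  have hP0 : P ((0 : ℝ) : ℂ) = R := by rw [hP]; simp
  have hPt : Tendsto P (𝓝 ((0 : ℝ) : ℂ)) (𝓝 (R : ℂ)) := hP0 ▸ (hPa _).continuousAt.tendsto
  have hN : ∀ᶠ η in 𝓝 ((0 : ℝ) : ℂ), P η ∈ ann r ∧ P η ≠ z₀ :=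
    hPt.eventually (((isOpen_ann r).eventually_mem hRa).and (eventually_ne_nhds hz0))
  have hU : ∀ᶠ η in 𝓝[upH] ((0 : ℝ) : ℂ), η ∈ upH ∧ P η ∈ ann r \ κ '' Icc 0 1 ∧ P η ≠ z₀ := by
    filter_upwards [mem_nhdsWithin_of_mem_nhds hN, self_mem_nhdsWithin] with η h2 h3
    exact ⟨h3, ⟨h2.1, hPn η h3⟩, h2.2⟩
  have hT : ∀ᶠ t : ℝ in 𝓝 0, P t ∈ ann r ∧ P t ∈ κ '' Icc 0 1 := by
    have t1 : ∀ᶠ t : ℝ in 𝓝 0, t ^ 2 ≤ R - x := by
      have : Tendsto (fun t : ℝ => t ^ 2) (𝓝 0) (𝓝 0) := by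
        simpa using (continuous_pow 2).tendsto (0 : ℝ)
      exact this.eventually (eventually_le_nhds (by linarith))
    filter_upwards [(Har3P.ofReal_tendsto 0).eventually hN, t1] with t h2 h3
    exact ⟨h2.1, by rw [hK, hP]; exact real_seg h3⟩
  obtain ⟨Φ, hΦ⟩ : ∃ Φ, RefAt (fun η => v (P η)) 0 Φ := by
    refine refAt_of_tendsto (hU.mono fun η h2 => harm_comp (hC.v_harm _ h2.2.1) (hPa η)) ?_
    filter_upwards [hT] with t h2
    have c1 : ContinuousAt v (P t) := hC.v_cont.continuousAt ((isOpen_ann r).mem_nhds h2.1)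
    have c2 := (c1.tendsto.comp (hPa t).continuousAt.tendsto).mono_left
      (nhdsWithin_le_nhds (s := upH))
    rwa [hC.v_zero _ h2.1 h2.2] at c2
  obtain ⟨Ψ, hΨ⟩ : ∃ Ψ, RefAt (fun η => g (P η)) 0 Ψ := by
    refine refAt_of_tendsto
      (hU.mono fun η h2 => harm_comp (hC.g_harm _ ⟨h2.2.1, h2.2.2⟩) (hPa η)) ?_
    filter_upwards [hT, eventually_upH hU] with t h2 h3
    have := neBot_up t
    have c1 : Tendsto P (𝓝[upH] (t : ℂ)) (𝓝 (P t)) :=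
      (hPa t).continuousAt.tendsto.mono_left nhdsWithin_le_nhds
    have c2 : Tendsto P (𝓝[upH] (t : ℂ)) (𝓝[ann r \ κ '' Icc 0 1] (P t)) :=
      tendsto_nhdsWithin_iff.2 ⟨c1, h3.mono fun η h4 => h4.2.1⟩
    refine (hC.g_bd (P t) ⟨mem_closure_of_tendsto c1 (h3.mono fun η h4 => h4.2.1), fun hi => ?_⟩).comp
      c2
    exact (interior_subset hi).2 h2.2
  have hQa : AnalyticAt ℂ (fun η => QD r z₀ x a b c (P η)) ((0 : ℝ) : ℂ) := by
    have := QD_analytic hCH.r0 hCH.r1 hCH.m0 hCH.m1 a b c (p := (R : ℂ))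
      ⟨hRa.1.le, hRa.2.le⟩ hz0 (Or.inl hRx)
    exact AnalyticAt.comp (g := QD r z₀ x a b c) (f := P) (hP0 ▸ this) (hPa _)
  have nb := neBot_up 0
  have hgv : ∀ᶠ η in 𝓝[upH] ((0 : ℝ) : ℂ),
      grad (fun η => v (P η)) η = grad v (P η) * -(2 * η) ∧
      grad (fun η => g (P η)) η = grad g (P η) * -(2 * η) ∧
      grad v (P η) * grad g (P η) = QD r z₀ x a b c (P η) := by
    filter_upwards [hU] with η h2
    refine ⟨?_, ?_, hC.prod _ h2.2.1 h2.2.2⟩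
    · rw [grad_comp (harm_diff (hC.v_harm _ h2.2.1)) (hPa η).differentiableAt, hPd]
    · rw [grad_comp (harm_diff (hC.g_harm _ ⟨h2.2.1, h2.2.2⟩)) (hPa η).differentiableAt, hPd]
  have hGp : ∀ᶠ η in 𝓝[upH] ((0 : ℝ) : ℂ), 0 < g (P η) := by
    obtain ⟨δ, hδ, hb⟩ := har2_ball hU
    have hWo : IsOpen (ball ((0 : ℝ) : ℂ) δ ∩ upH) := isOpen_ball.inter isOpen_upH
    have hWc : IsPreconnected (ball ((0 : ℝ) : ℂ) δ ∩ upH) :=
      ((convex_ball _ _).inter (convex_halfSpace_im_gt 0)).isPreconnected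
    have hWm : ball ((0 : ℝ) : ℂ) δ ∩ upH ∈ 𝓝[upH] ((0 : ℝ) : ℂ) :=
      inter_mem (mem_nhdsWithin_of_mem_nhds (ball_mem_nhds _ hδ)) self_mem_nhdsWithin
    have hnn : ∀ η ∈ ball ((0 : ℝ) : ℂ) δ ∩ upH, 0 ≤ g (P η) := fun η hη =>
      (hg0 _ (hb η hη).2.1 (hb η hη).2.2).1
    filter_upwards [hWm] with η0 hη0
    refine lt_of_le_of_ne (hnn η0 hη0) fun e => hQ0 ?_
    have hz := harm_zero_of_min (u := fun η => g (P η)) hWo hWc
      (fun η hη => harm_comp (hC.g_harm _ ⟨(hb η hη).2.1, (hb η hη).2.2⟩) (hPa η)) hnn hη0 e.symm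
    have q0 : ∀ᶠ η in 𝓝[upH] ((0 : ℝ) : ℂ), QD r z₀ x a b c (P η) = 0 := by
      filter_upwards [hWm, hgv] with η hη h2
      have e1 : grad (fun η => g (P η)) η = 0 := by
        rw [grad_congr (w := fun _ => 0) (eventually_of_mem (hWo.mem_nhds hη) hz), grad_const]
      have hη0 : η ≠ 0 := fun e => by
        have : 0 < η.im := hη.2
        rw [e] at this; simp at this
      rw [h2.2.1] at e1
      rw [← h2.2.2, (mul_eq_zero.1 e1).resolve_right (by simpa using hη0), mul_zero]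
    have q1 := hQa.continuousAt.tendsto.mono_left (nhdsWithin_le_nhds (s := upH))
    have q2 := tendsto_nhds_unique q1 (tendsto_const_nhds.congr' (q0.mono fun η e => e.symm))
    rwa [hP0] at q2
  have hΨp := hΨ.hopf hGp
  have hΨ0 : deriv Ψ ((0 : ℝ) : ℂ) ≠ 0 := fun e => by rw [e] at hΨp; simp at hΨp
  have hid : ∀ᶠ η in 𝓝 ((0 : ℝ) : ℂ),
      deriv Φ η * deriv Ψ η = η ^ 2 * (-4 * QD r z₀ x a b c (P η)) := by
    have a1 : AnalyticAt ℂ (fun η => deriv Φ η * deriv Ψ η) ((0 : ℝ) : ℂ) :=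
      hΦ.1.deriv.mul hΨ.1.deriv
    have a2 : AnalyticAt ℂ (fun η : ℂ => η ^ 2 * (-4 * QD r z₀ x a b c (P η))) ((0 : ℝ) : ℂ) :=
      (analyticAt_id.pow 2).mul (analyticAt_const.mul hQa)
    refine (a1.frequently_eq_iff_eventually_eq a2).1 ?_
    have hle : 𝓝[upH] ((0 : ℝ) : ℂ) ≤ 𝓝[≠] ((0 : ℝ) : ℂ) := by
      refine nhdsWithin_mono _ fun η hη e => ?_
      have : 0 < η.im := hη
      rw [mem_singleton_iff.1 e] at this; simp at this
    refine Frequently.filter_mono (Eventually.frequently ?_) hle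
    filter_upwards [hgv, hΦ.grad, hΨ.grad] with η h2 h3 h4
    rw [h2.1] at h3
    rw [h2.2.1] at h4
    rw [← h2.2.2]
    have hI : I * I = -1 := I_mul_I
    linear_combination (-(I * deriv Ψ η)) * h3 - (-(2 * η) * grad v (P η)) * (-1) * h4 +
      (deriv Φ η * deriv Ψ η) * hI
  obtain ⟨W, hW⟩ : ∃ W : ℂ → ℂ, W = fun η => -4 * QD r z₀ x a b c (P η) / deriv Ψ η := ⟨_, rfl⟩
  have hWa : AnalyticAt ℂ W ((0 : ℝ) : ℂ) := by
    rw [hW]; exact (analyticAt_const.mul hQa).div hΨ.1.deriv hΨ0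
  have hW0 : W ((0 : ℝ) : ℂ) ≠ 0 := by
    rw [hW]
    refine div_ne_zero (mul_ne_zero (by norm_num) ?_) hΨ0
    rwa [hP0]
  have hd : ∀ᶠ η in 𝓝 ((0 : ℝ) : ℂ), deriv Φ η = (η - ((0 : ℝ) : ℂ)) ^ 2 * W η := by
    filter_upwards [hid, hΨ.1.deriv.continuousAt.eventually_ne hΨ0] with η h2 h3
    rw [hW, ofReal_zero, sub_zero]
    field_simp
    linear_combination h2
  have hreal : ∀ᶠ t : ℝ in 𝓝[≠] 0, (W t).im = 0 ∧ 0 ≤ (W t).re := by
    have t1 := (Har3P.ofReal_tendsto 0).eventually hd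
    filter_upwards [mem_nhdsWithin_of_mem_nhds t1, mem_nhdsWithin_of_mem_nhds hΦ.deriv_im,
      mem_nhdsWithin_of_mem_nhds hΦ.eventually, mem_nhdsWithin_of_mem_nhds hT,
      self_mem_nhdsWithin] with t h2 h3 h4 h5 h6
    have ht : t ≠ 0 := h6
    have ht2 : 0 < t ^ 2 := by positivity
    have e : deriv Φ t = ((t ^ 2 : ℝ) : ℂ) * W t := by
      rw [h2, ofReal_zero, sub_zero]; push_cast; ring
    obtain ⟨s, hs, hst⟩ := h5.2
    have hs1 : s < 1 := by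
      refine lt_of_le_of_ne hs.2 fun e1 => ?_
      rw [e1, h1, hP] at hst
      have : (t : ℂ) ^ 2 = 0 := by linear_combination hst
      exact ht (by simpa using this)
    have hv := hC.v_pos s ⟨hs.1, hs1⟩ (by rw [hst]; exact h5.1.1)
    rw [hst] at hv
    have hv' : ∀ᶠ η : ℂ in 𝓝[upH] (t : ℂ), -(0 : ℝ) * η.im ^ 2 ≤ v (P η) :=
      mem_nhdsWithin_of_mem_nhds (((hPa t).continuousAt.tendsto.eventually hv).mono
        fun η h7 => by simpa using h7)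
    have h8 := (h4.nonneg hv').self_of_nhds
    rw [e] at h3 h8
    rw [im_ofReal_mul] at h3
    rw [re_ofReal_mul] at h8
    exact ⟨(mul_eq_zero.1 h3).resolve_left ht2.ne', nonneg_of_mul_nonneg_right h8 ht2⟩
  have hWt : Tendsto (fun t : ℝ => W t) (𝓝[≠] 0) (𝓝 (W ((0 : ℝ) : ℂ))) :=
    (hWa.continuousAt.tendsto.comp (Har3P.ofReal_tendsto 0)).mono_left nhdsWithin_le_nhds
  have hi0 : (W ((0 : ℝ) : ℂ)).im = 0 :=
    tendsto_nhds_unique ((continuous_im.tendsto _).comp hWt)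
      (tendsto_const_nhds.congr' (hreal.mono fun t e => e.1.symm))
  have hr0 : 0 ≤ (W ((0 : ℝ) : ℂ)).re :=
    ge_of_tendsto ((continuous_re.tendsto _).comp hWt) (hreal.mono fun t e => e.2)
  have hr1 : 0 < (W ((0 : ℝ) : ℂ)).re :=
    lt_of_le_of_ne hr0 fun e => hW0 (Complex.ext e.symm hi0)
  refine cone ?_
  have hO : Ord (fun η => v (P η)) 0 2 :=
    ⟨Φ, W, (W ((0 : ℝ) : ℂ)).re, hΦ, hWa, hr1, Complex.ext (by simp) (by simpa using hi0), hd⟩
  rw [hP] at hO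
  exact hO

end Pool.Agent.P.MP_3bd355_an
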