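import Pool.Agent.P.MP_3bd355_an.E.St
import Pool.Agent.P.MP_3bd355_an.Pk.Lin

/-! The core of the exceptional position. -/

open Set Filter Metric Complex InnerProductSpace
open scoped Topology ComplexConjugate Real

namespace Pool.Agent.P.MP_3bd355_an

namespace ECoreP

theorem cone_neBot (z₀ : ℂ) : (𝓝[Cone z₀] z₀).NeBot := by
  have h : Tendsto (fun t : ℝ => z₀ + t * I) (𝓝[>] 0) (𝓝[Cone z₀] z₀) := by
    refine tendsto_nhdsWithin_iff.2 ⟨?_, ?_⟩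
    · have : Continuous fun t : ℝ => z₀ + t * I := by fun_prop
      have h1 := this.tendsto 0
      simp only [ofReal_zero, zero_mul, add_zero] at h1
      exact h1.mono_left nhdsWithin_le_nhds
    · filter_upwards [self_mem_nhdsWithin] with t ht
      have ht' : (0 : ℝ) < t := ht
      refine ⟨by simpa using ht'.le, fun e => ?_⟩
      have := congrArg Complex.im e
      simp at this
      exact ht'.ne' this
  exact h.neBot

theorem small (z₀ : ℂ) (K : ℝ) {c : ℝ} (hc : 0 < c) :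
    ∀ᶠ z in 𝓝[Cone z₀] z₀, K * √‖z - z₀‖ < c := by
  refine nhdsWithin_le_nhds ?_
  have h : Continuous fun z : ℂ => K * √‖z - z₀‖ := by fun_prop
  have h1 := h.tendsto z₀
  simp only [sub_self, norm_zero, Real.sqrt_zero, mul_zero] at h1
  exact h1.eventually (gt_mem_nhds hc)

theorem small' (K : ℝ) {c : ℝ} (hc : 0 < c) : ∀ᶠ ε : ℝ in 𝓝[>] 0, K * ε < c := by
  refine nhdsWithin_le_nhds ?_
  have h : Continuous fun ε : ℝ => K * ε := by fun_prop
  have h1 := h.tendsto 0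
  simp only [mul_zero] at h1
  exact h1.eventually (gt_mem_nhds hc)

theorem cb2_of {v : ℂ → ℝ} {z₀ : ℂ} (h : CB1 v z₀) : CB2 v z₀ := by
  obtain ⟨c, hc, h⟩ := h
  refine ⟨c, hc, ?_⟩
  filter_upwards [h, small z₀ 1 one_pos] with z h1 h2
  refine le_trans (mul_le_mul_of_nonneg_left ?_ hc.le) h1
  exact mul_le_of_le_one_right (norm_nonneg _) (by linarith)

theorem fld_pos {X : ℂ} (hX : 4 * |X.re| < -X.im) : 0 < ‖X‖ :=
  (lt_of_le_of_lt (by positivity) hX).trans_le ((neg_le_abs _).trans (Complex.abs_im_le_norm X))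

/-- The arithmetic of the second order case. -/
theorem arith2 {c N ε s V D C C₂ σ C₃ G : ℝ} (hc : 0 < c) (hN : 0 < N) (hε : 0 < ε) (hs : 0 ≤ s)
    (hd : ε * N / 2 ≤ s ^ 2) (hV : c * (s ^ 2 * s) ≤ V) (hD : -(C₂ * |V| + σ * G) ≤ D)
    (hG : G ≤ C₃ * s) (hσ : 0 ≤ σ) (hσ' : σ * |C₃| ≤ c * N / 8) (h2 : |C₂| * ε < 1 / 2)
    (hup : V + ε * D ≤ C * ε ^ 2) (hsm : 2 * |C| / N * s < c * N / 8) : False := by
  have hs2 : 0 < s ^ 2 := lt_of_lt_of_le (by positivity) hd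
  have hs0 : 0 < s := lt_of_le_of_ne hs (by rintro rfl; simp at hs2)
  have hV0 : 0 < V := lt_of_lt_of_le (by positivity) hV
  rw [abs_of_pos hV0] at hD
  have a1 : C₂ * V ≤ |C₂| * V := mul_le_mul_of_nonneg_right (le_abs_self _) hV0.le
  have a2 : σ * G ≤ c * N / 8 * s := by
    calc σ * G ≤ σ * (|C₃| * s) := mul_le_mul_of_nonneg_left
          (hG.trans (mul_le_mul_of_nonneg_right (le_abs_self _) hs)) hσ
      _ = σ * |C₃| * s := by ring
      _ ≤ _ := mul_le_mul_of_nonneg_right hσ' hs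
  have a3 : -(|C₂| * V + c * N / 8 * s) ≤ D := by linarith
  have a4 : -(ε * (|C₂| * V + c * N / 8 * s)) ≤ ε * D := by
    have := mul_le_mul_of_nonneg_left a3 hε.le
    linarith
  have a5 : ε * (|C₂| * V) ≤ V / 2 := by nlinarith
  have a6 : c * (ε * N / 2 * s) ≤ V :=
    le_trans (mul_le_mul_of_nonneg_left (mul_le_mul_of_nonneg_right hd hs) hc.le) hV
  have a7 : c * N / 8 * s * ε ≤ |C| * ε * ε := by
    have : C * ε ^ 2 ≤ |C| * ε ^ 2 := mul_le_mul_of_nonneg_right (le_abs_self _) (sq_nonneg _)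
    nlinarith
  have a8 : c * N / 8 * s ≤ |C| * ε := le_of_mul_le_mul_right a7 hε
  have a9 : ε ≤ 2 / N * s ^ 2 := by
    rw [div_mul_eq_mul_div, le_div_iff₀ hN]; linarith
  have a10 : |C| * ε ≤ 2 * |C| / N * s * s := by
    calc |C| * ε ≤ |C| * (2 / N * s ^ 2) := mul_le_mul_of_nonneg_left a9 (abs_nonneg _)
      _ = _ := by ring
  have a11 := mul_lt_mul_of_pos_right hsm hs0
  linarith

/-- The arithmetic of the first order case. -/
theorem arith1 {c N ε s V D C τ : ℝ} (hN : 0 < N) (hε : 0 < ε) (hε1 : ε < 1)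
    (hs : 0 ≤ s) (hτ : 0 ≤ τ) (hd : ε * N / 2 ≤ s ^ 2) (hV : c * s ≤ V) (hD : -1 ≤ D)
    (hup : V + ε * D ≤ C * (ε ^ 2 + τ * ε)) (hsm : 2 * (1 + |C| * (1 + τ)) / N * s < c) :
    False := by
  have hs2 : 0 < s ^ 2 := lt_of_lt_of_le (by positivity) hd
  have hs0 : 0 < s := lt_of_le_of_ne hs (by rintro rfl; simp at hs2)
  have a1 : C * (ε ^ 2 + τ * ε) ≤ |C| * ((1 + τ) * ε) := by
    refine (mul_le_mul_of_nonneg_right (le_abs_self _) (by positivity)).trans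
      (mul_le_mul_of_nonneg_left ?_ (abs_nonneg _))
    nlinarith
  have a2 : -ε ≤ ε * D := by nlinarith
  have a3 : c * s ≤ (1 + |C| * (1 + τ)) * ε := by nlinarith
  have a9 : ε ≤ 2 / N * s ^ 2 := by
    rw [div_mul_eq_mul_div, le_div_iff₀ hN]; linarith
  have a10 : (1 + |C| * (1 + τ)) * ε ≤ 2 * (1 + |C| * (1 + τ)) / N * s * s := by
    calc _ ≤ (1 + |C| * (1 + τ)) * (2 / N * s ^ 2) :=
          mul_le_mul_of_nonneg_left a9 (by positivity)
      _ = _ := by ring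
  have a11 := mul_lt_mul_of_pos_right hsm hs0
  linarith

end ECoreP

open ECoreP in
theorem e_core (hF : S_FR) (hG : S_GREEN) (hM : S_MART) (hS : S_SOLEX) (h1 : E_TIP1) (h2 : E_TP)
    (h3 : E_VARX) (h4 : E_POSa) (h5 : E_POSb) (h6 : E_KNEG) (h7 : E_ALT) (h8 : E_KEY)
    (h9 : E_AIM) (h10 : E_GB) (h11 : E_EDAT) (h12 : E_REG) (h13 : E_TIPA) : E_CORE := by
  intro r A B z₀ z₁ L v hc hA hz0 m0 him hne hCB hBd
  have hL := hc.cont
  have ho : ∀ p ∈ L, ‖p‖ < 1 := by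
    rcases hc.cases with ⟨h, -⟩ | ⟨-, h, -⟩
    · exact absurd h hA.ne
    · exact h
  obtain ⟨φ, F, h, s0, s1, hf⟩ := hF r A B z₁ L v hc
  have hU := hf.unif
  obtain ⟨H, hH⟩ := hG _ hL.isOpen_main (bdd_main r L) (preconn_main r L) hL.reg
  obtain ⟨ω, hω⟩ := hS r 1 0 L hL (Or.inr ho)
  have hω0 : ∀ z, 0 ≤ ω z := fun z =>
    (Sol.bounds hL hω (lo := 0) (hi := 1) le_rfl zero_le_one le_rfl zero_le_one le_rfl
      zero_le_one z).1
  obtain ⟨y, -, hone⟩ := h1 r A B z₁ L v φ F h s0 s1 hf hA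
  obtain ⟨T, t1, t2, t3, t4, hK⟩ := h2 r A B z₁ L v φ F h s0 s1 y hf hone.1
  obtain ⟨k, hk⟩ := hM r L φ F h H y hU hH
  have hcm := Cone_main hL m0 him
  have hnb := cone_neBot z₀
  have hmem : ∀ᶠ z in 𝓝[Cone z₀] z₀, z ∈ main r L := hcm self_mem_nhdsWithin
  have hcb2 : CB2 v z₀ := hCB.elim cb2_of fun h => h.1
  have hdip : ∀ {Z : Finset ℂ} {a : ℂ → ℂ} {c₀ : ℝ},
      Fld r L (L ∪ T '' Ioc 0 1) z₀ z₁ Z a c₀ → Dip r L Z (DD H v Z a) := fun hfl =>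
    ⟨fun ζ hζ => (hfl.sub ζ hζ).1, LinP.DD_harm hH v (fun ζ hζ => (hfl.sub ζ hζ).1) _,
      fun p hp => LinP.DD_bd hH v (fun ζ hζ => (hfl.sub ζ hζ).1) _ hp⟩
  have hTZ : ∀ {Z : Finset ℂ} {a : ℂ → ℂ} {c₀ : ℝ},
      Fld r L (L ∪ T '' Ioc 0 1) z₀ z₁ Z a c₀ → ∀ t ∈ Ioo (0 : ℝ) 1, v (T t) < 0 ∧ T t ∉ Z :=
    fun hfl t ht => ⟨t3 t ht, fun hz => (hfl.sub _ hz).2 (Or.inr ⟨t, ⟨ht.1, ht.2.le⟩, rfl⟩)⟩
  have hKm : ∀ z ∈ L ∪ T '' Ioc 0 1, z ∈ main r L → ∃ t ∈ Ioo (0 : ℝ) 1, T t = z := by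
    rintro z (hz | ⟨t, ht, rfl⟩) hm
    · exact absurd hz (main_sub r L hm).2
    · refine ⟨t, ⟨ht.1, lt_of_le_of_ne ht.2 ?_⟩, rfl⟩
      rintro rfl
      exact (main_sub r L hm).1.2.ne t2
  have hΨ : AnalyticOnNhd ℂ (fun ζ => grad v ζ * grad k ζ) (main r L) := fun ζ hζ =>
    (grad_analytic (hc.sol.harm ζ hζ)).mul (grad_analytic (hk.harm ζ hζ))
  rcases h7 r A B z₀ z₁ L _ v _ hc hK hz0 m0 him hne hΨ with
    ⟨Z, a, c₀, hfl, hsum⟩ | ⟨a, b, c, μ, -, haim, ⟨ζ₀, -, hμ⟩, hQ⟩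
  · -- second order variation
    have hD := hdip hfl
    have hDy : DZ (DD H v Z a) F y := by
      have := LinP.DD_lim hk v hD.sub a
      simp only [← mul_assoc] at hsum this
      rwa [hsum] at this
    have hDZ : ∀ x ∈ Zer v F s0 s1, DZ (DD H v Z a) F x := by
      intro x hx
      obtain ⟨n, rfl⟩ := hone.2 x hx
      refine hDy.congr' ?_
      filter_upwards [(tendsto_vert y).eventually (hU.ev_main y)] with τ hτ
      rw [← hU.periodic n hτ.1]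
      congr 3
      push_cast
      ring
    obtain ⟨C, hC0, hpos⟩ := h5 r A B z₁ L v _ ω φ F h s0 s1 Z hf hA hD hω hDZ
    have hneg := (h6 r A B z₁ L v _ φ F h s0 s1 y Z T hf hA hD hone.1 t1 t2 (hTZ hfl) t4).2 hDy
    obtain ⟨C', hv⟩ := h3 r A B z₀ z₁ L _ v ω H Z a c₀ (fun ε => C * ε ^ 2) hc hA hK hH hω hz0 m0
      hfl hBd (by
        filter_upwards [hpos, hneg] with ε e1 e2
        refine ⟨by positivity, e1, fun z hz hm => ?_⟩
        obtain ⟨t, ht, rfl⟩ := hKm z hz hm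
        exact (e2 t ht).trans (by positivity))
    obtain ⟨c, hc0, hcb⟩ := hcb2
    have hN := fld_pos hfl.dir
    set X := z₀ * rho r Z a c₀ z₀ with hX
    obtain ⟨C₃, hgb⟩ := h10 r L φ F h z₀ hU ho hz0 m0
    have hσ : 0 < c * ‖X‖ / 8 / (|C₃| + 1) := by positivity
    have hσ' : c * ‖X‖ / 8 / (|C₃| + 1) * |C₃| ≤ c * ‖X‖ / 8 := by
      rw [div_mul_eq_mul_div, div_le_iff₀ (by positivity)]
      have : 0 < c * ‖X‖ / 8 := by positivity
      nlinarith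
    obtain ⟨C₂, hkey⟩ := h8 r A B z₁ L v _ φ F h s0 s1 Z z₀ _ hf hD hDZ hz0 hσ
    have haim := h9 z₀ X C' _ hfl.dir (hmem.and (hcb.and ((hkey.filter_mono hcm).and
      ((hgb.filter_mono hcm).and (small z₀ (2 * |C' * (1 + C)| / ‖X‖) (c := c * ‖X‖ / 8) (by positivity))))))
    obtain ⟨ε, ⟨z, e1, e2⟩, e3, e4, e5⟩ :=
      (hv.and (haim.and ((small' |C₂| (c := 1 / 2) (by norm_num)).and
        self_mem_nhdsWithin))).exists
    obtain ⟨⟨p1, p2, p3, p4, p5⟩, q1, -⟩ := e3 z e1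
    have hsq : √‖z - z₀‖ ^ 2 = ‖z - z₀‖ := Real.sq_sqrt (norm_nonneg _)
    refine arith2 (s := √‖z - z₀‖) (C := C' * (1 + C)) hc0 hN e5 (Real.sqrt_nonneg _)
      (by rw [hsq]; exact q1) (by rw [hsq]; exact p2) p3 p4 hσ.le hσ' e4 ?_ p5
    refine (e2 p1).trans (le_of_eq ?_)
    ring
  · -- the degenerate alternative
    have hμ0 : μ ≠ 0 := by
      rintro rfl
      simp at hμ
    obtain ⟨a', b', c', lam, hlam, ha', hQ'⟩ : ∃ (a' b' : ℂ) (c' lam : ℝ), 0 < lam ∧ a'.im ≠ 0 ∧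
        ∀ ζ ∈ main r L, lam * (grad v ζ * grad k ζ) = QD r z₀ z₁ a' b' c' ζ := by
      rcases hμ0.lt_or_gt with hn | hp
      · refine ⟨((-1 : ℝ) : ℂ) * a, ((-1 : ℝ) : ℂ) * b, (-1 : ℝ) * c, -μ, by linarith,
          by simpa using haim, fun ζ hζ => ?_⟩
        rw [QD_smul, ← hQ ζ hζ]
        push_cast
        ring
      · exact ⟨a, b, c, μ, hp, haim, hQ⟩
    obtain ⟨hed, hed0⟩ := h11 r A B z₁ L v φ F h s0 s1 y lam H k _ hf hone hk hlam hQ'
    obtain ⟨Fb, hB⟩ := h12 r A B z₀ z₁ L v φ F h s0 s1 a' b' c' hf hz0 m0 hed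
    obtain ⟨⟨p, hp, hp', hpi⟩, x, hx, c₁, C₁, hc₁, htip⟩ :=
      h13 r z₀ z₁ L φ F h s0 s1 a' b' c' Fb hU hf.pic hB hz0 m0 hc.m1 him hne ha' hed0
    have hcb1 : CB1 v z₀ := hCB.elim id fun h => absurd (h.2 p hp hp') hpi.ne
    by_cases hxz : x ∈ Zer v F s0 s1
    · obtain ⟨C, hC⟩ := (hf.tip x hxz).two_bound
      obtain ⟨c₂, hc₂, hcb⟩ := hcb1
      obtain ⟨z, ⟨η, e1, rfl, -, e2⟩, e3, e4, e5⟩ := ((htip _ hC).and (hcb.and
        ((small z₀ (|C| * |C₁| ^ 3) hc₂).and self_mem_nhdsWithin))).exists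
      have hd : 0 < ‖F η - z₀‖ := norm_pos_iff.2 (sub_ne_zero.2 e5.2)
      have hsq : √‖F η - z₀‖ ^ 2 = ‖F η - z₀‖ := Real.sq_sqrt (norm_nonneg _)
      set s := √‖F η - z₀‖ with hs
      have hs0 : 0 ≤ s := Real.sqrt_nonneg _
      have a1 : ‖η - x‖ ≤ |C₁| * s := e2.trans (mul_le_mul_of_nonneg_right (le_abs_self _) hs0)
      have a2 : v (F η) ≤ |C| * (|C₁| * s) ^ 3 := by
        refine (le_abs_self _).trans (le_trans e1 ?_)
        refine (mul_le_mul_of_nonneg_right (le_abs_self _) (by positivity)).trans ?_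
        gcongr
      have a3 := mul_lt_mul_of_pos_right e4 hd
      have a4 : |C| * (|C₁| * s) ^ 3 = |C| * |C₁| ^ 3 * s * ‖F η - z₀‖ := by
        rw [← hsq]; ring
      linarith
    · have hord : Ord (fun η : ℂ => v (F η)) x 0 := by
        by_contra hn
        exact hxz ⟨hx, hn⟩
      obtain ⟨c₂, hc₂, hlow⟩ := hord.zero_pos
      have hcb0 : ∀ᶠ z in 𝓝[Cone z₀] z₀, c₂ * c₁ * √‖z - z₀‖ ≤ v z := by
        filter_upwards [htip _ hlow] with z hz
        obtain ⟨η, e1, rfl, e2, -⟩ := hz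
        refine le_trans ?_ e1
        rw [mul_assoc]
        exact mul_le_mul_of_nonneg_left e2 hc₂.le
      rcases h7 r A B z₀ z₁ L _ v (fun _ => 0) hc hK hz0 m0 him hne analyticOnNhd_const with
        ⟨Z, a, c₀, hfl, -⟩ | ⟨a, b, c, μ, -, -, ⟨ζ₀, -, hμ⟩, -⟩
      swap
      · simp at hμ
      have hD := hdip hfl
      obtain ⟨C, hC0, hpos⟩ := h4 r A B z₁ L v _ ω φ F h s0 s1 Z hf hA hD hω
      have hneg := (h6 r A B z₁ L v _ φ F h s0 s1 y Z T hf hA hD hone.1 t1 t2 (hTZ hfl) t4).1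
      obtain ⟨C', hv⟩ := h3 r A B z₀ z₁ L _ v ω H Z a c₀ (fun ε => (C + 1) * ε) hc hA hK hH hω
        hz0 m0 hfl hBd (by
          filter_upwards [hpos, hneg, self_mem_nhdsWithin] with ε e1 e2 e3
          have e3' : 0 < ε := e3
          refine ⟨by positivity, fun q hq => (e1 q hq).mono fun z hz => ?_, fun z hz hm => ?_⟩
          · have := mul_nonneg e3'.le (hω0 z)
            nlinarith
          · obtain ⟨t, ht, rfl⟩ := hKm z hz hm
            have := mul_nonneg hC0 e3'.le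
            have := e2 t ht
            linarith)
      have hN := fld_pos hfl.dir
      set X := z₀ * rho r Z a c₀ z₀ with hX
      have hfr : z₀ ∈ frontier (main r L) := by
        rw [hL.isOpen_main.frontier_eq]
        exact ⟨mem_closure_iff_nhdsWithin_neBot.2 (hnb.mono hcm),
          fun hm => (main_sub r L hm).2 hz0⟩
      have hD1 : ∀ᶠ z in 𝓝[main r L] z₀, -1 < DD H v Z a z :=
        (hD.bd z₀ hfr).eventually (lt_mem_nhds (by norm_num))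
      have haim := h9 z₀ X C' _ hfl.dir (hmem.and (hcb0.and ((hD1.filter_mono hcm).and
        (small z₀ (2 * (1 + |C'| * (1 + (C + 1))) / ‖X‖) (mul_pos hc₂ hc₁)))))
      obtain ⟨ε, ⟨z, e1, e2⟩, e3, e4, e5⟩ :=
        (hv.and (haim.and ((small' 1 one_pos).and self_mem_nhdsWithin))).exists
      obtain ⟨⟨p1, p2, p3, p4⟩, q1, -⟩ := e3 z e1
      have hsq : √‖z - z₀‖ ^ 2 = ‖z - z₀‖ := Real.sq_sqrt (norm_nonneg _)
      exact arith1 (s := √‖z - z₀‖) hN e5 (by linarith) (Real.sqrt_nonneg _) (by linarith)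
        (by rw [hsq]; exact q1) p2 (le_of_lt p3) (e2 p1) p4

end Pool.Agent.P.MP_3bd355_an
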