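import Pool.Agent.P.MP_3bd355_an.E.St
import Pool.Agent.P.MP_3bd355_an.Pk.Tip

/-! Two path connected sets with alternating radial ends meet. -/

open Set Filter Metric Complex InnerProductSpace
open scoped Topology ComplexConjugate Real

namespace Pool.Agent.P.MP_3bd355_an

namespace ECrossP

theorem pth {X : Set ℂ} (hX : IsPathConnected X) {c a b : ℂ} {R₀ : ℝ}
    (h : ∀ z ∈ X, R₀ < ‖z - c‖) (ha : a ∈ X) (hb : b ∈ X) :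
    ∃ (p : ℝ → ℂ) (d : ℝ), R₀ < d ∧ Continuous p ∧ p 0 = a ∧ p 1 = b ∧
      ∀ t ∈ Icc (0 : ℝ) 1, p t ∈ X ∧ d ≤ ‖p t - c‖ := by
  obtain ⟨γ, hγ⟩ := hX.joinedIn a ha b hb
  have hm : ∀ t, γ.extend t ∈ X := fun t => by
    obtain ⟨s, hs⟩ : γ.extend t ∈ range γ := γ.extend_range ▸ mem_range_self t
    exact hs ▸ hγ s
  obtain ⟨t₀, -, ht₀⟩ := isCompact_Icc.exists_isMinOn (s := Icc (0 : ℝ) 1)
    ⟨0, left_mem_Icc.2 zero_le_one⟩ (f := fun t => ‖γ.extend t - c‖)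
    (γ.continuous_extend.sub continuous_const).norm.continuousOn
  exact ⟨γ.extend, ‖γ.extend t₀ - c‖, h _ (hm t₀), γ.continuous_extend, γ.extend_zero,
    γ.extend_one, fun t ht => ⟨hm t, ht₀ ht⟩⟩

theorem nrm (c : ℂ) {s : ℝ} (hs : 0 ≤ s) (y : ℝ) : ‖c + s * exp (I * y) - c‖ = s := by
  rw [add_sub_cancel_left, norm_mul, mul_comm I, Complex.norm_exp_ofReal_mul_I, mul_one,
    Complex.norm_real, Real.norm_eq_abs, abs_of_nonneg hs]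

theorem arc {X : Set ℂ} (hX : IsPathConnected X) {c : ℂ} {R₀ τ a b : ℝ} (h0 : 0 ≤ R₀)
    (hτ : R₀ < τ) (h : ∀ z ∈ X, R₀ < ‖z - c‖)
    (hr : ∀ s ∈ Ioc R₀ τ, c + s * exp (I * a) ∈ X ∧ c + s * exp (I * b) ∈ X) :
    ∃ d, R₀ < d ∧ ∀ R ∈ Ioo R₀ d, ∃ γ : ℝ → ℂ, Continuous γ ∧ γ 0 = c + R * exp (I * a) ∧
      γ 1 = c + R * exp (I * b) ∧ (∀ t ∈ Ioo (0 : ℝ) 1, R < ‖γ t - c‖) ∧
      ∀ t ∈ Icc (0 : ℝ) 1, γ t ∈ X ∧ R ≤ ‖γ t - c‖ := by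
  obtain ⟨p, d, hd, hp, hp0, hp1, hpm⟩ := pth hX h (hr τ ⟨hτ, le_rfl⟩).1 (hr τ ⟨hτ, le_rfl⟩).2
  have hne : ∀ y : ℝ, ‖exp (I * y)‖ = 1 := fun y => by
    rw [mul_comm, Complex.norm_exp_ofReal_mul_I]
  refine ⟨min τ d, lt_min hτ hd, fun R hR => ?_⟩
  have R0 : 0 < R := h0.trans_lt hR.1
  have rad : ∀ y : ℝ, (∀ s ∈ Ioc R₀ τ, c + s * exp (I * y) ∈ X) → ∀ s ∈ Ioc (0 : ℝ) τ,
      c + s * exp (I * y) ∈ X ∪ {z | ‖z - c‖ ≤ R₀} := fun y hy s hs => by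
    rcases le_or_gt s R₀ with e | e
    · exact Or.inr ((nrm c hs.1.le y).le.trans e)
    · exact Or.inl (hy s ⟨e, hs.2⟩)
  obtain ⟨γ, hγ, g0, g1, go, gm⟩ := TipP.join (P := X ∪ {z | ‖z - c‖ ≤ R₀}) (hne a) (hne b) R0
    (hR.2.trans_le (min_le_left _ _)) hp hp0 hp1
    (fun t ht => ⟨Or.inl (hpm t ht).1, (hR.2.trans_le (min_le_right _ _)).trans_le (hpm t ht).2⟩)
    (rad a fun s hs => (hr s hs).1) (rad b fun s hs => (hr s hs).2)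
  have hle : ∀ t ∈ Icc (0 : ℝ) 1, R ≤ ‖γ t - c‖ := fun t ht => by
    rcases ht.1.eq_or_lt with e | e
    · rw [← e, g0, nrm c R0.le]
    rcases ht.2.eq_or_lt with e' | e'
    · rw [e', g1, nrm c R0.le]
    exact (go t ⟨e, e'⟩).le
  exact ⟨γ, hγ, g0, g1, go, fun t ht =>
    ⟨(gm t ht).resolve_right fun e => absurd (hR.1.trans_le (hle t ht)) (not_lt.2 e), hle t ht⟩⟩

end ECrossP

open ECrossP in
theorem e_cross : E_CROSS := by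
  intro c R₀ ε θ₁ θ₂ θ₃ θ₄ X Y h0 hε h12 h23 h34 h41 hX hY hXo hYo hr hd
  have hτ : R₀ < R₀ + ε / 2 := by linarith
  have sub : ∀ s ∈ Ioc R₀ (R₀ + ε / 2), s ∈ Ioo R₀ (R₀ + ε) := fun s hs =>
    ⟨hs.1, by linarith [hs.2]⟩
  obtain ⟨d, d0, hγ⟩ := arc hX (a := θ₁) (b := θ₃) h0 hτ hXo fun s hs =>
    ⟨(hr s (sub s hs)).1, (hr s (sub s hs)).2.2.1⟩
  obtain ⟨d', d0', hκ⟩ := arc hY (a := θ₂) (b := θ₄) h0 hτ hYo fun s hs =>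
    ⟨(hr s (sub s hs)).2.1, (hr s (sub s hs)).2.2.2⟩
  obtain ⟨R, R1, R2⟩ := exists_between (lt_min d0 d0')
  obtain ⟨γ, g, g0, g1, go, gm⟩ := hγ R ⟨R1, R2.trans_le (min_le_left _ _)⟩
  obtain ⟨κ, k, k0, k1, -, km⟩ := hκ R ⟨R1, R2.trans_le (min_le_right _ _)⟩
  obtain ⟨t, ht, s, hs, e⟩ := cross (h0.trans_lt R1) h12 h23 h34 h41 g.continuousOn g0 g1 go
    (K := κ '' Icc 0 1) (isPreconnected_Icc.image _ k.continuousOn)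
    (by
      rintro _ ⟨s, hs, rfl⟩
      exact (km s hs).2)
    ⟨0, left_mem_Icc.2 zero_le_one, k0⟩ ⟨1, right_mem_Icc.2 zero_le_one, k1⟩
  exact disjoint_left.1 hd (gm t ht).1 (e ▸ (km s hs).1)

end Pool.Agent.P.MP_3bd355_an
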