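import Pool.Agent.P.MP_3bd355_an.E.St

/-! Either linear growth in the cone or symmetry. -/

open Set Filter Metric Complex InnerProductSpace
open scoped Topology ComplexConjugate Real

namespace Pool.Agent.P.MP_3bd355_an

namespace EDichP

theorem cone_im {z₀ z : ℂ} (h : z₀.im = 0) (hz : z ∈ Cone z₀) : 3 / 4 * ‖z - z₀‖ ≤ z.im := by
  have h1 := hz.1
  have h2 := Complex.norm_le_abs_re_add_abs_im (z - z₀)
  have h3 : 0 ≤ (z - z₀).im := le_trans (by positivity) h1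
  rw [abs_of_nonneg h3] at h2
  rw [sub_im, h, sub_zero] at h1 h2
  linarith

end EDichP

open EDichP

theorem e_dich (hF : S_FR) (h1 : E_BQ) (h2 : E_NS) : E_DICH := by
  intro r A B z₀ z₁ L v hC hA hL m0 hi
  by_cases hs : ∀ z ∈ ann r, v (conj z) = v z
  · exact Or.inr hs
  left
  push Not at hs
  obtain ⟨c, hc, he⟩ := h2 r A B z₀ z₁ L v hC m0 hi hs
  obtain ⟨φ, F, h, s0, s1, hFr⟩ := hF r A B z₁ L v hC
  obtain ⟨C, hq⟩ := h1 r A B z₁ L v φ F h s0 s1 z₀ hFr hA hL m0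
  have hz : conj z₀ = z₀ := Complex.conj_eq_iff_im.2 hi
  have ht : Tendsto (fun z : ℂ => conj z) (𝓝 z₀) (𝓝 z₀) := by
    have := (Complex.continuous_conj.tendsto z₀)
    rwa [hz] at this
  have hsm : ∀ᶠ z in 𝓝 z₀, C * √‖z - z₀‖ < c / 4 := by
    have hc' : ContinuousAt (fun z : ℂ => C * √‖z - z₀‖) z₀ := by fun_prop
    refine hc'.eventually (Iio_mem_nhds ?_)
    simp only [sub_self, norm_zero, Real.sqrt_zero, mul_zero]
    positivity
  refine ⟨c / 2, by positivity, ?_⟩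
  filter_upwards [self_mem_nhdsWithin, nhdsWithin_mono _ (Cone_upH hi) he,
    nhdsWithin_le_nhds (ht.eventually hq), nhdsWithin_le_nhds hsm] with z a1 a2 a3 a4
  have e : ‖conj z - z₀‖ = ‖z - z₀‖ := by
    rw [← hz, ← map_sub, Complex.norm_conj, hz]
  rw [e] at a3
  have b1 := cone_im hi a1
  have b2 : C * (‖z - z₀‖ * √‖z - z₀‖) ≤ c / 4 * ‖z - z₀‖ := by
    have := mul_le_mul_of_nonneg_right a4.le (norm_nonneg (z - z₀))
    linarith
  have b3 := mul_le_mul_of_nonneg_left b1 hc.le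
  linarith

end Pool.Agent.P.MP_3bd355_an
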