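import Pool.Agent.P.MP_3bd355_an.E.St
import Pool.Agent.P.MP_3bd355_an.Pk.Edat

/-! Package `Edat` of the exceptional position. -/

open Set Filter Metric Complex InnerProductSpace
open scoped Topology ComplexConjugate Real

namespace Pool.Agent.P.MP_3bd355_an

open EdatP in
theorem e_edat : E_EDAT := by
  classical
  intro r A B z₁ L v φ F h s0 s1 y lam H k Q hF hO hM hlam hid
  have hU := hF.unif
  set G : ℂ → ℝ := fun z => lam * k z with hGdef
  set m : ℝ → ℝ := fun x => lam * (if ∃ n : ℤ, x = y + 2 * π * n then 1 else 0) with hm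
  have hPP : ∀ x, PP (fun η => G (F η)) x (m x) := fun x => (mart_PP hU hM x).mul lam
  have hm0 : ∀ x, 0 ≤ m x := fun x => mul_nonneg hlam.le (by split_ifs <;> norm_num)
  have hmZ : ∀ x, m x ≠ 0 → x ∈ Zer v F s0 s1 := fun x hx => by
    by_cases hc : ∃ n : ℤ, x = y + 2 * π * n
    · obtain ⟨n, rfl⟩ := hc
      exact Zer_shift hU hO.1 n
    · exact absurd (by simp only [hm, if_neg hc, mul_zero]) hx
  have hZm : ∀ x, x ∈ Zer v F s0 s1 → m x ≠ 0 := fun x hx => by
    simp only [hm, if_pos (hO.2 x hx), mul_one]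
    exact hlam.ne'
  have hGh : ∀ z ∈ main r L, HarmonicAt G z := fun z hz => harm_const_mul (hM.harm z hz) lam
  have hGp : ∀ z ∈ main r L, 0 < G z := fun z hz => mul_pos hlam (hM.pos z hz)
  have hGF : ∀ x : ℝ, ∀ᶠ η : ℂ in 𝓝[upH] (x : ℂ), HarmonicAt (fun η => G (F η)) η := fun x =>
    (hU.ev_main x).mono fun _ hη => hU.harm hη.1 (hGh _ hη.2)
  have hvF : ∀ x : ℝ, ∀ᶠ η : ℂ in 𝓝[upH] (x : ℂ), HarmonicAt (fun η => v (F η)) η := fun x =>
    (hU.ev_main x).mono fun _ hη => hU.harm hη.1 (hF.cfg.sol.harm _ hη.2)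
  have hQ : ∀ x : ℝ, ∀ᶠ η : ℂ in 𝓝[upH] (x : ℂ), Q (F η) * deriv F η ^ 2 =
      grad (fun η => v (F η)) η * grad (fun η => G (F η)) η := fun x => by
    filter_upwards [hU.ev_main x] with η hη
    have dF := (hU.analytic hη.1).differentiableAt
    rw [grad_comp (harm_diff (hF.cfg.sol.harm _ hη.2)) dF,
      grad_comp (harm_diff (hGh _ hη.2)) dF, ← hid _ hη.2, hGdef, grad_const_mul]
    ring
  have reg : ∀ (x : ℝ) (j : ℕ), m x = 0 → Ord (fun η => v (F η)) x j →
      Ed Q F x j := fun x j hx ho => by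
    obtain ⟨V, c', v1, v2, v3, v4, v5⟩ := ord_grad ho
    obtain ⟨Φ, hΦ⟩ := hPP x
    simp only [hx, zero_mul, sub_zero] at hΦ
    have hp := hΦ.hopf ((hU.ev_main x).mono fun _ hη => hGp _ hη.2)
    refine ⟨fun η => -(V η * deriv Φ η), (v1.mul hΦ.1.deriv).neg, ?_, ?_, ?_⟩
    · filter_upwards [v4, hΦ.deriv_im] with t e1 e2
      simp [e1, e2]
    · simp only [v3, neg_re, re_ofReal_mul]
      linarith [mul_pos v2 hp]
    · filter_upwards [hQ x, v5, hΦ.grad] with η e1 e2 e3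
      rw [e1, e2, e3]
      linear_combination ((η - x) ^ j * V η * deriv Φ η) * I_sq
  have pol : ∀ x : ℝ, m x ≠ 0 → Ed Q F x 0 := fun x hx => by
    obtain ⟨V, c', v1, v2, v3, v4, v5⟩ := ord_grad (hF.tip x (hmZ x hx))
    obtain ⟨Φ, hΦ⟩ := hPP x
    have hp : 0 < m x := lt_of_le_of_ne (hm0 x) hx.symm
    refine ⟨fun η => -(V η * ((η - x) ^ 2 * deriv Φ η + (2 * m x : ℝ))),
      (v1.mul ((AnalyticAt.mul (by fun_prop) hΦ.1.deriv).add analyticAt_const)).neg, ?_, ?_, ?_⟩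
    · filter_upwards [v4, hΦ.deriv_im] with t e1 e2
      rw [← ofReal_sub, ← ofReal_pow, neg_im, mul_im, add_im, im_ofReal_mul, e1, e2, ofReal_im]
      ring
    · simp only [v3, neg_re, re_ofReal_mul, sub_self, ne_eq, OfNat.ofNat_ne_zero,
        not_false_eq_true, zero_pow, zero_mul, zero_add, ofReal_re]
      nlinarith [mul_pos v2 hp]
    · filter_upwards [hQ x, v5, PP.grad hΦ (hGF x), self_mem_nhdsWithin] with η e1 e2 e3 e4
      have := ne_of_upH e4 x
      have e5 : (η - x) ^ 2 * (2 / (η - x) ^ 2) = 2 := by field_simp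
      rw [e1, e2, e3]
      push_cast
      linear_combination ((η - x) ^ 2 * V η * (deriv Φ η + m x * (2 / (η - x) ^ 2))) * I_sq -
        (V η * m x) * e5
  have all0 : ∀ x ∈ Zo s0 s1, Ed Q F x 0 := fun x hx => by
    by_cases h1 : m x = 0
    · by_cases h2 : Ord (fun η => v (F η)) x 0
      · exact reg x 0 h1 h2
      · exact absurd h1 (hZm x ⟨hx, h2⟩)
    · exact pol x h1
  refine ⟨⟨fun x hx => Or.inl (all0 x hx), fun hlt s hs => ?_⟩, all0⟩
  · have h1 : m s = 0 := by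
      by_contra h1
      exact not_Zo hlt hs (hmZ s h1).1
    obtain ⟨Φ, hΦ⟩ := hPP s
    simp only [h1, zero_mul, sub_zero] at hΦ
    have h2 : ∃ (Ψ : ℂ → ℂ) (d : ℝ), AnalyticAt ℂ Ψ s ∧ ∀ᶠ η : ℂ in 𝓝[upH] (s : ℂ),
        grad (fun η => v (F η)) η = -I * (deriv Ψ η + d * (1 / (η - s))) := by
      rcases hs with rfl | rfl
      · obtain ⟨Ψ, hΨ⟩ := hF.pv.end0 hlt
        refine ⟨Ψ, B / π, hΨ.1, grad_sing (d := 0) (g := fun η => log (η - s))
          (hΨ.congr (Eventually.of_forall fun η => ?_)) (hvF s) (hasDerivAt_log' s)⟩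
        rw [log_im, sub_zero]
      · obtain ⟨Ψ, hΨ⟩ := hF.pv.end1 hlt
        refine ⟨Ψ, -(B / π), hΨ.1, grad_sing (d := B) (g := fun η => log (η - s))
          (hΨ.congr (Eventually.of_forall fun η => ?_)) (hvF s) (hasDerivAt_log' s)⟩
        rw [log_im]; ring
    obtain ⟨Ψ, d, a1, a2⟩ := h2
    have c1 : ContinuousAt (fun η : ℂ => ‖((η - s) * deriv Ψ η + d) * deriv Φ η‖) s :=
      ((((continuousAt_id.sub continuousAt_const).mul a1.deriv.continuousAt).add
        continuousAt_const).mul hΦ.1.deriv.continuousAt).norm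
    refine ⟨‖((s - s : ℂ) * deriv Ψ s + d) * deriv Φ s‖ + 1, ?_⟩
    · filter_upwards [nhdsWithin_le_nhds (c1.eventually (gt_mem_nhds (lt_add_one _))), hQ s, a2,
        hΦ.grad, self_mem_nhdsWithin] with η e0 e1 e2 e3 e4
      have := ne_of_upH e4 s
      have e5 : (η - s) * (1 / (η - s)) = 1 := by field_simp
      refine le_of_eq_of_le ?_ e0.le
      rw [← norm_mul, ← norm_neg, e1, e2, e3]
      congr 1
      linear_combination (-((η - s) * (deriv Ψ η + d * (1 / (η - s))) * deriv Φ η)) * I_sq +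
        (d * deriv Φ η) * e5

end Pool.Agent.P.MP_3bd355_an
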