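import Pool.Agent.P.MP_3bd355_an.E.St

/-! The height in the strip is at most a multiple of the square root of the distance. -/

open Set Filter Metric Complex InnerProductSpace
open scoped Topology ComplexConjugate Real

namespace Pool.Agent.P.MP_3bd355_an

theorem e_gb (h : E_BEU) : E_GB := by
  intro r L φ F hh p hU hL1 hp hpa
  have hL := hU.cont
  by_cases hc : p ∈ closure (main r L)
  swap
  · rw [mem_closure_iff_nhdsWithin_neBot, not_neBot] at hc
    rw [hc]
    exact ⟨0, eventually_bot⟩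
  have hT : ∀ q ∈ frontier (main r L), q ∈ L →
      Tendsto (fun z => -Real.log ‖φ z‖) (𝓝[main r L] q) (𝓝 0) := fun q hq hqL => by
    have h1 := ((hU.bdY q hq (Or.inl (Or.inl hqL))).log one_ne_zero).neg
    simpa using h1
  have hpf : p ∈ frontier (main r L) :=
    ⟨hc, fun hi => (main_sub r L (interior_subset hi)).2 hp⟩
  have h1 : ∀ᶠ z in 𝓝[main r L] p, -Real.log ‖φ z‖ < 1 :=
    (hT p hpf hp).eventually (gt_mem_nhds one_pos)
  rw [eventually_nhdsWithin_iff] at h1
  obtain ⟨ρ₀, hρ₀, hb⟩ := Metric.mem_nhds_iff.1 (h1.and ((isOpen_ann r).mem_nhds hpa))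
  obtain ⟨q₀, hq₀, hne⟩ := hL.nt.exists_ne p
  have hd : 0 < dist q₀ p := dist_pos.2 hne
  set ρ := min ρ₀ (dist q₀ p) with hρ
  have hρp : 0 < ρ := lt_min hρ₀ hd
  have hsub : ball p ρ ⊆ ball p ρ₀ := ball_subset_ball (min_le_left _ _)
  have hharm : HarmonicOnNhd (fun z => -Real.log ‖φ z‖) (main r L) := fun z hz =>
    (harm_log_norm hL.isOpen_main hU.dφ (hU.ne fun q hq => (hL1 q hq).ne) z hz).neg
  have key := h p ρ L (main r L ∩ ball p ρ) (fun z => -Real.log ‖φ z‖) hρp hL.cpt hL.conn hp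
    (fun hs => absurd (mem_ball.1 (hs hq₀)) (not_lt.2 (min_le_right _ _)))
    (hL.isOpen_main.inter isOpen_ball)
    (disjoint_left.2 fun z hz hw => (main_sub r L hw.1).2 hz)
    (Sub.of_harm (hharm.mono inter_subset_left))
    (fun z hz => ((hb (hsub hz.2)).1 hz.1).le)
    (fun q hq hqb => by
      have h2 : q ∈ frontier (main r L) ∩ ball p ρ := by
        rw [← frontier_inter_open_inter isOpen_ball]
        exact ⟨hq, hqb⟩
      have h3 : q ∈ ann r := (hb (hsub hqb)).2
      have h4 : q ∈ L := by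
        rcases (hL.frontier_sub h2.1).2.2 with h5 | h5 | h5
        · exact h5
        · exact absurd h5.1 h3.1.ne'
        · exact absurd h5 h3.2.ne
      exact (LS.of_tendsto (hT q h2.1 h4) le_rfl).mono inter_subset_left)
  refine ⟨3 / √ρ, ?_⟩
  filter_upwards [self_mem_nhdsWithin, nhdsWithin_le_nhds (ball_mem_nhds p hρp)] with z h2 h3
  have h4 := key z ⟨h2, h3⟩
  rw [Real.sqrt_div (norm_nonneg _)] at h4
  calc -Real.log ‖φ z‖ ≤ 3 * (√‖z - p‖ / √ρ) := h4
    _ = 3 / √ρ * √‖z - p‖ := by ring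

end Pool.Agent.P.MP_3bd355_an
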