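import Pool.Agent.P.MP_3bd355_an.E.St

/-! The dipole term is small compared with `v` and the height (helper31). -/

open Set Filter Metric Complex InnerProductSpace
open scoped Topology ComplexConjugate Real

namespace Pool.Agent.P.MP_3bd355_an

namespace EKeyP

theorem loc_pos {u w : ℂ → ℝ} {x c σ : ℝ} {Φ : ℂ → ℂ} (hc : 0 < c) (hσ : 0 < σ)
    (hu : ∀ᶠ η : ℂ in 𝓝[upH] (x : ℂ), c * η.im ≤ u η) (hw : RefAt w x Φ) :
    ∃ C : ℝ, ∀ᶠ η : ℂ in 𝓝[upH] (x : ℂ), -(C * |u η| + σ * η.im) ≤ w η := by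
  set d := (deriv Φ x).re with hd
  have hM : 0 < |d| + 1 := by positivity
  refine ⟨(|d| + 1) / c, ?_⟩
  filter_upwards [hu, hw.lin one_pos, self_mem_nhdsWithin] with η h1 h2 h3
  have h3' : 0 < η.im := h3
  have h5 : -((|d| + 1) * η.im) ≤ w η := by
    have := (abs_le.1 h2).1
    have h6 : -|d| ≤ d := neg_abs_le d
    nlinarith
  have h6 : c * η.im ≤ |u η| := h1.trans (le_abs_self _)
  have h7 : (|d| + 1) * η.im ≤ (|d| + 1) / c * |u η| := by
    calc (|d| + 1) * η.im = (|d| + 1) / c * (c * η.im) := by field_simp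
      _ ≤ (|d| + 1) / c * |u η| := mul_le_mul_of_nonneg_left h6 (by positivity)
  have h8 : 0 ≤ σ * η.im := by positivity
  linarith

theorem loc_zero {u w : ℂ → ℝ} {x σ : ℝ} {Φ : ℂ → ℂ} (hσ : 0 < σ) (hw : RefAt w x Φ)
    (hd : (deriv Φ x).re = 0) :
    ∃ C : ℝ, ∀ᶠ η : ℂ in 𝓝[upH] (x : ℂ), -(C * |u η| + σ * η.im) ≤ w η := by
  refine ⟨0, ?_⟩
  filter_upwards [hw.lin hσ] with η h2
  rw [hd, mul_zero, sub_zero] at h2
  have := (abs_le.1 h2).1
  linarith

end EKeyP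

open EKeyP

theorem e_key : E_KEY := by
  intro r A B z₁ L v D φ F h s0 s1 Z p σ hF hD hz hp hσ
  have hU := hF.unif
  have hP := hF.pic
  have hR : ∀ x : ℝ, ∃ Φ, RefAt (fun η => D (F η)) x Φ := fun x => by
    refine refAt_of_tendsto ?_ (Eventually.of_forall fun t =>
      hU.tendsto_zero (fun p hp _ => hD.bd p hp) t)
    filter_upwards [hU.ev_main x, hU.ev_ne x (K := (Z : Set ℂ)) Z.finite_toSet.isCompact
      fun ζ hζ => hD.sub ζ hζ] with η ⟨h1, h2⟩ h3
    exact hU.harm h1 (hD.harm _ ⟨h2, h3⟩)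
  obtain ⟨C, hC⟩ := uni_const (a := s0) (b := s1)
    (P := fun C η => -(C * |v (F η)| + σ * η.im) ≤ D (F η))
    (fun C C' η hCC h1 => by
      have := mul_le_mul_of_nonneg_right hCC (abs_nonneg (v (F η)))
      linarith)
    fun x hx => by
      obtain ⟨Φ, hΦ⟩ := hR x
      rcases Icc_cases hP.le hx with hZo | ⟨hlt, rfl | rfl⟩
      · by_cases h0 : Ord (fun η : ℂ => v (F η)) x 0
        · obtain ⟨c, hc, hu⟩ := h0.zero_pos
          exact loc_pos (u := fun η => v (F η)) hc hσ hu hΦ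
        · exact loc_zero (u := fun η => v (F η)) hσ hΦ
            (tendsto_nhds_unique hΦ.tendsto_div (hz x ⟨hZo, h0⟩))
      · obtain ⟨Ψ, hΨ⟩ := hF.pv.end0 hlt
        refine loc_pos (u := fun η => v (F η)) one_pos hσ ?_ hΦ
        simpa only [one_mul] using RefAt.jump_right (u := fun η => v (F η)) hF.cfg.B0 hΨ
      · obtain ⟨Ψ, hΨ⟩ := hF.pv.end1 hlt
        refine loc_pos (u := fun η => v (F η)) one_pos hσ ?_ hΦ
        simpa only [one_mul] using RefAt.jump_left (u := fun η => v (F η)) hF.cfg.B0 hΨ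
  refine ⟨C, Pic.pull hU hP (P := fun z => -(C * |v z| + σ * -Real.log ‖φ z‖) ≤ D z) (Or.inl hp)
    fun x hx => ⟨univ, univ_mem, ?_⟩⟩
  filter_upwards [hC x hx, hU.ev_main x] with η hη h1 _
  rw [hU.norm_comp h1.1, Real.log_exp, neg_neg]
  exact hη

end Pool.Agent.P.MP_3bd355_an
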