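import Pool.Agent.P.MP_3bd355_an.E.St

/-! The perturbed function on the connecting curve (helper67). -/

open Set Filter Metric Complex InnerProductSpace
open scoped Topology ComplexConjugate Real

namespace Pool.Agent.P.MP_3bd355_an

namespace EKnegP

/-- Away from the tip the perturbation is harmless. -/
theorem far {r A B : ℝ} {z₁ : ℂ} {L : Set ℂ} {v D : ℂ → ℝ} {Z : Finset ℂ} {T : ℝ → ℂ}
    (hC : Cfg r A B z₁ L v) (hA : A < 0) (hD : Dip r L Z D) (hT : ContinuousOn T (Ioc 0 1))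
    (h1 : ‖T 1‖ = 1) (hv : ∀ t ∈ Ioo (0 : ℝ) 1, v (T t) < 0 ∧ T t ∉ Z) {u : ℝ} (hu : 0 < u) :
    ∀ᶠ ε : ℝ in 𝓝 0, ∀ t ∈ Icc u 1, t ∈ Ioo (0 : ℝ) 1 → v (T t) + ε * D (T t) ≤ 0 := by
  have hm : ∀ t ∈ Ioo (0 : ℝ) 1, T t ∈ main r L := fun t ht => Sol.mem_main hC.sol (hv t ht).1.ne
  refine isCompact_Icc.eventually_forall_of_forall_eventually
    (P := fun (ε t : ℝ) => t ∈ Ioo (0 : ℝ) 1 → v (T t) + ε * D (T t) ≤ 0) fun t ht => ?_
  have ht0 : 0 < t := hu.trans_le ht.1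
  rcases ht.2.lt_or_eq with hlt | rfl
  · have hmem : t ∈ Ioo (0 : ℝ) 1 := ⟨ht0, hlt⟩
    have cT : ContinuousAt T t := hT.continuousAt (Ioc_mem_nhds ht0 hlt)
    have cv : ContinuousAt v (T t) := (hC.sol.harm _ (hm t hmem)).1.continuousAt
    have cD : ContinuousAt D (T t) :=
      (hD.harm _ ⟨hm t hmem, fun hz => (hv t hmem).2 (Finset.mem_coe.1 hz)⟩).1.continuousAt
    have c1 : Tendsto (fun z : ℝ × ℝ => T z.2) (𝓝 (0, t)) (𝓝 (T t)) :=
      cT.tendsto.comp (continuous_snd.tendsto ((0 : ℝ), t))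
    have c2 : Tendsto (fun z : ℝ × ℝ => v (T z.2) + z.1 * D (T z.2)) (𝓝 (0, t))
        (𝓝 (v (T t) + 0 * D (T t))) :=
      (cv.tendsto.comp c1).add ((continuous_fst.tendsto ((0 : ℝ), t)).mul (cD.tendsto.comp c1))
    rw [zero_mul, add_zero] at c2
    filter_upwards [c2.eventually (gt_mem_nhds (hv t hmem).1)] with z hz _
    exact hz.le
  · have hL1 : ∀ p ∈ L, ‖p‖ < 1 := by
      rcases hC.cases with h | h
      · exact absurd h.1 hA.ne
      · exact h.2.1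
    have hnL : T 1 ∉ L := fun h => (hL1 _ h).ne h1
    have c0 : Tendsto T (𝓝[Ioo 0 1] 1) (𝓝[main r L] (T 1)) := by
      refine tendsto_nhdsWithin_iff.2 ⟨?_, ?_⟩
      · exact ((hT 1 ⟨one_pos, le_rfl⟩).mono Ioo_subset_Ioc_self).tendsto
      · filter_upwards [self_mem_nhdsWithin] with s hs using hm s hs
    have : (𝓝[Ioo (0 : ℝ) 1] (1 : ℝ)).NeBot := right_nhdsWithin_Ioo_neBot one_pos
    have hfr : T 1 ∈ frontier (main r L) := by
      refine ⟨mem_closure_iff_nhdsWithin_neBot.2 (c0.neBot), fun hi => ?_⟩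
      exact (main_sub r L (interior_subset hi)).1.2.ne h1
    have cv := (hC.sol.atA _ h1 hnL).comp c0
    have cD := (hD.bd _ hfr).comp c0
    have c2 : Tendsto (fun z : ℝ × ℝ => v (T z.2) + z.1 * D (T z.2))
        (𝓝 (0 : ℝ) ×ˢ 𝓝[Ioo (0 : ℝ) 1] (1 : ℝ)) (𝓝 (A + 0 * 0)) :=
      (cv.comp tendsto_snd).add (tendsto_fst.mul (cD.comp tendsto_snd))
    rw [zero_mul, add_zero, ← nhdsWithin_univ (0 : ℝ), ← nhdsWithin_prod_eq] at c2
    have c3 := eventually_nhdsWithin_iff.1 (c2.eventually (gt_mem_nhds hA))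
    filter_upwards [c3] with z hz hz2
    exact (hz ⟨mem_univ _, hz2⟩).le

end EKnegP

open EKnegP

theorem e_kneg (h : E_CUB) : E_KNEG := by
  intro r A B z₁ L v D φ F hh s0 s1 y Z T hF hA hD hy hT h1 hv he
  have hU := hF.unif
  obtain ⟨Φ, hΦ⟩ : ∃ Φ, RefAt (fun η => D (F η)) y Φ := by
    refine refAt_of_tendsto ?_ (Eventually.of_forall fun t =>
      hU.tendsto_zero (fun p hp _ => hD.bd p hp) t)
    filter_upwards [hU.ev_main y, hU.ev_ne y (K := (Z : Set ℂ)) Z.finite_toSet.isCompact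
      fun ζ hζ => hD.sub ζ hζ] with η ⟨h1, h2⟩ h3
    exact hU.harm h1 (hD.harm _ ⟨h2, h3⟩)
  constructor
  · have e1 : ∀ᶠ t : ℝ in 𝓝[>] 0, D (T t) ≤ 1 := by
      filter_upwards [he, (hΦ.tendsto.comp (tendsto_vert y)).eventually (gt_mem_nhds one_pos)]
        with t h2 h3
      rw [h2]
      exact le_of_lt h3
    obtain ⟨u, hu, hsub⟩ := mem_nhdsGT_iff_exists_Ioo_subset.1 e1
    filter_upwards [self_mem_nhdsWithin,
      nhdsWithin_le_nhds (far hF.cfg hA hD hT h1 hv (u := u) hu)] with ε hε h2 t ht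
    have hε' : 0 < ε := hε
    rcases lt_or_ge t u with h3 | h3
    · have h4 : D (T t) ≤ 1 := hsub ⟨ht.1, h3⟩
      have h5 := (hv t ht).1
      nlinarith
    · exact (h2 t ⟨h3, ht.2.le⟩ ht).trans hε'.le
  · intro hz
    have hd : (deriv Φ y).re = 0 := tendsto_nhds_unique hΦ.tendsto_div hz
    obtain ⟨C, hC⟩ := h _ y Φ hΦ
    obtain ⟨c, hc, hc2⟩ := (hF.tip y hy).asymp
    have e1 : ∀ᶠ t : ℝ in 𝓝[>] 0, D (T t) ≤ |C| * t ^ 3 ∧ v (T t) ≤ -(c / 2) * t ^ 3 := by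
      filter_upwards [he, (tendsto_vert y).eventually hC,
        (tendsto_vert y).eventually (hc2 (c / 2) (by positivity)), self_mem_nhdsWithin]
        with t h2 h3 h4 h5
      have h5' : 0 < t := h5
      have i1 : ((y : ℂ) + t * I).im = t := by simp
      have i2 : ((y : ℂ) + t * I).re = y := by simp
      have i3 : (y : ℂ) + t * I - y = t * I := by ring
      have i4 : (((t : ℂ) * I) ^ (2 + 1)).im = -t ^ 3 := by
        have : ((t : ℂ) * I) ^ (2 + 1) = ((-t ^ 3 : ℝ) : ℂ) * I := by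
          push_cast
          have : I ^ 3 = -I := by rw [pow_succ, I_sq]; ring
          rw [mul_pow, this]; ring
        rw [this, mul_I_im, ofReal_re]
      have i5 : ‖(t : ℂ) * I‖ = t := by
        rw [norm_mul, norm_I, mul_one, norm_real, Real.norm_of_nonneg h5'.le]
      rw [i1, i2, hd, mul_zero, sub_zero] at h3
      rw [i3, i4, i5] at h4
      rw [h2]
      have h6 := (abs_le.1 h3).2
      have h7 := (abs_le.1 h4).2
      have h8 : C * t ^ 3 ≤ |C| * t ^ 3 :=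
        mul_le_mul_of_nonneg_right (le_abs_self C) (by positivity)
      refine ⟨h6.trans h8, ?_⟩
      norm_num at h7
      linarith
    obtain ⟨u, hu, hsub⟩ := mem_nhdsGT_iff_exists_Ioo_subset.1 e1
    have e2 : ∀ᶠ ε : ℝ in 𝓝 0, ε * |C| < c / 2 := by
      have : Tendsto (fun ε : ℝ => ε * |C|) (𝓝 0) (𝓝 (0 * |C|)) := tendsto_id.mul_const _
      rw [zero_mul] at this
      exact this.eventually (gt_mem_nhds (by positivity))
    filter_upwards [self_mem_nhdsWithin, nhdsWithin_le_nhds e2,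
      nhdsWithin_le_nhds (far hF.cfg hA hD hT h1 hv (u := u) hu)] with ε hε h0 h2 t ht
    have hε' : 0 < ε := hε
    rcases lt_or_ge t u with h3 | h3
    · obtain ⟨h4, h5⟩ := hsub ⟨ht.1, h3⟩
      have h6 : 0 < t ^ 3 := pow_pos ht.1 3
      have h7 : ε * D (T t) ≤ ε * (|C| * t ^ 3) := mul_le_mul_of_nonneg_left h4 hε'.le
      nlinarith
    · exact h2 t ⟨h3, ht.2.le⟩ ht

end Pool.Agent.P.MP_3bd355_an
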