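import Pool.Agent.P.MP_3bd355_an.E.St
import Pool.Agent.P.MP_3bd355_an.Bh.Main

/-! If the extremal value is zero, then no configuration contains the evaluation point. -/

open Set Filter Metric Complex InnerProductSpace
open scoped Topology ComplexConjugate Real

namespace Pool.Agent.P.MP_3bd355_an

theorem e_mem (hS : S_SC) (h1 : E_RADC) (h2 : E_DICH) (h3 : E_SYM) (h4 : E_SYMR) (h5 : E_CONEa)
    (h6 : E_CONEb) (h7 : E_CORE) : E_MEM := by
  intro r A B x s L v h0 hx hx1 hs hs1 hsx hA hh hb cfg hsL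
  obtain ⟨y, R, L0, v0, a, b, c, κ, g, hy0, hy1, cfg0, rs, crit, himg, hκ1, hseg⟩ :=
    h1 r A B x h0 hx hx1 hA hh
  have m0 : (s : ℂ) ∈ ann r := BhP.real_mem h0 hs hs1
  have hne : (s : ℂ) ≠ (x : ℂ) := fun e => hsx (ofReal_injective e)
  rcases lt_or_gt_of_ne hsx with hlt | hxs
  · obtain ⟨K, hK⟩ := hS r A B x L0 v0 cfg0
    exact (hb K v0 (SC.gc cfg0 hK)).not_gt ((BhP.values rs).1 s hs hlt).1
  · rcases h2 r A B s x L v cfg hA hsL m0 (ofReal_im s) with hc | hsym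
    · exact h7 r A B s x L v cfg hA hsL m0 (ofReal_im s) hne (Or.inl hc) hb
    · have hsR : s ≤ R :=
        h4 r A B x R s L v v0 rs hA cfg (h3 r A B x L v cfg hA hsym) hxs hsL
      have hs0 : (s : ℂ) ∈ L0 := hseg ⟨ofReal_im s, by simpa using hxs.le, by simpa using hsR⟩
      have hreal := h3 r A B x L0 v0 cfg0 hA rs.symm
      have ch : CH r A B (-(y : ℂ)) x :=
        ⟨h0, hx.trans hx1, BhP.neg_mem h0 hy0 hy1, BhP.real_mem h0 hx hx1, hA.le, rs.B0⟩
      have hcb : CB2 v0 s := by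
        rcases hsR.lt_or_eq with hlt | he
        · exact h5 r A B x R s (-(y : ℂ)) a b c κ v0 g ch hx crit himg hκ1 hxs hlt
        · rw [he]
          exact h6 r A B x R (-(y : ℂ)) a b c κ v0 g ch hx crit himg hκ1 rs.xR hA
      exact h7 r A B s x L0 v0 cfg0 hA hs0 m0 (ofReal_im s) hne (Or.inr ⟨hcb, hreal⟩) hb

end Pool.Agent.P.MP_3bd355_an
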