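import Pool.Agent.P.MP_3bd355_an.E.St

/-! Non-symmetric configurations: a Hopf type lower bound for `v z - v (conj z)`. -/

open Set Filter Metric Complex InnerProductSpace
open scoped Topology ComplexConjugate Real

namespace Pool.Agent.P.MP_3bd355_an

namespace ENsP

/-- The barrier. -/
noncomputable def bar (z₀ : ℂ) (ρ : ℝ) (z : ℂ) : ℝ := ((ρ : ℂ) ^ 2 * (z - z₀) - (z - z₀) ^ 3).im

theorem bar_eq {z₀ : ℂ} (h : z₀.im = 0) (ρ : ℝ) (z : ℂ) :
    bar z₀ ρ z = z.im * (ρ ^ 2 - 3 * (z - z₀).re ^ 2 + z.im ^ 2) := by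
  have h1 : (z - z₀).im = z.im := by rw [sub_im, h, sub_zero]
  unfold bar
  generalize z - z₀ = w at h1
  rw [← h1]
  simp only [pow_succ, pow_zero, one_mul, sub_im, mul_im, mul_re, ofReal_re, ofReal_im]
  ring

theorem bar_harm (z₀ : ℂ) (ρ k : ℝ) (U : Set ℂ) :
    HarmonicOnNhd (fun z => k * bar z₀ ρ z) U := by
  intro z _
  have h : AnalyticAt ℂ (fun z : ℂ => (k : ℂ) * ((ρ : ℂ) ^ 2 * (z - z₀) - (z - z₀) ^ 3)) z := by
    fun_prop
  have h2 := h.harmonicAt_im
  refine (harmonicAt_congr_nhds (Eventually.of_forall fun y => ?_)).1 h2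
  simp only [bar, im_ofReal_mul]

theorem bar_cont (z₀ : ℂ) (ρ : ℝ) : Continuous (bar z₀ ρ) := by
  unfold bar
  fun_prop

theorem sq_norm {z₀ : ℂ} (h : z₀.im = 0) (z : ℂ) :
    ‖z - z₀‖ ^ 2 = (z - z₀).re ^ 2 + z.im ^ 2 := by
  rw [Complex.sq_norm, Complex.normSq_apply, sub_im, h, sub_zero]
  ring

/-- The Hopf bound for a negative subharmonic function on a half disc. -/
theorem hopf {u : ℂ → ℝ} {z₀ : ℂ} {ρ : ℝ} (h0 : z₀.im = 0) (hρ : 0 < ρ)
    (hs : Sub u (ball z₀ ρ ∩ upH)) (hc : ∀ p ∈ closedBall z₀ ρ, ContinuousAt u p)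
    (hr : ∀ p ∈ closedBall z₀ ρ, p.im = 0 → u p = 0)
    (hn : ∀ p ∈ closedBall z₀ ρ, 0 < p.im → u p < 0) :
    ∃ c > 0, ∀ᶠ z in 𝓝[upH] z₀, c * z.im ≤ -u z := by
  have hC : IsCompact (closedBall z₀ ρ ∩ {p : ℂ | ρ / 2 ≤ p.im}) :=
    (isCompact_closedBall z₀ ρ).inter_right (isClosed_le continuous_const continuous_im)
  obtain ⟨m, hm, hmu⟩ := hC.exists_forall_le' (f := fun p => -u p) (a := 0)
    (fun p hp => (hc p hp.1).neg.continuousWithinAt)
    (fun p hp => neg_pos.2 (hn p hp.1 (lt_of_lt_of_le (by positivity) hp.2)))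
  set k : ℝ := m / (2 * ρ ^ 3) with hk
  have hk0 : 0 < k := by positivity
  have hkm : k * (2 * ρ ^ 3) = m := by rw [hk]; field_simp
  have hW : IsOpen (ball z₀ ρ ∩ upH) := isOpen_ball.inter isOpen_upH
  have key := Sub.mp0 (hs.add_harm (bar_harm z₀ ρ k _)) hW
    (isBounded_ball.subset inter_subset_left) (c := 0) (fun p hp => by
      have hcl : p ∈ closure (ball z₀ ρ ∩ upH) := frontier_subset_closure hp
      have hnot : p ∉ ball z₀ ρ ∩ upH := fun h => by
        have := hW.inter_frontier_eq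
        exact (this ▸ (⟨h, hp⟩ : p ∈ (ball z₀ ρ ∩ upH) ∩ frontier (ball z₀ ρ ∩ upH)) : p ∈ (∅ : Set ℂ))
      have hb : p ∈ closedBall z₀ ρ :=
        closure_minimal (inter_subset_left.trans ball_subset_closedBall) isClosed_closedBall hcl
      have hi : 0 ≤ p.im :=
        closure_minimal (t := {p : ℂ | 0 ≤ p.im}) (fun z hz => le_of_lt (show 0 < z.im from hz.2))
          (isClosed_le continuous_const continuous_im) hcl
      have hT : Tendsto (fun z => u z + k * bar z₀ ρ z) (𝓝[ball z₀ ρ ∩ upH] p)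
          (𝓝 (u p + k * bar z₀ ρ p)) :=
        ((hc p hb).add ((continuous_const.mul (bar_cont z₀ ρ)).continuousAt)).tendsto.mono_left
          nhdsWithin_le_nhds
      refine LS.of_tendsto hT ?_
      rw [bar_eq h0]
      rcases hi.eq_or_lt with e | hpos
      · rw [hr p hb e.symm, ← e]; simp
      · have hle : ‖p - z₀‖ ≤ ρ := by rwa [mem_closedBall, dist_eq_norm] at hb
        have hge : ρ ≤ ‖p - z₀‖ := by
          by_contra hlt
          exact hnot ⟨by rw [mem_ball, dist_eq_norm]; exact not_le.1 hlt, hpos⟩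
        have he : ρ ^ 2 = (p - z₀).re ^ 2 + p.im ^ 2 := by
          rw [← sq_norm h0, le_antisymm hle hge]
        have e3 : ρ ^ 2 - 3 * (p - z₀).re ^ 2 + p.im ^ 2 = 4 * p.im ^ 2 - 2 * ρ ^ 2 := by
          linarith
        rw [e3]
        have hy : p.im ≤ ρ := by
          refine (abs_le_of_sq_le_sq' ?_ hρ.le).2
          nlinarith [sq_nonneg (p - z₀).re]
        rcases le_total (ρ / 2) p.im with h1 | h1
        · have h2 : m ≤ -u p := hmu p ⟨hb, h1⟩
          have h3 : p.im * (4 * p.im ^ 2 - 2 * ρ ^ 2) ≤ 2 * ρ ^ 3 := by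
            have h4 : 4 * p.im ^ 2 - 2 * ρ ^ 2 ≤ 2 * ρ ^ 2 := by nlinarith
            calc _ ≤ p.im * (2 * ρ ^ 2) := mul_le_mul_of_nonneg_left h4 hi
              _ ≤ ρ * (2 * ρ ^ 2) := mul_le_mul_of_nonneg_right hy (by positivity)
              _ = _ := by ring
          have h5 := mul_le_mul_of_nonneg_left h3 hk0.le
          linarith
        · have h2 := hn p hb hpos
          have h3 : 4 * p.im ^ 2 - 2 * ρ ^ 2 ≤ 0 := by nlinarith
          have h4 : k * (p.im * (4 * p.im ^ 2 - 2 * ρ ^ 2)) ≤ 0 :=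
            mul_nonpos_of_nonneg_of_nonpos hk0.le (mul_nonpos_of_nonneg_of_nonpos hi h3)
          linarith)
  refine ⟨k * (ρ ^ 2 / 2), by positivity, ?_⟩
  filter_upwards [self_mem_nhdsWithin,
    nhdsWithin_le_nhds (ball_mem_nhds z₀ (by positivity : 0 < ρ / 3))] with z h1 h2
  have h3 := key z ⟨ball_subset_ball (by linarith) h2, h1⟩
  have hi : 0 < z.im := h1
  rw [mem_ball, dist_eq_norm] at h2
  have h4 : (z - z₀).re ^ 2 ≤ (ρ / 3) ^ 2 := by
    have h5 := sq_norm h0 z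
    have h6 : ‖z - z₀‖ ^ 2 ≤ (ρ / 3) ^ 2 := pow_le_pow_left₀ (norm_nonneg _) h2.le 2
    nlinarith [sq_nonneg z.im]
  simp only [bar_eq h0] at h3
  have h7 : ρ ^ 2 / 2 ≤ ρ ^ 2 - 3 * (z - z₀).re ^ 2 + z.im ^ 2 := by
    nlinarith [sq_nonneg z.im, sq_nonneg ρ]
  have h8 := mul_le_mul_of_nonneg_left (mul_le_mul_of_nonneg_left h7 hi.le) hk0.le
  nlinarith

end ENsP

theorem e_ns (h : S_REFL) : E_NS := by
  intro r A B z₀ z₁ L v hC m0 h0 hne
  have hL := hC.cont
  have hU : IsOpen (ann r ∩ upH) := (isOpen_ann r).inter isOpen_upH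
  have hs : Sub (fun z => v (conj z) - v z) (ann r ∩ upH) :=
    (hC.sub.comp_conj fun z hz => conj_mem_ann.2 hz.1).sub_harm
      (fun z hz => hC.sol.harm z (hL.upper_sub hz))
  have hle : ∀ z ∈ ann r ∩ upH, v (conj z) - v z ≤ 0 := by
    intro z hz
    have h1 := h r A B L v hL hC.ok hC.A0 hC.B0.le hC.sol hC.sub z hz.1
    rw [fold_of_nonneg (le_of_lt hz.2)] at h1
    linarith
  have hlt : ∀ z ∈ ann r ∩ upH, v (conj z) - v z < 0 := by
    intro z hz
    refine lt_of_le_of_ne (hle z hz) fun e => ?_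
    have h1 := hs.strong hU (preconn_upper hL.r0) hz (fun y hy => by rw [e]; exact hle y hy)
    obtain ⟨y, hy, hy'⟩ := hne
    apply hy'
    rcases lt_trichotomy 0 y.im with h2 | h2 | h2
    · have h3 := h1 y ⟨hy, h2⟩
      simp only [e] at h3
      linarith
    · rw [conj_eq_iff_im.2 h2.symm]
    · have h3 := h1 (conj y) ⟨conj_mem_ann.2 hy, by
        show 0 < (conj y).im
        rw [conj_im]; linarith⟩
      simp only [e, conj_conj] at h3
      linarith
  obtain ⟨ρ, hρ, hb⟩ := nhds_basis_closedBall.mem_iff.1 ((isOpen_ann r).mem_nhds m0)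
  have hv : ∀ p ∈ ann r, ContinuousAt v p := fun p hp =>
    (Sol.contOn hL hC.sol).continuousAt ((isOpen_ann r).mem_nhds hp)
  obtain ⟨c, hc, hev⟩ := ENsP.hopf (u := fun z => v (conj z) - v z) h0 hρ
    (hs.mono (inter_subset_inter_left _ (ball_subset_closedBall.trans hb)))
    (fun p hp => ((hv _ (conj_mem_ann.2 (hb hp))).comp continuous_conj.continuousAt).sub
      (hv p (hb hp)))
    (fun p _ hp => by simp only [conj_eq_iff_im.2 hp, sub_self])
    (fun p hp hi => hlt p ⟨hb hp, hi⟩)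
  exact ⟨c, hc, hev.mono fun z hz => by simpa using hz⟩

end Pool.Agent.P.MP_3bd355_an
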