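import Pool.Agent.P.MP_3bd355_an.E.St

/-! Positivity near `L` at first order. -/

open Set Filter Metric Complex InnerProductSpace
open scoped Topology ComplexConjugate Real

namespace Pool.Agent.P.MP_3bd355_an

namespace EPosaP

/-- The harmonic measure of the outer circle reflects with a positive normal derivative. -/
theorem om_ref {r : ℝ} {L : Set ℂ} {ω : ℂ → ℝ} {φ F : ℂ → ℂ} {h : ℝ} (hU : Unif r L φ F h)
    (hL1 : ∀ p ∈ L, ‖p‖ < 1) (hω : Sol r 1 0 L ω) (x : ℝ) :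
    ∃ Φ, RefAt (fun η => ω (F η)) x Φ ∧ 0 < (deriv Φ x).re := by
  have hL := hU.cont
  have h0 : ∀ z, 0 ≤ ω z := fun z =>
    (Sol.bounds hL hω le_rfl zero_le_one le_rfl zero_le_one le_rfl zero_le_one z).1
  have hpos : ∀ z ∈ main r L, 0 < ω z := fun z hz => (h0 z).lt_of_ne' fun e => by
    have hz0 := harm_zero_of_min hL.isOpen_main (preconn_main r L) hω.harm (fun y _ => h0 y) hz e
    have h1 : ‖(1 : ℂ)‖ = 1 := norm_one
    have := mem_closure_iff_nhdsWithin_neBot.1 (hL.outer_closure hL1 h1)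
    have h2 := hω.atA 1 h1 fun hm => (hL1 1 hm).ne h1
    have h3 : Tendsto ω (𝓝[main r L] 1) (𝓝 0) :=
      tendsto_const_nhds.congr' (eventually_nhdsWithin_of_forall fun y hy => (hz0 y hy).symm)
    exact one_ne_zero (tendsto_nhds_unique h2 h3)
  obtain ⟨Φ, hΦ⟩ : ∃ Φ, RefAt (fun η => ω (F η)) x Φ := by
    refine refAt_of_tendsto ?_ (Eventually.of_forall fun t =>
      hU.tendsto_zero (fun p hp hY => ?_) t)
    · filter_upwards [hU.ev_main x] with η ⟨h1, h2⟩
      exact hU.harm h1 (hω.harm _ h2)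
    · rcases (hL.frontier_sub hp).2.2 with h1 | h1 | h1
      · exact Sol.zeroB hL hL1 hω h1
      · exact hω.atB p h1
      · rcases hY with (h2 | h2) | ⟨-, q, hq, h2⟩
        · exact absurd h1 (hL1 p h2).ne
        · exact absurd h1 (h2.1.trans_lt hL.r1).ne
        · exact absurd h2 (hL1 q hq).ne
  refine ⟨Φ, hΦ, hΦ.hopf ?_⟩
  filter_upwards [hU.ev_main x] with η hη using hpos _ hη.2

end EPosaP

open EPosaP

theorem e_posa : E_POSa := by
  intro r A B z₁ L v D ω φ F h s0 s1 Z hF hA hD hω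
  have hU := hF.unif
  have hP := hF.pic
  have hL1 : ∀ p ∈ L, ‖p‖ < 1 := by
    rcases hF.cfg.cases with h1 | h1
    · exact absurd h1.1 hA.ne
    · exact h1.2.1
  have h0 : ∀ z, 0 ≤ ω z := fun z =>
    (Sol.bounds hU.cont hω le_rfl zero_le_one le_rfl zero_le_one le_rfl zero_le_one z).1
  have hR : ∀ x : ℝ, ∃ Φ, RefAt (fun η => D (F η)) x Φ := fun x => by
    refine refAt_of_tendsto ?_ (Eventually.of_forall fun t =>
      hU.tendsto_zero (fun p hp _ => hD.bd p hp) t)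
    filter_upwards [hU.ev_main x, hU.ev_ne x (K := (Z : Set ℂ)) Z.finite_toSet.isCompact
      fun ζ hζ => hD.sub ζ hζ] with η ⟨h1, h2⟩ h3
    exact hU.harm h1 (hD.harm _ ⟨h2, h3⟩)
  obtain ⟨C, hC⟩ := uni_const (P := fun C η => η.im ≤ D (F η) + C * ω (F η)) (a := s0) (b := s1)
    (fun C C' η hle hη => hη.trans (by have := h0 (F η); gcongr)) fun x _ => by
      obtain ⟨Φ, hΦ⟩ := hR x
      obtain ⟨Ψ, hΨ, hm⟩ := om_ref hU hL1 hω x
      set d := (deriv Φ x).re
      set m := (deriv Ψ x).re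
      refine ⟨(|d| + 2) / (m / 2), ?_⟩
      filter_upwards [hΦ.lin one_pos, hΨ.lin (half_pos hm), self_mem_nhdsWithin] with η h1 h2 h3
      have h3' : 0 < η.im := h3
      have h4 : m / 2 * η.im ≤ ω (F η) := by have := (abs_le.1 h2).1; nlinarith
      have h5 : (|d| + 2) / (m / 2) * (m / 2 * η.im) ≤ (|d| + 2) / (m / 2) * ω (F η) :=
        mul_le_mul_of_nonneg_left h4 (by positivity)
      have h6 : (|d| + 2) / (m / 2) * (m / 2 * η.im) = (|d| + 2) * η.im := by field_simp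
      have h7 := (abs_le.1 h1).1
      have h8 : -|d| * η.im ≤ d * η.im := mul_le_mul_of_nonneg_right (neg_abs_le d) h3'.le
      nlinarith
  refine ⟨max C 0, le_max_right _ _, eventually_nhdsWithin_of_forall fun ε hε p hp => ?_⟩
  have hε0 : 0 < ε := hε
  refine Pic.pull hU hP (P := fun z => 0 ≤ v z + ε * D z + max C 0 * ε * ω z) (Or.inl hp)
    fun x hx => ⟨univ, univ_mem, ?_⟩
  obtain ⟨E, hE⟩ : ∃ E : ℝ, ∀ᶠ η : ℂ in 𝓝[upH] (x : ℂ), -E * η.im ^ 2 ≤ v (F η) := by
    rcases Icc_cases hP.le hx with hZo | ⟨hlt, rfl | rfl⟩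
    · obtain ⟨j, hj, ho⟩ := hF.pv.ord x hZo
      exact ho.lower hj
    · obtain ⟨Ψ, hΨ⟩ := hF.pv.end0 hlt
      refine ⟨0, ?_⟩
      filter_upwards [RefAt.jump_right (u := fun η => v (F η)) hF.cfg.B0 hΨ, self_mem_nhdsWithin]
        with η h1 h2
      have h3 : 0 < η.im := h2
      linarith
    · obtain ⟨Ψ, hΨ⟩ := hF.pv.end1 hlt
      refine ⟨0, ?_⟩
      filter_upwards [RefAt.jump_left (u := fun η => v (F η)) hF.cfg.B0 hΨ, self_mem_nhdsWithin]
        with η h1 h2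
      have h3 : 0 < η.im := h2
      linarith
  have hM : 0 < |E| + 1 := by positivity
  filter_upwards [hE, hC x hx, St_mem (h := ε / (|E| + 1)) (by positivity) x]
    with η h1 h2 ⟨h3, h4⟩ _
  have h5 : η.im * (|E| + 1) < ε := (lt_div_iff₀ hM).1 h4
  have h6 : C * ω (F η) ≤ max C 0 * ω (F η) :=
    mul_le_mul_of_nonneg_right (le_max_left _ _) (h0 _)
  have h7 : ε * η.im ≤ ε * (D (F η) + max C 0 * ω (F η)) :=
    mul_le_mul_of_nonneg_left (by linarith) hε0.le
  have h8 : E * η.im ^ 2 ≤ (|E| + 1) * η.im ^ 2 := by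
    have := le_abs_self E
    gcongr; linarith
  have h9 : η.im * (η.im * (|E| + 1)) ≤ η.im * ε := mul_le_mul_of_nonneg_left h5.le h3.le
  nlinarith

end Pool.Agent.P.MP_3bd355_an
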