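import Pool.Agent.P.MP_3bd355_an.E.St
import Pool.Agent.P.MP_3bd355_an.Pk.PosV

/-! Positivity of the perturbed function near the continuum, at second order. -/

open Set Filter Metric Complex InnerProductSpace
open scoped Topology ComplexConjugate Real

namespace Pool.Agent.P.MP_3bd355_an

namespace EPosbP

/-- The local property: for small `ε`, `u + ε w + C ε ^ 2 o ≥ 0` near the real point `t`. -/
def Good (u w o : ℂ → ℝ) (C e : ℝ) (t : ℝ) : Prop :=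
  ∀ ε ∈ Ioo (0 : ℝ) e, ∀ᶠ η : ℂ in 𝓝[upH] (t : ℂ), 0 ≤ u η + ε * w η + C * ε ^ 2 * o η

theorem Good.mono {u w o : ℂ → ℝ} (ho : ∀ η, 0 ≤ o η) {C C' e e' t : ℝ} (h : Good u w o C e t)
    (hC : C ≤ C') (he : e' ≤ e) : Good u w o C' e' t := by
  intro ε hε
  filter_upwards [h ε ⟨hε.1, hε.2.trans_le he⟩] with η hη
  have : C * ε ^ 2 * o η ≤ C' * ε ^ 2 * o η :=
    mul_le_mul_of_nonneg_right (mul_le_mul_of_nonneg_right hC (sq_nonneg ε)) (ho η)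
  linarith

theorem cover {u w o : ℂ → ℝ} (ho : ∀ η, 0 ≤ o η) {a b : ℝ}
    (H : ∀ x ∈ Icc a b, ∃ C, 0 ≤ C ∧ ∃ e > 0, ∀ᶠ t : ℝ in 𝓝 x, Good u w o C e t) :
    ∃ C, 0 ≤ C ∧ ∃ e > 0, ∀ t ∈ Icc a b, Good u w o C e t := by
  refine isCompact_Icc.induction_on
    (p := fun s => ∃ C, 0 ≤ C ∧ ∃ e > 0, ∀ t ∈ s, Good u w o C e t)
    ⟨0, le_rfl, 1, one_pos, by simp⟩ ?_ ?_ ?_
  · rintro s t hst ⟨C, hC, e, he, h⟩
    exact ⟨C, hC, e, he, fun x hx => h x (hst hx)⟩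
  · rintro s t ⟨C, hC, e, he, h⟩ ⟨C', -, e', he', h'⟩
    refine ⟨max C C', le_max_of_le_left hC, min e e', lt_min he he', ?_⟩
    rintro x (hx | hx)
    · exact (h x hx).mono ho (le_max_left _ _) (min_le_left _ _)
    · exact (h' x hx).mono ho (le_max_right _ _) (min_le_right _ _)
  · intro x hx
    obtain ⟨C, hC, e, he, h⟩ := H x hx
    exact ⟨_, nhdsWithin_le_nhds h, C, hC, e, he, fun t ht => ht⟩

theorem loc_pos {u w : ℂ → ℝ} (o : ℂ → ℝ) {x c : ℝ} {Φ : ℂ → ℂ} (hc : 0 < c)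
    (hu : ∀ᶠ η : ℂ in 𝓝[upH] (x : ℂ), c * η.im ≤ u η) (hw : RefAt w x Φ) :
    ∃ C, 0 ≤ C ∧ ∃ e > 0, ∀ᶠ t : ℝ in 𝓝 x, Good u w o C e t := by
  obtain ⟨e, he, h⟩ := PosVP.loc_pos hc hu hw
  refine ⟨0, le_rfl, e, he, h.mono fun t ht ε hε => ?_⟩
  filter_upwards [ht ε hε] with η hη
  simpa using hη

theorem key {κ M a ε : ℝ} (hκ : 0 < κ) :
    0 ≤ κ * a ^ 2 - ε * (M * a) + ε ^ 2 * (M ^ 2 / (4 * κ)) := by
  have : κ * a ^ 2 - ε * (M * a) + ε ^ 2 * (M ^ 2 / (4 * κ)) = (κ * a - ε * M / 2) ^ 2 / κ := by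
    field_simp
    ring
  rw [this]
  positivity

theorem low {a y d C : ℝ} (h : |a - y * d| ≤ C * y ^ 2) : y * d - |C| * y ^ 2 ≤ a := by
  have h1 := (abs_le.1 h).1
  have h2 : C * y ^ 2 ≤ |C| * y ^ 2 := mul_le_mul_of_nonneg_right (le_abs_self C) (sq_nonneg y)
  linarith

theorem loc_zero {u w o : ℂ → ℝ} {x : ℝ} {Φ Ψ : ℂ → ℂ} (hu : Ord u x 2) (hw : RefAt w x Φ)
    (hd : (deriv Φ x).re = 0) (ho : RefAt o x Ψ) (hm : 0 < (deriv Ψ x).re) :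
    ∃ C, 0 ≤ C ∧ ∃ e > 0, ∀ᶠ t : ℝ in 𝓝 x, Good u w o C e t := by
  obtain ⟨Θ, V, c, hΘ, hV, hc, hVx, hΘ'⟩ := hu
  obtain ⟨C₁, h₁⟩ := hΘ.quad
  obtain ⟨C₂, h₂⟩ := hw.quad
  obtain ⟨C₃, h₃⟩ := ho.quad
  obtain ⟨m, hm0, a3⟩ : ∃ m > 0, ∀ᶠ t : ℝ in 𝓝 x, m ≤ (deriv Ψ t).re := by
    refine ⟨(deriv Ψ x).re / 2, half_pos hm, ?_⟩
    have h1 : ∀ᶠ η : ℂ in 𝓝 (x : ℂ), (deriv Ψ x).re / 2 < (deriv Ψ η).re :=
      (continuous_re.continuousAt.comp ho.1.deriv.continuousAt).eventually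
        (lt_mem_nhds (half_lt_self hm))
    filter_upwards [(Har3P.ofReal_tendsto x).eventually h1] with t ht using ht.le
  have a1 : ∀ᶠ t : ℝ in 𝓝 x, c / 2 * |t - x| ^ 2 ≤ (deriv Θ t).re := by
    have h0 : c / 2 < (V x).re := by
      rw [hVx, ofReal_re]
      exact half_lt_self hc
    have h1 : ∀ᶠ η : ℂ in 𝓝 (x : ℂ), c / 2 < (V η).re :=
      (continuous_re.continuousAt.comp hV.continuousAt).eventually (lt_mem_nhds h0)
    filter_upwards [(Har3P.ofReal_tendsto x).eventually (hΘ'.and h1)] with t ⟨h2, h3⟩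
    rw [Har3P.re_formula h2, sq_abs, mul_comm]
    exact mul_le_mul_of_nonneg_left h3.le (sq_nonneg _)
  obtain ⟨M, a2⟩ : ∃ M : ℝ, ∀ᶠ t : ℝ in 𝓝 x, -(M * |t - x|) ≤ (deriv Φ t).re := by
    obtain ⟨M, hM⟩ := hw.1.deriv.differentiableAt.isBigO_sub.bound
    refine ⟨M, ?_⟩
    filter_upwards [(Har3P.ofReal_tendsto x).eventually hM] with t ht
    have h1 := abs_re_le_norm (deriv Φ t - deriv Φ x)
    rw [sub_re, hd, sub_zero] at h1
    rw [← ofReal_sub, norm_real, Real.norm_eq_abs] at ht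
    linarith [neg_abs_le (deriv Φ t).re]
  have hc2 : 0 < c / 2 := half_pos hc
  set N := M ^ 2 / (4 * (c / 2)) with hN
  have hN0 : 0 ≤ N := by positivity
  set C := (N + 1) / m with hC
  have hC0 : 0 ≤ C := by positivity
  have hCm : C * m = N + 1 := div_mul_cancel₀ _ hm0.ne'
  have hre : Tendsto (fun η : ℂ => η.re) (𝓝[upH] (x : ℂ)) (𝓝 x) :=
    (Har3P.re_tendsto x).mono_left nhdsWithin_le_nhds
  refine ⟨C, hC0, 1, one_pos, ?_⟩
  filter_upwards [eventually_upH ((h₁.and (h₂.and h₃)).and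
    (hre.eventually (a1.and (a2.and a3))))] with t ht ε hε
  have hε0 := hε.1
  set K := |C₁| + ε * |C₂| + C * ε ^ 2 * |C₃| + 1 with hK
  have hK0 : 0 < K := by positivity
  filter_upwards [ht, PosVP.im_small t (δ := ε ^ 2 / K) (by positivity)]
    with η ⟨⟨b1, b2, b3⟩, d1, d2, d3⟩ ⟨hy, hy'⟩
  have hy2 : η.im * K ≤ ε ^ 2 := ((lt_div_iff₀ hK0).1 hy').le
  have e1 : η.im * (c / 2 * |η.re - x| ^ 2) - |C₁| * η.im ^ 2 ≤ u η := by
    have := mul_le_mul_of_nonneg_left d1 hy.le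
    linarith [low b1]
  have e2 : η.im * -(M * |η.re - x|) - |C₂| * η.im ^ 2 ≤ w η := by
    have := mul_le_mul_of_nonneg_left d2 hy.le
    linarith [low b2]
  have e3 : η.im * m - |C₃| * η.im ^ 2 ≤ o η := by
    have := mul_le_mul_of_nonneg_left d3 hy.le
    linarith [low b3]
  have f2 := mul_le_mul_of_nonneg_left e2 hε0.le
  have f3 := mul_le_mul_of_nonneg_left e3 (mul_nonneg hC0 (sq_nonneg ε))
  have g1 := mul_nonneg hy.le (key (M := M) (a := |η.re - x|) (ε := ε) hc2)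
  rw [← hN] at g1
  have g2 := mul_le_mul_of_nonneg_left hy2 hy.le
  have g3 : C * ε ^ 2 * (η.im * m - |C₃| * η.im ^ 2) =
      η.im * (ε ^ 2 * (N + 1)) - C * ε ^ 2 * |C₃| * η.im ^ 2 := by
    rw [← hCm]
    ring
  rw [g3] at f3
  rw [hK] at g2
  nlinarith [sq_nonneg η.im]

variable {r : ℝ} {L : Set ℂ} {ω : ℂ → ℝ}

theorem om_pos (hL : Cont r L) (hL1 : ∀ p ∈ L, ‖p‖ < 1) (hω : Sol r 1 0 L ω) {z : ℂ}
    (hz : z ∈ main r L) : 0 < ω z := by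
  have h0 : ∀ y, 0 ≤ ω y := fun y =>
    (Sol.bounds hL hω le_rfl zero_le_one le_rfl zero_le_one le_rfl zero_le_one y).1
  refine (h0 z).lt_of_ne fun e => ?_
  have h1 := harm_zero_of_min hL.isOpen_main (preconn_main r L) hω.harm (fun y _ => h0 y) hz e.symm
  have h2 : (𝓝[main r L] I).NeBot :=
    mem_closure_iff_nhdsWithin_neBot.1 (hL.outer_closure hL1 norm_I)
  have h3 := hω.atA I norm_I fun h => (hL1 I h).ne norm_I
  have h4 : Tendsto ω (𝓝[main r L] I) (𝓝 0) :=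
    tendsto_const_nhds.congr' (eventually_mem_nhdsWithin.mono fun y hy => (h1 y hy).symm)
  exact one_ne_zero (tendsto_nhds_unique h3 h4)

theorem om_bd (hL : Cont r L) (hL1 : ∀ p ∈ L, ‖p‖ < 1) (hω : Sol r 1 0 L ω) {p : ℂ}
    (hp : p ∈ frontier (main r L)) (hY : p ∈ YS r L) : Tendsto ω (𝓝[main r L] p) (𝓝 0) := by
  rcases (hL.frontier_sub hp).2.2 with h | h | h
  · exact Sol.zeroB hL hL1 hω h
  · exact hω.atB p h
  · rcases hY with (h1 | h1) | h1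
    · exact absurd h (hL1 p h1).ne
    · exact absurd (h ▸ h1.1 : (1 : ℝ) ≤ r) (not_le.2 hL.r1)
    · obtain ⟨q, hq, hq1⟩ := h1.2
      exact absurd hq1 (hL1 q hq).ne

end EPosbP

open EPosbP

theorem e_posb : E_POSb := by
  intro r A B z₁ L v D ω φ F h s0 s1 Z hF hA hD hω hz
  have hU := hF.unif
  have hP := hF.pic
  have hL := hF.cfg.cont
  have hL1 : ∀ p ∈ L, ‖p‖ < 1 := by
    rcases hF.cfg.cases with h1 | h1
    · exact absurd h1.1 hA.ne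
    · exact h1.2.1
  have hR : ∀ x : ℝ, ∃ Φ, RefAt (fun η => D (F η)) x Φ := fun x => by
    refine refAt_of_tendsto ?_ (Eventually.of_forall fun t =>
      hU.tendsto_zero (fun p hp _ => hD.bd p hp) t)
    filter_upwards [hU.ev_main x, hU.ev_ne x (K := (Z : Set ℂ)) Z.finite_toSet.isCompact
      fun ζ hζ => hD.sub ζ hζ] with η ⟨h1, h2⟩ h3
    exact hU.harm h1 (hD.harm _ ⟨h2, h3⟩)
  have hO : ∀ x : ℝ, ∃ Ψ, RefAt (fun η => ω (F η)) x Ψ ∧ 0 < (deriv Ψ x).re := fun x => by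
    obtain ⟨Ψ, hΨ⟩ : ∃ Ψ, RefAt (fun η => ω (F η)) x Ψ := by
      refine refAt_of_tendsto ?_ (Eventually.of_forall fun t =>
        hU.tendsto_zero (fun p hp hY => om_bd hL hL1 hω hp hY) t)
      filter_upwards [hU.ev_main x] with η ⟨h1, h2⟩
      exact hU.harm h1 (hω.harm _ h2)
    refine ⟨Ψ, hΨ, hΨ.hopf ?_⟩
    filter_upwards [hU.ev_main x] with η ⟨_, h2⟩
    exact om_pos hL hL1 hω h2
  obtain ⟨C, hC, e, he, hG⟩ := cover (u := fun η => v (F η)) (w := fun η => D (F η))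
    (o := fun η => ω (F η)) (a := s0) (b := s1)
    (fun η => (Sol.bounds hL hω le_rfl zero_le_one le_rfl zero_le_one le_rfl zero_le_one _).1)
    fun x hx => by
      obtain ⟨Φ, hΦ⟩ := hR x
      rcases Icc_cases hP.le hx with hZo | ⟨hlt, rfl | rfl⟩
      · by_cases h0 : Ord (fun η : ℂ => v (F η)) x 0
        · obtain ⟨c, hc, hu⟩ := h0.zero_pos
          exact loc_pos _ hc hu hΦ
        · obtain ⟨Ψ, hΨ, hm⟩ := hO x
          exact loc_zero (hF.tip x ⟨hZo, h0⟩) hΦ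
            (tendsto_nhds_unique hΦ.tendsto_div (hz x ⟨hZo, h0⟩)) hΨ hm
      · obtain ⟨Ψ, hΨ⟩ := hF.pv.end0 hlt
        refine loc_pos _ one_pos ?_ hΦ
        simpa only [one_mul] using RefAt.jump_right (u := fun η => v (F η)) hF.cfg.B0 hΨ
      · obtain ⟨Ψ, hΨ⟩ := hF.pv.end1 hlt
        refine loc_pos _ one_pos ?_ hΦ
        simpa only [one_mul] using RefAt.jump_left (u := fun η => v (F η)) hF.cfg.B0 hΨ
  refine ⟨C, hC, ?_⟩
  filter_upwards [Ioo_mem_nhdsGT he] with ε hε p hp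
  refine Pic.pull hU hP (P := fun z => 0 ≤ v z + ε * D z + C * ε ^ 2 * ω z) (Or.inl hp)
    fun x hx => ⟨univ, univ_mem, ?_⟩
  filter_upwards [hG x hx ε hε] with η hη _ using hη

end Pool.Agent.P.MP_3bd355_an
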