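import Pool.Agent.P.MP_3bd355_an.E.St

/-! Logarithmic potentials are harmonic off the support. -/

open Set Filter Metric Complex InnerProductSpace
open scoped Topology ComplexConjugate Real

namespace Pool.Agent.P.MP_3bd355_an

namespace EPotP

theorem bdd_int {E : Type} [NormedAddCommGroup E] {f : ℝ → E}
    (hf : MeasureTheory.AEStronglyMeasurable f MeasureTheory.volume) (C : ℝ) (h : ∀ t, ‖f t‖ ≤ C)
    (a b : ℝ) : IntervalIntegrable f MeasureTheory.volume a b := by
  refine (intervalIntegrable_const (c := C)).mono_fun' hf.restrict ?_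
  exact Eventually.of_forall h

theorem loc (ζ : ℝ → ℂ) (hζ : Measurable ζ) (z₀ : ℂ) (d M : ℝ) (hd : 0 < d)
    (h1 : ∀ t, d ≤ ‖z₀ - ζ t‖) (h2 : ∀ t, ‖z₀ - ζ t‖ ≤ M) :
    HarmonicAt (fun z => ∫ t in (0 : ℝ)..(2 * π), Real.log ‖z - ζ t‖) z₀ := by
  have hne : ∀ t, z₀ - ζ t ≠ 0 := fun t h => by
    have := h1 t
    rw [h, norm_zero] at this
    linarith
  have hq : ∀ z ∈ ball z₀ (d / 2), ∀ t, ‖(z - z₀) / (z₀ - ζ t)‖ ≤ 1 / 2 := by
    intro z hz t
    rw [mem_ball, dist_eq_norm] at hz
    have := h1 t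
    rw [norm_div, div_le_iff₀ (by linarith)]
    linarith
  have hs : ∀ z ∈ ball z₀ (d / 2), ∀ t, 1 + (z - z₀) / (z₀ - ζ t) ∈ slitPlane := by
    intro z hz t
    exact mem_slitPlane_of_norm_lt_one ((hq z hz t).trans_lt (by norm_num))
  have hm : ∀ z, Measurable fun t => Complex.log (1 + (z - z₀) / (z₀ - ζ t)) := by
    intro z
    exact Complex.measurable_log.comp
      (measurable_const.add (measurable_const.div (measurable_const.sub hζ)))
  have hi : ∀ z ∈ ball z₀ (d / 2), IntervalIntegrable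
      (fun t => Complex.log (1 + (z - z₀) / (z₀ - ζ t))) MeasureTheory.volume 0 (2 * π) := by
    intro z hz
    refine bdd_int (hm z).aestronglyMeasurable 1 (fun t => ?_) _ _
    have := Complex.norm_log_one_add_half_le_self (hq z hz t)
    have := hq z hz t
    linarith
  have hfac : ∀ z t, z - ζ t = (z₀ - ζ t) * (1 + (z - z₀) / (z₀ - ζ t)) := by
    intro z t
    have := hne t
    field_simp
    ring
  have hlow : ∀ z ∈ ball z₀ (d / 2), ∀ t, d / 2 ≤ ‖z - ζ t‖ := by
    intro z hz t
    rw [mem_ball, dist_eq_norm] at hz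
    have a1 := h1 t
    have a2 : ‖z₀ - ζ t‖ ≤ ‖z - ζ t‖ + ‖z - z₀‖ := by
      have : z₀ - ζ t = (z - ζ t) - (z - z₀) := by ring
      rw [this]
      exact norm_sub_le _ _
    linarith
  have hD : DifferentiableOn ℂ
      (fun z => ∫ t in (0 : ℝ)..(2 * π), Complex.log (1 + (z - z₀) / (z₀ - ζ t)))
      (ball z₀ (d / 2)) := by
    intro z hz
    have := intervalIntegral.hasDerivAt_integral_of_dominated_loc_of_deriv_le
      (μ := MeasureTheory.volume) (a := 0) (b := 2 * π)
      (F := fun z t => Complex.log (1 + (z - z₀) / (z₀ - ζ t))) (F' := fun z t => (z - ζ t)⁻¹)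
      (x₀ := z) (s := ball z₀ (d / 2)) (bound := fun _ => (d / 2)⁻¹) (isOpen_ball.mem_nhds hz)
      (Eventually.of_forall fun x => (hm x).aestronglyMeasurable) (hi z hz)
      ((measurable_const.sub hζ).inv.aestronglyMeasurable)
      (Eventually.of_forall fun t _ x hx => by
        rw [norm_inv]
        exact inv_anti₀ (by linarith) (hlow x hx t))
      intervalIntegrable_const
      (Eventually.of_forall fun t _ x hx => by
        have a1 : HasDerivAt (fun x : ℂ => 1 + (x - z₀) / (z₀ - ζ t)) (1 / (z₀ - ζ t)) x :=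
          (((hasDerivAt_id x).sub_const z₀).div_const _).const_add 1
        have a2 := a1.clog (hs x hx t)
        have a3 : 1 / (z₀ - ζ t) / (1 + (x - z₀) / (z₀ - ζ t)) = (x - ζ t)⁻¹ := by
          rw [hfac x t, div_div, one_div]
        rw [a3] at a2
        exact a2)
    exact this.2.differentiableAt.differentiableWithinAt
  have hA := (hD.analyticAt (ball_mem_nhds z₀ (by linarith : 0 < d / 2))).harmonicAt_re
  have hc : IntervalIntegrable (fun t => Real.log ‖z₀ - ζ t‖) MeasureTheory.volume 0 (2 * π) := by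
    have hm0 : Measurable fun t => Real.log ‖z₀ - ζ t‖ :=
      Real.measurable_log.comp (measurable_const.sub hζ).norm
    refine bdd_int hm0.aestronglyMeasurable (|Real.log d| + |Real.log M|) (fun t => ?_) _ _
    have a1 : Real.log d ≤ Real.log ‖z₀ - ζ t‖ := Real.log_le_log hd (h1 t)
    have a2 : Real.log ‖z₀ - ζ t‖ ≤ Real.log M := Real.log_le_log (hd.trans_le (h1 t)) (h2 t)
    have a3 := neg_abs_le (Real.log d)
    have a4 := le_abs_self (Real.log M)
    have a5 := abs_nonneg (Real.log d)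
    have a6 := abs_nonneg (Real.log M)
    rw [Real.norm_eq_abs, abs_le]
    constructor <;> linarith
  have hB := (harmonicAt_const (x := z₀)
    (∫ t in (0 : ℝ)..(2 * π), Real.log ‖z₀ - ζ t‖)).add hA
  refine (harmonicAt_congr_nhds ?_).1 hB
  filter_upwards [ball_mem_nhds z₀ (by linarith : 0 < d / 2)] with z hz
  have e1 := (reCLM.intervalIntegral_comp_comm (hi z hz)).symm
  simp only [reCLM_apply] at e1
  have e2 : IntervalIntegrable (fun t => (Complex.log (1 + (z - z₀) / (z₀ - ζ t))).re)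
      MeasureTheory.volume 0 (2 * π) := ⟨(hi z hz).1.re, (hi z hz).2.re⟩
  simp only [Pi.add_apply]
  rw [e1, ← intervalIntegral.integral_add hc e2]
  refine intervalIntegral.integral_congr fun t _ => ?_
  rw [hfac z t, norm_mul, Real.log_mul (norm_ne_zero_iff.mpr (hne t))
    (norm_ne_zero_iff.mpr (slitPlane_ne_zero (hs z hz t))), Complex.log_re]

end EPotP

theorem e_pot : E_POT := by
  intro ζ K W hζ hK hm _ hd z₀ hz₀
  have hne : K.Nonempty := ⟨ζ 0, hm 0⟩
  have hz : z₀ ∉ K := fun h => Set.disjoint_left.mp hd h hz₀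
  have hpos : 0 < infDist z₀ K := (hK.isClosed.notMem_iff_infDist_pos hne).mp hz
  obtain ⟨M, hM⟩ := hK.isBounded.subset_closedBall z₀
  refine EPotP.loc ζ hζ z₀ (infDist z₀ K) M hpos (fun t => ?_) (fun t => ?_)
  · rw [← dist_eq_norm]
    exact infDist_le_dist_of_mem (hm t)
  · rw [← dist_eq_norm, dist_comm]
    exact hM (hm t)

end Pool.Agent.P.MP_3bd355_an
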