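import Pool.Agent.P.MP_3bd355_an.E.St
import Pool.Agent.P.MP_3bd355_an.Pk.Reg

/-! Boundary values of the uniformising map when the pole lies on the continuum. -/

open Set Filter Metric Complex InnerProductSpace
open scoped Topology ComplexConjugate Real

namespace Pool.Agent.P.MP_3bd355_an

open RegP

theorem e_reg (h : S_REG0) : E_REG := by
  intro r A B z₀ z₁ L v φ F hh s0 s1 a b c hF h0 m0 hE
  have hU := hF.unif
  have hP := hF.pic
  have r0 := hU.cont.r0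
  have r1 := hU.cont.r1
  have m1 := hF.cfg.m1
  have hEd : ∀ x ∈ Zo s0 s1, ∃ e, Ed (QD r z₀ z₁ a b c) F x e := fun x hx =>
    (hE.ed x hx).elim (fun h => ⟨0, h⟩) fun h => ⟨2, h.2⟩
  have hNZ : NZ r z₀ z₁ a b c := by
    obtain ⟨x, hx⟩ := nonempty_Ioo.2 hP.lt
    obtain ⟨e, he⟩ := hEd x (Ioo_sub_Zo hx)
    obtain ⟨C, hC⟩ := Ed_ev he
    have := mem_closure_iff_nhdsWithin_neBot.1 (mem_cl x)
    obtain ⟨η, a1, a2⟩ := (hC.and (hU.ev_main x)).exists
    exact ⟨F η, (main_sub r L a2.2).1, fun e => (main_sub r L a2.2).2 (e ▸ h0), fun e => (main_sub r L a2.2).2 (e ▸ hF.cfg.mem), a1.1⟩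
  obtain ⟨O, P, -, o2, o3, o4, o5⟩ := QD_num r0 r1 m0 m1 a b c
  obtain ⟨z, z1, z2, z3, z4⟩ := hNZ
  have hfin : (cann r \ {z | P z ≠ 0}).Finite := by
    rcases o4.eqOn_zero_or_eventually_ne_zero_of_preconnected o2 with e | e
    · have hz := o3 (ann_sub_cann r z1)
      rw [o5 z hz z2 z3, e hz] at z4
      simp at z4
    · exact (isCompact_cann r).finite_sdiff_of_mem_codiscreteWithin (codiscreteWithin_mono o3 e)
  have hS := (hfin.insert z₀).insert z₁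
  have hQ : ∀ p ∈ cann r, p ∉ insert z₁ (insert z₀ (cann r \ {z | P z ≠ 0})) →
      ContinuousAt (QD r z₀ z₁ a b c) p ∧ QD r z₀ z₁ a b c p ≠ 0 := fun p hp hn => by
    have p1 : p ≠ z₁ := fun e => hn (Or.inl e)
    have p0 : p ≠ z₀ := fun e => hn (Or.inr (Or.inl e))
    have p2 : P p ≠ 0 := by_contra fun e => hn (Or.inr (Or.inr ⟨hp, e⟩))
    refine ⟨(QD_analytic r0 r1 m0 m1 a b c hp p0 (Or.inl p1)).continuousAt, ?_⟩
    rw [o5 p (o3 hp) p0 p1]
    exact div_ne_zero p2 (mul_ne_zero (sub_ne_zero.2 p0) (sub_ne_zero.2 p1))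
  have hev : ∀ x : ℝ, ∀ᶠ η in 𝓝[upH] (x : ℂ), DifferentiableAt ℂ F η ∧ F η ∈ cann r := fun x =>
    (hU.ev_main x).mono fun η hη =>
      ⟨(hU.analytic hη.1).differentiableAt, ann_sub_cann r (main_sub r L hη.2).1⟩
  have hI : ∀ x ∈ Icc s0 s1, ∃ p, Tendsto F (𝓝[upH] (x : ℂ)) (𝓝 p) := fun x hx => by
    rcases Icc_cases hP.le hx with e | ⟨e1, e2⟩
    · obtain ⟨e, he⟩ := hEd x e
      obtain ⟨C, hC⟩ := Ed_ev he
      exact lim_half h (isCompact_cann r) hS hQ (C := C)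
        (((hev x).and hC).mono fun η hη => ⟨hη.1.1, hη.1.2, hη.2.2⟩)
    · obtain ⟨C, hC⟩ := hE.ends e1 x e2
      exact lim_end h (isCompact_cann r) hS hQ (C := C)
        (((hev x).and hC).mono fun η hη => ⟨hη.1.1, hη.1.2, hη.2⟩)
  have hall : ∀ x : ℝ, ∃ p, Tendsto F (𝓝[upH] (x : ℂ)) (𝓝 p) := fun x => by
    by_cases hx : x ∈ Eo s0 s1
    · obtain ⟨p, -, hp⟩ := hP.toEx x hx
      exact ⟨p, hp⟩
    · obtain ⟨k, hk⟩ := (not_Eo hP.lt hP.le).1 hx
      obtain ⟨p, hp⟩ := hI _ hk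
      refine ⟨p, fun N hN => ?_⟩
      have := hU.shift_ev (P := fun z => z ∈ N) k (hp hN)
      rwa [sub_add_cancel] at this
  refine ⟨fun x => extendFrom upH F x, ?_, fun x => tendsto_extendFrom (hall x)⟩
  exact (continuousOn_extendFrom (B := range ((↑) : ℝ → ℂ)) (by rintro _ ⟨x, rfl⟩; exact mem_cl x)
    (by rintro _ ⟨x, rfl⟩; exact hall x)).comp_continuous continuous_ofReal mem_range_self

end Pool.Agent.P.MP_3bd355_an
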