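import Pool.Agent.P.MP_3bd355_an.E.St

/-! A measurable selection of points of a continuum on concentric circles (helper47). -/

open Set Filter Metric Complex InnerProductSpace
open scoped Topology ComplexConjugate Real

namespace Pool.Agent.P.MP_3bd355_an

namespace ESelP

/-- The set of radii whose circle meets `K` at an angle in `[0, c]` is closed. -/
theorem closed_rad {K : Set ℂ} (hK : IsClosed K) (p : ℂ) (c : ℝ) :
    IsClosed {s : ℝ | ∃ t ∈ Icc (0 : ℝ) c, p + s * exp (t * I) ∈ K} := by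
  have h1 : IsClosed {q : ℝ × Icc (0 : ℝ) c | p + q.1 * exp ((q.2 : ℝ) * I) ∈ K} :=
    hK.preimage (by fun_prop)
  have h2 := isClosedMap_fst_of_compactSpace _ h1
  convert h2 using 1
  ext s
  constructor
  · rintro ⟨t, ht, h⟩
    exact ⟨(s, ⟨t, ht⟩), h, rfl⟩
  · rintro ⟨⟨s', t⟩, h, rfl⟩
    exact ⟨t, t.2, h⟩

/-- The angles at which the circle of radius `s` meets `K`. -/
def ang (K : Set ℂ) (p : ℂ) (s : ℝ) : Set ℝ := {t | t ∈ Icc (0 : ℝ) (2 * π) ∧ p + s * exp (t * I) ∈ K}

theorem ang_compact {K : Set ℂ} (hK : IsClosed K) (p : ℂ) (s : ℝ) : IsCompact (ang K p s) := by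
  have h1 : IsClosed {t : ℝ | p + s * exp (t * I) ∈ K} := hK.preimage (by fun_prop)
  exact isCompact_Icc.inter_right h1

theorem meas {K : Set ℂ} (hK : IsClosed K) (p : ℂ) : Measurable fun s => sInf (ang K p s) := by
  refine measurable_of_Iic fun c => ?_
  by_cases hc : c < 0
  · convert MeasurableSet.empty
    ext s
    simp only [mem_preimage, mem_Iic, mem_empty_iff_false, iff_false, not_le]
    exact hc.trans_le (Real.sInf_nonneg fun t ht => ht.1.1)
  · push Not at hc
    have e : (fun s => sInf (ang K p s)) ⁻¹' Iic c =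
        {s : ℝ | ∃ t ∈ Icc (0 : ℝ) (2 * π), p + s * exp (t * I) ∈ K}ᶜ ∪
          {s : ℝ | ∃ t ∈ Icc (0 : ℝ) (min c (2 * π)), p + s * exp (t * I) ∈ K} := by
      ext s
      simp only [mem_preimage, mem_Iic, mem_union, mem_compl_iff, mem_ofPred_eq]
      constructor
      · intro h
        by_cases hne : (ang K p s).Nonempty
        · have hm := (ang_compact hK p s).sInf_mem hne
          exact Or.inr ⟨_, ⟨hm.1.1, le_min h hm.1.2⟩, hm.2⟩
        · exact Or.inl fun ⟨t, ht, h'⟩ => hne ⟨t, ht, h'⟩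
      · rintro (h | ⟨t, ht, h⟩)
        · have : ang K p s = ∅ := eq_empty_of_forall_notMem fun t ht => h ⟨t, ht.1, ht.2⟩
          rw [this, Real.sInf_empty]
          exact hc
        · exact (csInf_le (ang_compact hK p s).bddBelow
            ⟨⟨ht.1, ht.2.trans (min_le_right _ _)⟩, h⟩).trans (ht.2.trans (min_le_left _ _))
    rw [e]
    exact (closed_rad hK p _).measurableSet.compl.union (closed_rad hK p _).measurableSet

theorem exists_ang (w : ℂ) : ∃ t ∈ Icc (0 : ℝ) (2 * π), w = (‖w‖ : ℝ) * exp (t * I) := by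
  have h := norm_mul_exp_arg_mul_I w
  have h1 := neg_pi_lt_arg w
  have h2 := arg_le_pi w
  have hp := Real.pi_pos
  by_cases h0 : 0 ≤ arg w
  · exact ⟨arg w, ⟨h0, by linarith⟩, h.symm⟩
  · push Not at h0
    refine ⟨arg w + 2 * π, ⟨by linarith, by linarith⟩, ?_⟩
    have e : ((arg w + 2 * π : ℝ) : ℂ) * I = arg w * I + 2 * π * I := by push_cast; ring
    rw [e, exp_add, exp_two_pi_mul_I, mul_one, h]

end ESelP

open ESelP in
theorem e_sel : E_SEL := by
  intro K p ρ hK hc hp hb _
  have hcl := hK.isClosed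
  refine ⟨fun s => p + s * exp ((sInf (ang K p s) : ℝ) * I), ?_, fun s hs => ?_⟩
  · have h1 := meas hcl p
    refine measurable_const.add (measurable_ofReal.mul ?_)
    exact measurable_exp.comp ((measurable_ofReal.comp h1).mul measurable_const)
  · obtain ⟨q, hq, hqb⟩ := not_subset.1 hb
    rw [mem_ball, dist_eq_norm, not_lt] at hqb
    have hiv := hc.intermediate_value hp hq (f := fun z => ‖z - p‖) (by fun_prop)
    obtain ⟨z, hz, hzs⟩ := hiv (show s ∈ Icc ‖p - p‖ ‖q - p‖ from
      ⟨by simpa using hs.1, hs.2.trans hqb⟩)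
    obtain ⟨t, ht, e⟩ := exists_ang (z - p)
    have hne : (ang K p s).Nonempty := by
      refine ⟨t, ht, ?_⟩
      have hzs' : ‖z - p‖ = s := hzs
      rw [← hzs', ← e]
      simpa using hz
    refine ⟨((ang_compact hcl p s).sInf_mem hne).2, ?_⟩
    simp only [add_sub_cancel_left, norm_mul, norm_exp_ofReal_mul_I, mul_one, norm_real,
      Real.norm_eq_abs]
    exact abs_of_nonneg hs.1

end Pool.Agent.P.MP_3bd355_an
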