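import Pool.Agent.P.MP_3bd355_an.E.St

/-! A symmetric configuration is real. -/

open Set Filter Metric Complex InnerProductSpace
open scoped Topology ComplexConjugate Real

namespace Pool.Agent.P.MP_3bd355_an

namespace ESymP

theorem flat (q : ℂ) :
    HasFDerivAt (fun z : ℂ => ‖z - q‖ * √‖z - q‖) (0 : ℂ →L[ℝ] ℝ) q := by
  refine HasFDerivAt.of_isLittleO ?_
  have h1 : Tendsto (fun z : ℂ => √‖z - q‖) (𝓝 q) (𝓝 0) := by
    have : Continuous fun z : ℂ => √‖z - q‖ := by fun_prop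
    simpa using this.tendsto q
  have h2 := (Asymptotics.isBigO_refl (fun z : ℂ => ‖z - q‖) (𝓝 q)).mul_isLittleO
    ((Asymptotics.isLittleO_one_iff ℝ).2 h1)
  simpa using h2

theorem fderiv_zero {v : ℂ → ℝ} {q : ℂ} {C : ℝ} (hv : DifferentiableAt ℝ v q) (h0 : v q = 0)
    (h : ∀ᶠ z in 𝓝 q, -(C * (‖z - q‖ * √‖z - q‖)) ≤ v z) : fderiv ℝ v q = 0 := by
  have h1 : IsLocalMin (fun z => v z + C * (‖z - q‖ * √‖z - q‖)) q := by
    filter_upwards [h] with z hz
    simp only [h0, sub_self, norm_zero, zero_mul, mul_zero, add_zero]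
    linarith
  have h2 := h1.hasFDerivAt_eq_zero (hv.hasFDerivAt.add ((flat q).const_mul C))
  simpa using h2

/-- The lower half annulus. -/
def lowA (r : ℝ) : Set ℂ := ann r ∩ {z | z.im < 0}

theorem conj_mem {r : ℝ} {z : ℂ} (hz : z ∈ lowA r) : conj z ∈ ann r ∩ upH := by
  refine ⟨?_, ?_⟩
  · simpa [ann] using hz.1
  · simpa [upH] using hz.2

theorem isOpen_lowA (r : ℝ) : IsOpen (lowA r) :=
  (isOpen_ann r).inter (isOpen_lt continuous_im continuous_const)

theorem preconn_lowA {r : ℝ} (h0 : 0 < r) : IsPreconnected (lowA r) := by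
  have : lowA r = conj '' (ann r ∩ upH) := by
    ext z
    refine ⟨fun hz => ⟨conj z, conj_mem hz, conj_conj z⟩, ?_⟩
    rintro ⟨y, hy, rfl⟩
    refine ⟨?_, ?_⟩
    · simpa [ann] using hy.1
    · simpa [upH] using hy.2
  rw [this]
  exact (preconn_upper h0).image _ continuous_conj.continuousOn

end ESymP

open ESymP in
theorem e_sym (hF : S_FR) (h1 : E_BQ) : E_SYM := by
  intro r A B z₁ L v h hA hs p hp hpa
  have hL := h.cont
  obtain ⟨φ, F, hh, s0, s1, hfr⟩ := hF r A B z₁ L v h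
  by_contra hne
  have hpU : p ∈ lowA r := ⟨hpa, lt_of_le_of_ne (hL.low p hp) hne⟩
  have hU := isOpen_lowA r
  have hc := preconn_lowA hL.r0
  have hv : HarmonicOnNhd v (lowA r) := fun z hz => by
    have e : (fun y => v (conj y)) =ᶠ[𝓝 z] v := by
      filter_upwards [(isOpen_ann r).mem_nhds hz.1] with y hy using hs y hy
    exact (harmonicAt_congr_nhds e).1 (harm_conj (h.sol.harm _ (hL.upper_sub (conj_mem hz))))
  have hg : ∀ q ∈ L, q ∈ lowA r → grad v q = 0 := fun q hq hqU => by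
    obtain ⟨C, hC⟩ := h1 r A B z₁ L v φ F hh s0 s1 q hfr hA hq hqU.1
    rw [← norm_eq_zero, norm_grad, fderiv_zero (harm_diff (hv q hqU)) (Sol.zero h.sol hq) hC,
      norm_zero]
  have hacc : ∃ᶠ y in 𝓝[≠] p, grad v y = 0 := by
    have e := accPt_iff_frequently.1 (hL.conn.preperfect_of_nontrivial hL.nt p hp)
    rw [frequently_nhdsWithin_iff]
    exact (e.and_eventually (hU.mem_nhds hpU)).mono fun y hy => ⟨hg y hy.1.2 hy.2, hy.1.1⟩
  have hz : EqOn (grad v) 0 (lowA r) :=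
    AnalyticOnNhd.eqOn_zero_of_preconnected_of_frequently_eq_zero
      (fun z hz => grad_analytic (hv z hz)) hc hpU hacc
  have hv0 : ∀ z ∈ lowA r, v z = 0 := fun z hzU => by
    rw [← Sol.zero h.sol hp]
    refine hU.is_const_of_fderiv_eq_zero (𝕜 := ℝ) hc
      (fun y hy => (harm_diff (hv y hy)).differentiableWithinAt) (fun y hy => ?_) hzU hpU
    have := norm_grad v y
    rw [hz hy, Pi.zero_apply, norm_zero] at this
    exact norm_eq_zero.1 this.symm
  have hI : ‖-I‖ = 1 := by simp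
  have ht := Sol.outer hL h.ok h.sol hI
  have hpath : Tendsto (fun t : ℝ => -I * (t : ℂ)) (𝓝[<] 1) (𝓝[ann r] (-I)) ∧
      ∀ᶠ t : ℝ in 𝓝[<] 1, -I * (t : ℂ) ∈ lowA r := by
    have e : ∀ᶠ t : ℝ in 𝓝[<] 1, -I * (t : ℂ) ∈ lowA r := by
      filter_upwards [Ioo_mem_nhdsLT hL.r1] with t ht
      have h0 : 0 < t := hL.r0.trans ht.1
      refine ⟨?_, ?_⟩
      · simpa [ann, abs_of_pos h0] using ht
      · simpa using h0
    refine ⟨tendsto_nhdsWithin_iff.2 ⟨?_, e.mono fun t ht => ht.1⟩, e⟩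
    have : Continuous fun t : ℝ => -I * (t : ℂ) := by fun_prop
    simpa using (this.tendsto 1).mono_left nhdsWithin_le_nhds
  have e : Tendsto (fun _ : ℝ => (0 : ℝ)) (𝓝[<] (1 : ℝ)) (𝓝 A) :=
    (ht.comp hpath.1).congr' (hpath.2.mono fun t ht => hv0 _ ht)
  exact hA.ne (tendsto_nhds_unique e tendsto_const_nhds)

end Pool.Agent.P.MP_3bd355_an
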