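import Pool.Agent.P.MP_3bd355_an.E.St

/-! A real configuration does not extend beyond the radial slit. -/

open Set Filter Metric Complex InnerProductSpace
open scoped Topology ComplexConjugate Real

namespace Pool.Agent.P.MP_3bd355_an

namespace ESymrP

theorem closed_seg (x R : ℝ) : IsClosed (seg x R) :=
  (isClosed_eq continuous_im continuous_const).inter
    ((isClosed_le continuous_const continuous_re).inter (isClosed_le continuous_re continuous_const))

theorem real_ann {r s : ℝ} (h0 : 0 < r) (h1 : r < s) (h2 : s < 1) : (s : ℂ) ∈ ann r := by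
  have : ‖(s : ℂ)‖ = s := by rw [norm_real, Real.norm_eq_abs, abs_of_pos (h0.trans h1)]
  exact ⟨this.symm ▸ h1, this.symm ▸ h2⟩

/-- The radial solution is negative beyond the slit. -/
theorem neg (h : S_X5) {r A B x R s : ℝ} {v : ℂ → ℝ} (a : RS r A B x R v) (hs : R < s)
    (s1 : s < 1) : v s < 0 := by
  obtain ⟨b, -, e1, -⟩ := h r A B x R v a
  have rR := a.rx.trans a.xR
  have hc : ContinuousOn (fun t : ℝ => v (t : ℂ)) (Icc R s) :=
    a.cont.comp continuous_ofReal.continuousOn fun t ht =>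
      real_ann a.r0 (rR.trans_le ht.1) (ht.2.trans_lt s1)
  have hd : StrictAntiOn (fun t : ℝ => v (t : ℂ)) (Icc R s) := by
    refine strictAntiOn_of_deriv_neg (convex_Icc R s) hc fun t ht => ?_
    rw [interior_Icc] at ht
    have t0 : 0 < t := a.r0.trans (rR.trans ht.1)
    have hz : (t : ℂ) ∈ ann r \ seg x R :=
      ⟨real_ann a.r0 (rR.trans ht.1) (ht.2.trans s1), fun e => absurd e.2.2 (not_le.2 ht.1)⟩
    have h1 : HasDerivAt (fun t : ℝ => (t : ℂ)) 1 t := by
      simpa using (hasDerivAt_id t).ofReal_comp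
    have h2 := (harm_diff (a.harm _ hz)).hasFDerivAt.comp_hasDerivAt t h1
    have h3 := (e1 _ hz).2
    rw [LGr, re_ofReal_mul] at h3
    have h4 : deriv (fun t : ℝ => v (t : ℂ)) t = fderiv ℝ v t 1 := h2.deriv
    rw [h4, fderiv_eq_grad, mul_one]
    exact neg_of_mul_neg_right h3 t0.le
  have := hd ⟨le_rfl, hs.le⟩ ⟨hs.le, le_rfl⟩ hs
  have z0 : v R = 0 := a.zero _ (real_ann a.r0 rR (hs.trans s1)) ⟨rfl, a.xR.le, le_rfl⟩
  simpa [z0] using this

end ESymrP

theorem e_symr (h : S_X5) : E_SYMR := by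
  intro r A B x R s L v v₀ a hA c hre xs sL
  by_contra hs
  rw [not_le] at hs
  have hL := c.cont
  have l1 : ∀ p ∈ L, ‖p‖ < 1 := c.cases.elim (fun k => absurd k.1 hA.ne) fun k => k.2.1
  have s1 : s < 1 := (le_abs_self s).trans_lt (by simpa using l1 _ sL)
  have segL : ∀ z ∈ seg x R, z ∈ L := fun z hz => by
    obtain ⟨p, hp, e⟩ := hL.conn.intermediate_value c.mem sL continuous_re.continuousOn
      (show z.re ∈ Icc (x : ℂ).re (s : ℂ).re from ⟨hz.2.1, hz.2.2.trans hs.le⟩)
    have e' : p.re = z.re := e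
    have pa : p ∈ ann r := ⟨a.rx.trans_le (hz.2.1.trans (e' ▸ re_le_norm p)), l1 p hp⟩
    rwa [← Complex.ext e' ((hre p hp pa).trans hz.1.symm)]
  have hO : IsOpen (ann r \ seg x R) := (isOpen_ann r).sdiff (ESymrP.closed_seg x R)
  have hS : Sub (fun z => v z - v₀ z) (ann r \ seg x R) :=
    (c.sub.mono sdiff_subset).sub_harm a.harm
  have hle := hS.mp0 hO ((bdd_ann r).subset sdiff_subset) (c := 0) fun p hp => by
    refine LS.mono (U := ann r) ?_ sdiff_subset
    rw [hO.frontier_eq] at hp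
    have hpc : p ∈ cann r := by
      rw [← closure_ann a.r0 hL.r1]
      exact closure_mono sdiff_subset hp.1
    by_cases ha : p ∈ ann r
    · have hpK : p ∈ seg x R := by
        by_contra hn
        exact hp.2 ⟨ha, hn⟩
      exact ((LS.of_usc c.sub.1 ha subset_rfl).sub_tendsto (a.cont p ha).tendsto).le
        (by linarith [a.zero p ha hpK, Sol.zero c.sol (segL p hpK)])
    · rcases hpc.1.eq_or_lt with e | e
      · refine ((LS.of_eventually (c := B) (Eventually.of_forall fun z => ?_)).sub_tendsto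
          (a.inner p e.symm)).le (sub_self _).le
        exact (Sol.bounds hL c.sol hA.le le_rfl (hA.le.trans c.B0.le) c.B0.le
          (hA.le.trans c.B0.le) le_rfl z).2
      · have e1 : ‖p‖ = 1 := le_antisymm hpc.2 (not_lt.1 fun k => ha ⟨e, k⟩)
        exact LS.of_tendsto ((Sol.outer hL c.ok c.sol e1).sub (a.outer p e1)) (sub_self _).le
  have k1 := hle s ⟨ESymrP.real_ann a.r0 (a.rx.trans xs) s1, fun e => absurd e.2.2 (not_le.2 hs)⟩
  have k2 := ESymrP.neg h a hs s1
  have k3 := Sol.zero c.sol sL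
  linarith

end Pool.Agent.P.MP_3bd355_an
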