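import Pool.Agent.P.MP_3bd355_an.E.St
import Pool.Agent.P.MP_3bd355_an.Pk.Tip

/-! The zero of the normal derivative is unique modulo `2 π`. -/

open Set Filter Metric Complex InnerProductSpace
open scoped Topology ComplexConjugate Real

namespace Pool.Agent.P.MP_3bd355_an

namespace ETip1P

/-- The reflection of `φ` in the unit circle. -/
noncomputable def ps (φ : ℂ → ℂ) (z : ℂ) : ℂ := (conj (φ z))⁻¹

variable {r : ℝ} {L : Set ℂ} {φ F : ℂ → ℂ} {h : ℝ}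

theorem log_tendsto : Tendsto Real.log (𝓝[>] 1) (𝓝[>] 0) := by
  refine tendsto_nhdsWithin_iff.2 ⟨?_, ?_⟩
  · have := (Real.continuousAt_log (one_ne_zero)).tendsto
    rw [Real.log_one] at this
    exact this.mono_left nhdsWithin_le_nhds
  · filter_upwards [self_mem_nhdsWithin] with s hs
    exact Real.log_pos hs

theorem ray (hU : Unif r L φ F h) {t : ℝ} {W : Set ℂ}
    (hP : ∀ᶠ τ : ℝ in 𝓝[>] 0, F (t + τ * I) ∈ W) :
    ∀ᶠ s : ℝ in 𝓝[>] 1, (0 : ℂ) + s * exp (I * t) ∈ ps φ '' W := by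
  have h1 := (tendsto_vert t).eventually (St_mem hU.hpos t)
  filter_upwards [log_tendsto.eventually (hP.and h1), self_mem_nhdsWithin] with s hs h2
  refine ⟨_, hs.1, ?_⟩
  have h3 : (0 : ℝ) < s := lt_trans one_pos h2
  have e1 : conj (I * ((t : ℂ) + (Real.log s : ℝ) * I)) = -((Real.log s : ℝ) + I * t) := by
    simp only [map_mul, map_add, conj_I, conj_ofReal]
    linear_combination ((Real.log s : ℝ) : ℂ) * I_mul_I
  unfold ps
  rw [hU.comp _ hs.2, ← Complex.exp_conj, e1, Complex.exp_neg, inv_inv, Complex.exp_add,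
    ← Complex.ofReal_exp, Real.exp_log h3, zero_add]

theorem pc (hU : Unif r L φ F h) (hL : ∀ p ∈ L, ‖p‖ < 1) {W : Set ℂ} (hW : IsOpen W)
    (hc : IsPreconnected W) (hs : W ⊆ main r L) (hn : (ps φ '' W).Nonempty) :
    IsPathConnected (ps φ '' W) ∧ ∀ z ∈ ps φ '' W, (1 : ℝ) < ‖z - 0‖ := by
  have hne : ∀ z ∈ W, φ z ≠ 0 := fun z hz => hU.ne (fun p hp => (hL p hp).ne) z (hs hz)
  constructor
  · refine (hW.isConnected_iff_isPathConnected.1 ⟨hn.of_image, hc⟩).image' ?_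
    refine ContinuousOn.inv₀ (Complex.continuous_conj.comp_continuousOn
      (hU.dφ.continuousOn.mono hs)) fun z hz => ?_
    simpa using hne z hz
  · rintro _ ⟨z, hz, rfl⟩
    unfold ps
    rw [sub_zero, norm_inv, Complex.norm_conj]
    exact (one_lt_inv₀ (norm_pos_iff.2 (hne z hz))).2 (hU.lt z (hs hz))

theorem pos_ray {u : ℂ → ℝ} {t : ℝ} (hO : Ord u t 0) : ∀ᶠ τ : ℝ in 𝓝[>] 0, 0 < u (t + τ * I) := by
  obtain ⟨c, hc, h1⟩ := hO.zero_pos
  filter_upwards [(tendsto_vert t).eventually h1, self_mem_nhdsWithin] with τ a1 a2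
  have a3 : (0 : ℝ) < τ := a2
  have a4 : ((t : ℂ) + τ * I).im = τ := by simp
  rw [a4] at a1
  exact (mul_pos hc a3).trans_le a1

end ETip1P

open ETip1P in
theorem e_tip1 (hP : S_PN) (hZ : S_ZEX) (h : E_CROSS) : E_TIP1 := by
  intro r A B z₁ L v φ F hh s0 s1 hF hA
  obtain ⟨y, hy, hyZ⟩ := hZ r A B z₁ L v φ F hh s0 s1 hF hA
  refine ⟨y, hy, hyZ, fun x hx => ?_⟩
  have hC := hF.cfg
  have hU := hF.unif
  obtain ⟨k, hk1, hk2⟩ := UniFP.exists_Ico y x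
  rcases hk1.eq_or_lt with e | hk1
  · exact ⟨k, by linarith⟩
  exfalso
  have hx' : x - 2 * π * k ∈ Zer v F s0 s1 := by
    have := Zer_shift hU hx (-k)
    have e : x + 2 * π * ((-k : ℤ) : ℝ) = x - 2 * π * k := by push_cast; ring
    rwa [e] at this
  generalize x - 2 * π * k = w at hk1 hk2 hx'
  have hL1 : ∀ p ∈ L, ‖p‖ < 1 := by
    rcases hC.cases with h0 | h0
    · exact absurd h0.1 hA.ne
    · exact h0.2.1
  obtain ⟨c1, c2⟩ := hP r A B L v hC.cont hC.sol hA.le hC.B0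
  have c3 := (c2 hA hL1).1
  obtain ⟨o1, s1'⟩ := TipP.isOpen_sign hC.sol 1
  obtain ⟨o3, s3'⟩ := TipP.isOpen_sign hC.sol (-1)
  simp only [one_mul] at o1 s1'
  simp only [neg_mul, one_mul, Left.neg_pos_iff] at o3 s3'
  have hOy := hF.tip y hyZ
  have hOw := hF.tip w hx'
  have hI := hOw.isolated even_two
  obtain ⟨t₁, ht₁, ht₁'⟩ : ∃ t, Ord (fun η : ℂ => v (F η)) t 0 ∧ t ∈ Ioo y w :=
    ((hI.filter_mono (nhdsLT_le_nhdsNE w)).and (Ioo_mem_nhdsLT hk1)).exists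
  obtain ⟨t₂, ht₂, ht₂'⟩ : ∃ t, Ord (fun η : ℂ => v (F η)) t 0 ∧ t ∈ Ioo w (y + 2 * π) :=
    ((hI.filter_mono (nhdsGT_le_nhdsNE w)).and (Ioo_mem_nhdsGT hk2)).exists
  have r1 := ray hU (W := {z | v z < 0}) hOy.two_neg
  have r2 := ray hU (W := {z | 0 < v z}) (pos_ray ht₁)
  have r3 := ray hU (W := {z | v z < 0}) hOw.two_neg
  have r4 := ray hU (W := {z | 0 < v z}) (pos_ray ht₂)
  obtain ⟨τ, hτ, hall⟩ := (mem_nhdsGT_iff_exists_Ioo_subset).1 (r1.and (r2.and (r3.and r4)))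
  have hτ1 : (1 : ℝ) < τ := hτ
  obtain ⟨pX, nX⟩ := pc hU hL1 o3 c3 s3' ⟨_, r1.exists.choose_spec⟩
  obtain ⟨pY, nY⟩ := pc hU hL1 o1 c1 s1' ⟨_, r2.exists.choose_spec⟩
  refine h 0 1 (τ - 1) y t₁ w t₂ _ _ zero_le_one (by linarith) ht₁'.1 ht₁'.2 ht₂'.1 ht₂'.2 pX pY
    nX nY (fun s hs => hall ⟨hs.1, by linarith [hs.2]⟩) ?_
  rw [Set.disjoint_left]
  rintro _ ⟨z, hz, rfl⟩ ⟨z', hz', e⟩
  have e' : φ z' = φ z := by
    unfold ps at e
    exact (starRingEnd ℂ).injective (inv_injective e)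
  have := hU.inj (s1' hz') (s3' hz) e'
  subst this
  exact lt_asymm (show v z' < 0 from hz) hz'

end Pool.Agent.P.MP_3bd355_an
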