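import Pool.Agent.P.MP_3bd355_an.E.St

/-! The tip of the free boundary at the simple pole. -/

open Set Filter Metric Complex InnerProductSpace
open scoped Topology ComplexConjugate Real

namespace Pool.Agent.P.MP_3bd355_an

namespace ETipaP

theorem fac {ψ : ℂ → ℂ} {p : ℂ} (ha : AnalyticAt ℂ ψ p) (h0 : ψ p = 0) :
    ∃ σ : ℂ → ℂ, Tendsto σ (𝓝 p) (𝓝 (deriv ψ p)) ∧ ∀ z, ψ z = (z - p) * σ z := by
  refine ⟨dslope ψ p, ?_, fun z => ?_⟩
  · have h := continuousAt_dslope_same.2 ha.differentiableAt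
    rw [ContinuousAt, dslope_same] at h
    exact h
  · have h := sub_smul_dslope ψ p z
    rw [h0, sub_zero, smul_eq_mul] at h
    exact h.symm

theorem chart {r : ℝ} (h0 : 0 < r) (h1 : r < 1) {z₀ z₁ : ℂ} (m0 : z₀ ∈ ann r) (m1 : z₁ ∈ ann r)
    (hne : z₀ ≠ z₁) (a b : ℂ) (c : ℝ) (hg : -2 * a / z₀ ≠ 0) :
    ∃ ψ, Chart (QD r z₀ z₁ a b c) z₀ 1 ψ ∧ deriv ψ z₀ = -2 * a / z₀ := by
  obtain ⟨O, P, hO, -, hs, hP, hQ⟩ := QD_num h0 h1 m0 m1 a b c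
  have hz : z₀ ∈ O := hs ⟨m0.1.le, m0.2.le⟩
  have hG : AnalyticAt ℂ (fun z => P z / (z - z₁)) z₀ :=
    (hP z₀ hz).div (analyticAt_id.sub analyticAt_const) (sub_ne_zero.2 hne)
  have hp := QD_pole h0 h1 m0 m1 hne a b c
  have he : ∀ᶠ z in 𝓝[≠] z₀, (z - z₀) * QD r z₀ z₁ a b c z = P z / (z - z₁) := by
    filter_upwards [self_mem_nhdsWithin, nhdsWithin_le_nhds (hO.mem_nhds hz),
      nhdsWithin_le_nhds (isOpen_ne.mem_nhds hne)] with z e0 e1 e2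
    have e3 : z - z₀ ≠ 0 := sub_ne_zero.2 e0
    have e4 : z - z₁ ≠ 0 := sub_ne_zero.2 e2
    rw [hQ z e1 e0 e2]
    field_simp
  have hv : P z₀ / (z₀ - z₁) = -2 * a / z₀ :=
    tendsto_nhds_unique (hG.continuousAt.tendsto.mono_left nhdsWithin_le_nhds) (hp.congr' he)
  obtain ⟨ψ, hψ⟩ := chart_of_order (Q := QD r z₀ z₁ a b c) (n := 1) le_rfl hG
    (by rw [hv]; exact hg) (he.mono fun z e => by rw [← e]; ring)
  refine ⟨ψ, hψ, ?_⟩
  obtain ⟨σ, hσ, hf⟩ := fac hψ.ana hψ.zero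
  have hσ' : Tendsto σ (𝓝[≠] z₀) (𝓝 (deriv ψ z₀)) := hσ.mono_left nhdsWithin_le_nhds
  have hd : Tendsto (deriv ψ) (𝓝[≠] z₀) (𝓝 (deriv ψ z₀)) :=
    hψ.ana.deriv.continuousAt.tendsto.mono_left nhdsWithin_le_nhds
  have e1 : ∀ᶠ z in 𝓝[≠] z₀, (z - z₀) * QD r z₀ z₁ a b c z * σ z ^ 2 = σ z * deriv ψ z ^ 2 := by
    filter_upwards [self_mem_nhdsWithin, hψ.eq] with z e0 e
    have e3 : z - z₀ ≠ 0 := sub_ne_zero.2 e0
    rw [hf z] at e
    refine mul_left_cancel₀ e3 ?_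
    linear_combination e
  have e2 := tendsto_nhds_unique ((hp.mul (hσ'.pow 2)).congr' e1) (hσ'.mul (hd.pow 2))
  exact (mul_right_cancel₀ (pow_ne_zero 2 hψ.dne) e2).symm

theorem mem_cl {r : ℝ} {L : Set ℂ} (hL : Cont r L) {z₀ : ℂ} (m0 : z₀ ∈ ann r) (h : z₀.im = 0) :
    z₀ ∈ closure (main r L) := by
  have h1 : Tendsto (fun t : ℝ => z₀ + t * I) (𝓝[>] 0) (𝓝 z₀) := by
    have : Continuous fun t : ℝ => z₀ + t * I := by fun_prop
    have h2 := this.tendsto 0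
    simp only [ofReal_zero, zero_mul, add_zero] at h2
    exact h2.mono_left nhdsWithin_le_nhds
  refine mem_closure_of_tendsto h1 ?_
  filter_upwards [self_mem_nhdsWithin, h1.eventually ((isOpen_ann r).mem_nhds m0)] with t e1 e2
  refine hL.upper_sub ⟨e2, ?_⟩
  change 0 < (z₀ + t * I).im
  simpa [h] using e1

/-- The image of the cone stays away from the positive axis. -/
theorem re_le {u γ : ℂ} (hu : 3 * |u.re| ≤ u.im) (hγ : γ.im ≤ 0) :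
    (-(u * γ)).re ≤ ‖-(u * γ)‖ / 3 := by
  have h1 : u.im ≤ ‖u‖ := im_le_norm u
  have h2 : |γ.re| ≤ ‖γ‖ := abs_re_le_norm γ
  have h3 : 0 ≤ |u.re| := abs_nonneg _
  have h4 : -(u.re * γ.re) ≤ |u.re| * |γ.re| := by rw [← abs_mul]; exact neg_le_abs _
  have h5 : |u.re| * |γ.re| ≤ ‖u‖ / 3 * ‖γ‖ :=
    mul_le_mul (by linarith) h2 (abs_nonneg _) (by positivity)
  have h6 : u.im * γ.im ≤ 0 := mul_nonpos_of_nonneg_of_nonpos (by linarith) hγ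
  rw [norm_neg, norm_mul, neg_re, mul_re]
  linarith

theorem polar {w : ℂ} (h0 : w ≠ 0) (h : w.re ≤ ‖w‖ / 3) :
    ∃ s : ℝ, 0 < s ∧ ∃ ϑ ∈ Ioo (0 : ℝ) (π * th 1 0), -w = s * (-1) * exp (I * ϑ) := by
  have hth : th 1 0 = 2 := by simp [th]
  have h1 : arg (-w) < π := by
    rw [arg_lt_pi_iff]
    by_cases hi : w.im = 0
    · left
      have h2 : ‖w‖ = |w.re| := by
        have : w = (w.re : ℂ) := Complex.ext (by simp) (by simp [hi])
        rw [this]; simp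
      rw [h2] at h
      rw [neg_re]
      rcases abs_cases w.re with h3 | h3 <;> linarith [h3.1, h3.2]
    · right
      rw [neg_im]
      exact neg_ne_zero.2 hi
  refine ⟨‖w‖, norm_pos_iff.2 h0, arg (-w) + π, ⟨by linarith [neg_pi_lt_arg (-w)], by
    rw [hth]; linarith⟩, ?_⟩
  have h2 := norm_mul_exp_arg_mul_I (-w)
  rw [norm_neg] at h2
  rw [ofReal_add, mul_add, Complex.exp_add, mul_comm I (π : ℂ), exp_pi_mul_I, mul_comm I]
  linear_combination -h2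

theorem im_sq {y w : ℂ} (h : y ^ 2 = w) (hw : w.re ≤ ‖w‖ / 3) : ‖w‖ / 3 ≤ y.im ^ 2 := by
  have h1 : w.re = y.re ^ 2 - y.im ^ 2 := by rw [← h, sq, mul_re]; ring
  have h2 : ‖w‖ = y.re ^ 2 + y.im ^ 2 := by
    rw [← h, norm_pow, Complex.sq_norm, normSq_apply]; ring
  linarith

end ETipaP

open ETipaP in
theorem e_tipa (h1 : S_LOC1) (h2 : S_LOC2) : E_TIPA := by
  intro r z₀ z₁ L φ F h s0 s1 a b c Fb hU hP hB hz m0 m1 hi hne ha hE
  have hL := hU.cont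
  have hz0 : z₀ ≠ 0 := norm_pos_iff.1 (hL.r0.trans m0.1)
  have hgi : (-2 * a / z₀).im ≠ 0 := by
    intro e
    have e1 : -2 * a = -2 * a / z₀ * z₀ := by field_simp
    have e2 := congrArg Complex.im e1
    rw [mul_im (-2 * a / z₀), e, hi] at e2
    simp at e2
    exact ha e2
  have hg : -2 * a / z₀ ≠ 0 := fun e => hgi (by rw [e]; simp)
  obtain ⟨ψ, hψ, hd⟩ := chart hL.r0 hL.r1 m0 m1 hne a b c hg
  set g := -2 * a / z₀ with hgdef
  obtain ⟨x, hx, hFx⟩ := hB.surj hU hP (mem_cl hL m0 hi) (Or.inl hz)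
  have hxZ : x ∈ Zo s0 s1 := hB.mem_Zo hU hP hx (by rw [hFx]; exact m0.1.ne')
  have hψ' : Chart (QD r z₀ z₁ a b c) (Fb x) 1 ψ := by rw [hFx]; exact hψ
  obtain ⟨κ, χ, a1, hχ, a3⟩ := h1 _ ψ F (Fb x) x 1 0 (by simp) hψ' (hE x hxZ)
    ((hU.ev_main x).mono fun η hη =>
      ⟨hU.analytic hη.1, fun e => (hB.mem hU x).2.2.2 (e ▸ hη.2)⟩) (hB.lim x)
  have hloc := h2 _ ψ F Fb x 1 0 κ χ hψ' hB a1 hχ a3
  rw [pow_one] at a1
  subst a1
  obtain ⟨σ, hσ, hf⟩ := fac hψ.ana hψ.zero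
  rw [hd] at hσ
  have hσi : Tendsto (fun z => (σ z).im) (𝓝 z₀) (𝓝 g.im) := (continuous_im.tendsto g).comp hσ
  have hFb : Tendsto Fb (𝓝[>] x) (𝓝 z₀) := by
    rw [← hFx]
    exact hB.cont.continuousAt.tendsto.mono_left nhdsWithin_le_nhds
  -- points of `L` on the right of `x`
  have hR : ∀ᶠ t in 𝓝[>] x, Fb t ∈ L ∧ Fb t ∈ ann r ∧
      ∃ s : ℝ, 0 < s ∧ (Fb t).im * ‖σ (Fb t)‖ ^ 2 = s * (σ (Fb t)).im := by
    filter_upwards [hloc.rayR, nhdsWithin_le_nhds (hB.near_Zo hU hP hxZ),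
      hFb.eventually ((isOpen_ann r).mem_nhds m0)] with t e1 e2 e3
    obtain ⟨s, hs, e1⟩ := e1
    obtain ⟨t', ht', e2⟩ := e2
    refine ⟨?_, e3, s, hs, ?_⟩
    · rw [← e2]
      exact (hB.mem_LA hU hP ht').2.2 (by rw [e2]; exact e3.2.ne)
    · rw [hf] at e1
      have e4 := congrArg Complex.re e1
      have e5 := congrArg Complex.im e1
      simp only [mul_re, mul_im, sub_im, hi, sub_zero, ofReal_re, ofReal_im, neg_re, neg_im,
        one_re, one_im] at e4 e5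
      rw [Complex.sq_norm, normSq_apply]
      linear_combination (σ (Fb t)).re * e5 - (σ (Fb t)).im * e4
  have hgn : g.im < 0 := by
    by_contra hc
    have hc' : 0 < g.im := lt_of_le_of_ne (not_lt.1 hc) hgi.symm
    obtain ⟨t, ⟨e1, -, s, hs, e2⟩, e3⟩ :=
      (hR.and ((hσi.comp hFb).eventually (lt_mem_nhds hc'))).exists
    have e4 := hL.low _ e1
    have e5 : 0 < s * (σ (Fb t)).im := mul_pos hs e3
    have e6 : (Fb t).im * ‖σ (Fb t)‖ ^ 2 ≤ 0 := mul_nonpos_of_nonpos_of_nonneg e4 (by positivity)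
    linarith
  refine ⟨?_, x, hxZ, ?_⟩
  · obtain ⟨t, ⟨e1, e0, s, hs, e2⟩, e3⟩ :=
      (hR.and ((hσi.comp hFb).eventually (gt_mem_nhds hgn))).exists
    refine ⟨Fb t, e1, e0, ?_⟩
    by_contra hc
    have e5 : s * (σ (Fb t)).im < 0 := mul_neg_of_pos_of_neg hs e3
    have e6 : 0 ≤ (Fb t).im * ‖σ (Fb t)‖ ^ 2 := mul_nonneg (not_lt.1 hc) (by positivity)
    linarith
  obtain ⟨τ, hτ, hfχ⟩ := fac hχ.ana hχ.zero
  have hdχ : deriv χ x ≠ 0 := fun e => by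
    have := hχ.dpos
    rw [e] at this
    simp at this
  have hm : 0 < ‖deriv χ x‖ / 2 := half_pos (norm_pos_iff.2 hdχ)
  have hgp : 0 < ‖g‖ := norm_pos_iff.2 hg
  have hdp := hχ.dpos
  refine ⟨√(‖g‖ / 6) / ((deriv χ x).re + 1), √(2 * ‖g‖) / (‖deriv χ x‖ / 2), by positivity,
    fun U hUm => ?_⟩
  have hth : ((th 1 0 : ℝ) : ℂ) = ((2 : ℕ) : ℂ) := by simp [th]
  have hV : ∀ᶠ η : ℂ in 𝓝[upH] (x : ℂ), η ∈ U ∧ ψ (F η) = -χ η ^ 2 ∧ 0 < (χ η).im ∧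
      (χ η).im ≤ ((deriv χ x).re + 1) * η.im ∧ ‖η - x‖ * (‖deriv χ x‖ / 2) ≤ ‖χ η‖ := by
    filter_upwards [hUm, a3, (show Tendsto χ _ _ from hχ.map_upH.le).eventually
      self_mem_nhdsWithin, self_mem_nhdsWithin,
      nhdsWithin_le_nhds (Har3P.im_lin hχ.ana hχ.real one_pos),
      nhdsWithin_le_nhds (hτ.norm.eventually (lt_mem_nhds (half_lt_self (norm_pos_iff.2 hdχ))))]
      with η e1 e2 e3 e4 e5 e6
    have e7 : 0 < η.im := e4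
    refine ⟨e1, ?_, e3, ?_, ?_⟩
    · rw [e2, hth, cpow_natCast]; ring
    · rw [abs_of_pos e7] at e5
      linarith [(abs_le.1 e5).2]
    · rw [hfχ η, norm_mul]
      exact mul_le_mul_of_nonneg_left (le_of_lt e6) (norm_nonneg _)
  have hc := hloc.cov _ hV
  rw [hFx] at hc
  filter_upwards [self_mem_nhdsWithin, nhdsWithin_le_nhds hc,
    nhdsWithin_le_nhds (hσi.eventually (gt_mem_nhds hgn)),
    nhdsWithin_le_nhds (hσ.norm.eventually (lt_mem_nhds (half_lt_self hgp))),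
    nhdsWithin_le_nhds (hσ.norm.eventually (gt_mem_nhds (by linarith : ‖g‖ < 2 * ‖g‖)))]
    with z e1 e2 e3 e4 e5
  have e6 := re_le e1.1 (le_of_lt e3)
  have e4' : ‖g‖ / 2 < ‖σ z‖ := e4
  have e5' : ‖σ z‖ < 2 * ‖g‖ := e5
  have hu : 0 < ‖z - z₀‖ := norm_pos_iff.2 (sub_ne_zero.2 e1.2)
  have hw : ‖-((z - z₀) * σ z)‖ = ‖z - z₀‖ * ‖σ z‖ := by rw [norm_neg, norm_mul]
  have hw0 : -((z - z₀) * σ z) ≠ 0 := by
    rw [← norm_pos_iff, hw]
    exact mul_pos hu (by linarith)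
  have e7 := polar hw0 e6
  rw [neg_neg, ← hf] at e7
  obtain ⟨η, ⟨f1, f2, f3, f4, f5⟩, f6⟩ := e2 e7
  refine ⟨η, f1, f6, ?_, ?_⟩
  · have f7 : χ η ^ 2 = -((z - z₀) * σ z) := by rw [← hf, ← f6, f2, neg_neg]
    have f8 := im_sq f7 e6
    rw [hw] at f8
    have f9 : √(‖g‖ / 6) * √‖z - z₀‖ ≤ (χ η).im := by
      rw [← Real.sqrt_mul (by positivity)]
      refine Real.sqrt_le_iff.2 ⟨f3.le, ?_⟩
      nlinarith
    rw [div_mul_eq_mul_div, div_le_iff₀ (by linarith)]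
    linarith
  · have f7 : χ η ^ 2 = -((z - z₀) * σ z) := by rw [← hf, ← f6, f2, neg_neg]
    have f8 : ‖χ η‖ ^ 2 = ‖z - z₀‖ * ‖σ z‖ := by rw [← norm_pow, f7, hw]
    have f9 : ‖χ η‖ ≤ √(2 * ‖g‖) * √‖z - z₀‖ := by
      rw [← Real.sqrt_mul (by positivity)]
      refine Real.le_sqrt_of_sq_le ?_
      nlinarith
    rw [div_mul_eq_mul_div, le_div_iff₀ hm]
    linarith

end Pool.Agent.P.MP_3bd355_an
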