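import Pool.Agent.P.MP_3bd355_an.E.St
import Pool.Agent.P.MP_3bd355_an.Pk.VarG

/-! The perturbed subharmonic function, with an additional small term. -/

open Set Filter Metric Complex InnerProductSpace
open scoped Topology ComplexConjugate Real

namespace Pool.Agent.P.MP_3bd355_an

open VarGP in
theorem e_varg (h : S_VARA) : E_VARG := by
  intro r Z ρ O v D δ₀ P τ hr0 hr1 hO hcO hρ hre hδ₀ hZ hSub
  classical
  obtain ⟨εS, hεS, hS⟩ := hSub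
  have hR' : ∀ ζ ∈ Z, ∃ R : ℂ → ℝ, HarmonicAt R ζ ∧
      ∀ᶠ z in 𝓝[≠] ζ, D z - (grad v z * z * ρ z).re = R z := fun ζ hζ => (hZ ζ hζ).2.2.2
  choose! R hR hRe using hR'
  have hev : ∀ ζ ∈ Z, ∀ᶠ y in 𝓝 ζ, y ∈ ann r ∧ HarmonicAt v y ∧ HarmonicAt (R ζ) y ∧
      (y ≠ ζ → HarmonicAt D y ∧ D y - (grad v y * y * ρ y).re = R ζ y ∧ y ∉ Z) := by
    intro ζ hζ
    have a1 : ∀ᶠ y in 𝓝 ζ, y ∈ ann r := (isOpen_ann r).mem_nhds (hZ ζ hζ).1
    have a2 := eventually_nhdsWithin_iff.1 (hZ ζ hζ).2.2.1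
    have a3 := eventually_nhdsWithin_iff.1 (hRe ζ hζ)
    have a4 : ∀ᶠ y in 𝓝 ζ, y ∈ ((Z.erase ζ : Finset ℂ) : Set ℂ)ᶜ :=
      (Z.erase ζ).finite_toSet.isClosed.isOpen_compl.mem_nhds (by simp)
    filter_upwards [a1, a2, a3, a4, (hZ ζ hζ).2.1.eventually, (hR ζ hζ).eventually]
      with y b1 b2 b3 b4 b5 b6
    refine ⟨b1, b5, b6, fun hy => ⟨b2 hy, b3 hy, fun hyZ => b4 ?_⟩⟩
    simp [hy, hyZ]
  obtain ⟨δ, hδ, hδδ, hδ1, hQ⟩ := radius hδ₀ hev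
  have hball : ∀ ζ ∈ Z, closedBall ζ (2 * δ) ⊆ ann r := fun ζ hζ y hy =>
    (hQ ζ hζ y (closedBall_subset_ball (by linarith) hy)).1
  have hsep : ∀ ζ ∈ Z, ∀ ζ' ∈ Z, ζ' ≠ ζ → 3 * δ ≤ dist ζ' ζ := by
    intro ζ hζ ζ' hζ' hne
    by_contra hlt
    exact ((hQ ζ hζ ζ' (not_le.1 hlt)).2.2.2 hne).2.2 hζ'
  obtain ⟨CA, εA, hεA, hA⟩ := h r Z ρ O (δ / 16) hr0 hr1 hO hcO hρ hre (by linarith)
    (fun ζ hζ => (closedBall_subset_closedBall (by linarith)).trans (hball ζ hζ))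
  -- the bound of `ρ`
  obtain ⟨B₀, hB₀⟩ := (isCompact_Rg r Z (δ / 16)).exists_bound_of_continuousOn (f := ρ)
    (fun z hz => (hρ z (hcO hz.1) (not_mem_of_Rg (by linarith) hz)).continuousAt.continuousWithinAt)
  obtain ⟨B, hB0, hB⟩ : ∃ B : ℝ, 0 ≤ B ∧ ∀ z ∈ Rg r Z (δ / 16), ‖ρ z‖ ≤ B :=
    ⟨max B₀ 0, le_max_right _ _, fun z hz => (hB₀ z hz).trans (le_max_left _ _)⟩
  have hBz : ∀ z ∈ Rg r Z (δ / 16), ‖z * ρ z‖ ≤ B := fun z hz => by
    rw [norm_mul]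
    calc ‖z‖ * ‖ρ z‖ ≤ 1 * B := mul_le_mul hz.1.2 (hB z hz) (norm_nonneg _) one_pos.le
      _ = B := one_mul _
  obtain ⟨C, hC0, hCA⟩ : ∃ C : ℝ, 0 ≤ C ∧ CA ≤ C := ⟨max CA 0, le_max_right _ _, le_max_left _ _⟩
  -- the bounds of `v` and `D`
  set K : Set ℂ := ⋃ ζ ∈ Z, (closedBall ζ (2 * δ) \ ball ζ (δ / 32)) with hK
  have hKc : IsCompact K := Z.isCompact_biUnion fun ζ _ =>
    (isCompact_closedBall ζ _).diff isOpen_ball
  have hKh : ∀ y ∈ K, HarmonicAt v y ∧ HarmonicAt D y := by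
    intro y hy
    obtain ⟨ζ, hζ, hy1, hy2⟩ := mem_iUnion₂.1 hy
    have hq := hQ ζ hζ y (closedBall_subset_ball (by linarith) hy1)
    refine ⟨hq.2.1, (hq.2.2.2 ?_).1⟩
    rintro rfl
    exact hy2 (mem_ball_self (by linarith))
  obtain ⟨M₁, hM₁⟩ := hKc.exists_bound_of_continuousOn (f := v)
    (HarmonicOnNhd.continuousOn fun y hy => (hKh y hy).1)
  obtain ⟨M₂, hM₂⟩ := hKc.exists_bound_of_continuousOn (f := D)
    (HarmonicOnNhd.continuousOn fun y hy => (hKh y hy).2)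
  obtain ⟨M, hM0, hMv, hMD⟩ : ∃ M : ℝ, 0 ≤ M ∧ (∀ y ∈ K, |v y| ≤ M) ∧ ∀ y ∈ K, |D y| ≤ M :=
    ⟨max (max M₁ M₂) 0, le_max_right _ _,
      fun y hy => (hM₁ y hy).trans ((le_max_left _ _).trans (le_max_left _ _)),
      fun y hy => (hM₂ y hy).trans ((le_max_right _ _).trans (le_max_left _ _))⟩
  obtain ⟨C₂, hC₂⟩ : ∃ C₂ : ℝ, C₂ = 64 * M / (δ / 32) ^ 2 * (B + C) ^ 2 + 4 * M / (δ / 32) * C +
    8 * M / (δ / 32) * (B + C) := ⟨_, rfl⟩
  have hC₂0 : 0 ≤ C₂ := by rw [hC₂]; positivity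
  obtain ⟨C₁, hC₁⟩ : ∃ C₁ : ℝ, C₁ = 2 * C₂ + 2 := ⟨_, rfl⟩
  have hC₁0 : 0 ≤ C₁ := by rw [hC₁]; positivity
  obtain ⟨Lg, hLg⟩ : ∃ Lg : ℝ, Lg = Real.log 2 - Real.log δ := ⟨_, rfl⟩
  have hLg0 : 0 ≤ Lg := by
    have := Real.log_nonpos hδ.le hδ1
    linarith [Real.log_two_gt_d9]
  have hpos : 0 < δ / 128 / (B + C + 1) := by positivity
  refine ⟨δ, C + C₁ * (Z.card * Lg), min (min εA εS) (min 1 (δ / 128 / (B + C + 1))), hδ, hδδ,
    by positivity, by positivity, hball, ?_⟩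
  intro ε hε
  have hε0 : 0 < ε := hε.1
  have hεA' : ε < εA := hε.2.trans_le ((min_le_left _ _).trans (min_le_left _ _))
  have hεS' : ε < εS := hε.2.trans_le ((min_le_left _ _).trans (min_le_right _ _))
  have hε1 : ε ≤ 1 := (hε.2.trans_le ((min_le_right _ _).trans (min_le_left _ _))).le
  have hεs : (B + C) * ε < δ / 32 / 4 := by
    have h1 : ε < δ / 128 / (B + C + 1) :=
      hε.2.trans_le ((min_le_right _ _).trans (min_le_right _ _))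
    rw [lt_div_iff₀ (by positivity)] at h1
    have e : ε * (B + C + 1) = (B + C) * ε + ε := by ring
    linarith
  have hCε : C * ε ^ 2 ≤ C * ε :=
    mul_le_mul_of_nonneg_left (by rw [sq]; exact mul_le_of_le_one_left hε0.le hε1) hC0
  have hBC : (B + C) * ε = ε * B + C * ε := by ring
  have hCε0 : 0 ≤ C * ε := mul_nonneg hC0 hε0.le
  obtain ⟨Θ, hΘ, hinv⟩ := hA ε ⟨hε0, hεA'⟩
  have hΘC : ∀ z ∈ Rg r Z (δ / 16), ‖Θ z - (z - ε * (z * ρ z))‖ ≤ C * ε ^ 2 := fun z hz => by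
    rw [← mul_assoc]
    exact (hΘ z hz).2.2.2.2.2.trans (mul_le_mul_of_nonneg_right hCA (sq_nonneg _))
  have hΘd : ∀ z ∈ Rg r Z (δ / 16), dist (Θ z) z ≤ δ / 2 := fun z hz => by
    have e : Θ z - z = (Θ z - (z - ε * (z * ρ z))) - ε * (z * ρ z) := by ring
    have a1 : ‖(ε : ℂ) * (z * ρ z)‖ ≤ ε * B := by
      rw [norm_mul, Complex.norm_real, Real.norm_of_nonneg hε0.le]
      exact mul_le_mul_of_nonneg_left (hBz z hz) hε0.le
    rw [dist_eq_norm, e]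
    have a3 := norm_sub_le (Θ z - (z - ε * (z * ρ z))) (ε * (z * ρ z))
    have a4 := hΘC z hz
    linarith
  -- the key estimate on the rings
  have hkey : ∀ ζ ∈ Z, ∀ y, δ / 16 < dist y ζ → dist y ζ < δ →
      |v (Θ y) + ε * D (Θ y) - (v y + ε * R ζ y)| ≤ C₂ * ε ^ 2 := by
    intro ζ hζ y hy1 hy2
    have hyq := hQ ζ hζ y (mem_ball.2 (by linarith))
    have hne : y ≠ ζ := by
      rintro rfl
      rw [dist_self] at hy1
      linarith
    have hyR : y ∈ Rg r Z (δ / 16) := by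
      refine ⟨⟨hyq.1.1.le, hyq.1.2.le⟩, fun ζ' hζ' => ?_⟩
      by_cases he : ζ' = ζ
      · subst he; exact hy1.le
      · have h2 := hsep ζ hζ ζ' hζ' he
        have h3 := dist_triangle_left ζ' ζ y
        linarith
    have hbK : ball y (δ / 32) ⊆ K := by
      intro x hx
      have hx' : dist x y < δ / 32 := hx
      refine mem_biUnion hζ ⟨?_, ?_⟩
      · have := dist_triangle x y ζ
        rw [mem_closedBall]; linarith
      · have := dist_triangle_left y ζ x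
        rw [mem_ball, not_lt]; linarith
    have := est (v := v) (D := D) (z := y) (θ := Θ y) (X := y * ρ y) (by linarith : 0 < δ / 32)
      (fun x hx => (hKh x (hbK hx)).1) (fun x hx => (hKh x (hbK hx)).2)
      (fun x hx => hMv x (hbK hx)) (fun x hx => hMD x (hbK hx)) (hBz y hyR) hC0 (hΘC y hyR)
      hε0 hε1 hεs
    rw [← mul_assoc (grad v y), (hyq.2.2.2 hne).2.1, ← hC₂] at this
    exact this
  have hP : ∀ z, |P ε z| ≤ τ ε := (hS ε ⟨hε0, hεS'⟩).2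
  have hτ0 : 0 ≤ τ ε := (abs_nonneg _).trans (hP 0)
  obtain ⟨T, hT⟩ : ∃ T : ℝ, T = ε ^ 2 + τ ε := ⟨_, rfl⟩
  have hT0 : 0 ≤ T := by rw [hT]; positivity
  obtain ⟨w₀, hw₀⟩ : ∃ w₀ : ℂ → ℝ, w₀ = fun y => (v (Θ y) + ε * D (Θ y) + P ε (Θ y)) +
    C₁ * T * ∑ ζ ∈ Z, (Real.log ‖y - ζ‖ - Real.log 2) := ⟨_, rfl⟩
  obtain ⟨q, hq⟩ : ∃ q : ℂ → ℂ → ℝ, q = fun ζ y => v y + ε * R ζ y +
    C₁ * T * ∑ ζ' ∈ Z.erase ζ, (Real.log ‖y - ζ'‖ - Real.log 2) +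
    C₁ * T * (Real.log (δ / 4) - Real.log 2) := ⟨_, rfl⟩
  have hdiff : ∀ ζ ∈ Z, ∀ y, w₀ y - q ζ y = (v (Θ y) + ε * D (Θ y) - (v y + ε * R ζ y)) +
      P ε (Θ y) + C₁ * T * (Real.log ‖y - ζ‖ - Real.log (δ / 4)) := by
    intro ζ hζ y
    simp only [hw₀, hq]
    rw [← Finset.add_sum_erase Z (fun ζ => Real.log ‖y - ζ‖ - Real.log 2) hζ]
    ring
  have hV := isOpen_far r Z (δ / 16)
  have hVR : {y | y ∈ ann r ∧ ∀ ζ ∈ Z, δ / 16 < dist y ζ} ⊆ Rg r Z (δ / 16) := fun y hy =>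
    ⟨⟨hy.1.1.le, hy.1.2.le⟩, fun ζ hζ => (hy.2 ζ hζ).le⟩
  have h0 : Sub w₀ {y | y ∈ ann r ∧ ∀ ζ ∈ Z, δ / 16 < dist y ζ} := by
    have hU : IsOpen (ann r \ (Z : Set ℂ)) := (isOpen_ann r).sdiff Z.finite_toSet.isClosed
    have s1 := Sub.comp (f := Θ) (hS ε ⟨hε0, hεS'⟩).1 hU hV
      (fun y hy => (hΘ y (hVR hy)).1.differentiableAt.differentiableWithinAt)
      (fun y hy => (hΘ y (hVR hy)).2.1) (by
        intro y hy
        obtain ⟨-, -, g1, g2, g3, -⟩ := hΘ y (hVR hy)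
        refine ⟨⟨lt_of_le_of_ne g1.1.1 fun e => ?_, lt_of_le_of_ne g1.1.2 fun e => ?_⟩,
          not_mem_of_Rg (by linarith) g1⟩
        · exact hy.1.1.ne' (g2.1 e.symm)
        · exact hy.1.2.ne (g3.1 e))
    rw [hw₀]
    refine s1.add_harm fun y hy => harm_logs Z _ _ fun ζ hζ e => ?_
    have := hy.2 ζ hζ
    rw [e, dist_self] at this
    linarith
  have hqh : ∀ ζ ∈ Z, HarmonicOnNhd (q ζ) (ball ζ δ) := by
    intro ζ hζ y hy
    have hy' : dist y ζ < δ := hy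
    have hyq := hQ ζ hζ y (mem_ball.2 (by linarith))
    have a1 := harm_logs (Z.erase ζ) (C₁ * T) (Real.log 2) (z := y) (by
      intro ζ' hζ' e
      have h2 := hsep ζ hζ ζ' (Finset.mem_of_mem_erase hζ') (Finset.ne_of_mem_erase hζ')
      rw [← e] at h2
      linarith)
    rw [hq]
    exact ((hyq.2.1.add (harm_const_mul hyq.2.2.1 ε)).add a1).add
      (harmonicAt_const (C₁ * T * (Real.log (δ / 4) - Real.log 2)))
  have hε2 : 0 ≤ ε ^ 2 := sq_nonneg _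
  have hhalf : C₁ * T * (1 / 2) = C₂ * ε ^ 2 + C₂ * τ ε + ε ^ 2 + τ ε := by rw [hC₁, hT]; ring
  have hCτ : 0 ≤ C₂ * τ ε := mul_nonneg hC₂0 hτ0
  obtain ⟨w, hw, hw0⟩ := glue (r := r) (Z := Z) (w₀ := w₀) (q := q) hδ
    (fun ζ hζ => (ball_subset_closedBall.trans (closedBall_subset_closedBall (by linarith))).trans
      (hball ζ hζ)) hsep h0 hqh
    (by
      intro ζ hζ y hy1 hy2
      have k1 := (abs_le.1 (hkey ζ hζ y hy1 (by linarith))).2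
      have k2 := log_lo (δ := δ) (t := ‖y - ζ‖) (by rw [← dist_eq_norm]; linarith)
        (by rw [← dist_eq_norm]; exact hy2)
      have k3 := hdiff ζ hζ y
      have k4 := mul_le_mul_of_nonneg_left k2 (mul_nonneg hC₁0 hT0)
      have k5 := (abs_le.1 (hP (Θ y))).2
      rw [mul_neg] at k4
      linarith)
    (by
      intro ζ hζ y hy1 hy2
      have k1 := (abs_le.1 (hkey ζ hζ y (by linarith) hy2)).1
      have k2 := log_hi (t := ‖y - ζ‖) hδ (by rw [← dist_eq_norm]; exact hy1)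
      have k3 := hdiff ζ hζ y
      have k4 := mul_le_mul_of_nonneg_left k2 (mul_nonneg hC₁0 hT0)
      have k5 := (abs_le.1 (hP (Θ y))).1
      linarith)
  have hsub : Rg r Z δ ⊆ Rg r Z (δ / 16) := Rg_anti (by linarith)
  have hextra : 0 ≤ C₁ * (Z.card * Lg) * ε ^ 2 := by positivity
  refine ⟨Θ, w, hw, fun z hz => ?_, fun y hy => ?_, fun z hz hza => ?_⟩
  · obtain ⟨g0, -, g1, g2, g3, -⟩ := hΘ z (hsub hz)
    refine ⟨g0.continuousAt, ⟨g1.1, fun ζ hζ => ?_⟩, g2, g3, ?_⟩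
    · have a1 := hz.2 ζ hζ
      have a2 := hΘd z (hsub hz)
      have a3 := dist_triangle_left z ζ (Θ z)
      linarith
    · have a1 := hΘC z (hsub hz)
      rw [← mul_assoc] at a1
      rw [add_mul]
      linarith
  · obtain ⟨g1, g2⟩ := hinv y (Rg_anti (by linarith) hy)
    refine ⟨⟨g1.1, fun ζ hζ => ?_⟩, g2⟩
    have hyR : y ∈ Rg r Z (δ / 16) := Rg_anti (by linarith) hy
    have a1 : ‖(ε : ℂ) * ρ y‖ ≤ ε * B := by
      rw [norm_mul, Complex.norm_real, Real.norm_of_nonneg hε0.le]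
      exact mul_le_mul_of_nonneg_left (hB y hyR) hε0.le
    have a2 : ε * B ≤ δ / 128 := by linarith
    have a3 := Complex.norm_exp_sub_one_le (x := ε * ρ y) (by linarith)
    have a4 : dist (y * exp (ε * ρ y)) y ≤ δ := by
      rw [dist_eq_norm, ← mul_sub_one, norm_mul]
      calc ‖y‖ * ‖exp (ε * ρ y) - 1‖ ≤ 1 * (2 * (δ / 128)) :=
            mul_le_mul hy.1.2 (by linarith) (norm_nonneg _) one_pos.le
        _ ≤ δ := by linarith
    have a5 := hy.2 ζ hζ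
    have a6 := dist_triangle_left y ζ (y * exp (ε * ρ y))
    linarith
  · rw [hw0 z hz.2]
    have a1 : ∑ ζ ∈ Z, (Real.log ‖z - ζ‖ - Real.log 2) ≤ 0 := by
      refine Finset.sum_nonpos fun ζ hζ => ?_
      have b1 := hz.2 ζ hζ
      have b2 : ‖z - ζ‖ ≤ 2 := by
        have := norm_sub_le z ζ
        linarith [hza.2, (hZ ζ hζ).1.2]
      rw [dist_eq_norm] at b1
      exact sub_nonpos.2 (Real.log_le_log (by linarith) b2)
    have a2 : -(Z.card * Lg) ≤ ∑ ζ ∈ Z, (Real.log ‖z - ζ‖ - Real.log 2) := by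
      have b0 : ∑ _ζ ∈ Z, -Lg ≤ ∑ ζ ∈ Z, (Real.log ‖z - ζ‖ - Real.log 2) := by
        refine Finset.sum_le_sum fun ζ hζ => ?_
        have b1 := hz.2 ζ hζ
        rw [dist_eq_norm] at b1
        have := Real.log_le_log hδ b1
        linarith
      simpa using b0
    have a3 := mul_le_mul_of_nonneg_left a1 (mul_nonneg hC₁0 hT0)
    have a4 := mul_le_mul_of_nonneg_left a2 (mul_nonneg hC₁0 hT0)
    have a5 : 0 ≤ C * T := mul_nonneg hC0 hT0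
    have a6 : C₁ * T * -(Z.card * Lg) = -(C₁ * (Z.card * Lg) * T) := by ring
    simp only [hw₀]
    rw [← hT, add_mul]
    constructor <;> linarith

end Pool.Agent.P.MP_3bd355_an
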