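import Pool.Agent.P.MP_3bd355_an.E.St
import Pool.Agent.P.MP_3bd355_an.Pk.VarB

/-! The variational inequality at a point of `L`. -/

open Set Filter Metric Complex InnerProductSpace
open scoped Topology ComplexConjugate Real

namespace Pool.Agent.P.MP_3bd355_an

open VarBP in
theorem e_varx (h : E_VARG) : E_VARX := by
  intro r A B z₀ z₁ L K v ω H Z a c₀ τ hE _ hK hG hω m0 m1 hF hBd hP
  have hZ := hF.sub
  have ha := hF.bal
  have hρ1 := hF.fix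
  have hL := hE.cont
  have h0 := hL.r0
  have h1 := hL.r1
  have hS := hE.sol
  have hω01 : ∀ z, 0 ≤ ω z ∧ ω z ≤ 1 :=
    Sol.bounds hL hω le_rfl zero_le_one le_rfl zero_le_one le_rfl zero_le_one
  have hW := hL.isOpen_main
  have hWa : main r L ⊆ ann r := fun z hz => (main_sub r L hz).1
  have hZW : ∀ ζ ∈ Z, ζ ∈ main r L := fun ζ hζ => (hZ ζ hζ).1
  have hZa : ∀ ζ ∈ Z, ζ ∈ ann r := fun ζ hζ => hWa (hZW ζ hζ)
  have gc := SCU.gc hE hK
  set D := (main r L).indicator (DD H v Z a) with hD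
  set ρ := rho r Z a c₀ with hρ
  have hDh : ∀ z ∈ main r L, z ∉ Z → HarmonicAt D z := fun z hz hzZ =>
    harm_ind hW hz (harm_DD hG v hZW a hz hzZ)
  have hD0 : ∀ p, p ∉ main r L → Tendsto D (𝓝 p) (𝓝 0) := fun p hp => DD_zero hW hG v hZW a hp
  obtain ⟨O, hO, hcO, hρa⟩ := rho_analytic h0 h1 hZa a c₀
  have hre : ∀ z : ℂ, ‖z‖ = r ∨ ‖z‖ = 1 → (ρ z).re = 0 := fun z hz => rho_re h0 hZa ha c₀ hz
  obtain ⟨δ₀, hδ₀, hgap⟩ := exists_gap (Z := Z) (T := K) hK.cpt.isClosed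
    (fun ζ hζ => (hZ ζ hζ).2)
  obtain ⟨δ, C, ε₀, hδ, hδδ, hC, hε₀, hb, hvar⟩ := h r Z ρ O v D δ₀ (fun ε z => τ ε * ω z) τ h0 h1 hO hcO hρa hre hδ₀
    (fun ζ hζ => ⟨hZa ζ hζ, hS.harm ζ (hZW ζ hζ), by
      have e1 : ∀ᶠ z in 𝓝[≠] ζ, ∀ ξ ∈ Z, z ≠ ξ := (eventually_all_finset Z).2 fun ξ _ => by
        by_cases e : ξ = ζ
        · rw [e]; exact self_mem_nhdsWithin
        · exact nhdsWithin_le_nhds (eventually_ne_nhds (Ne.symm e))
      filter_upwards [e1, nhdsWithin_le_nhds (hW.eventually_mem (hZW ζ hζ))] with z e hz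
      exact hDh z hz fun hc => e z hc rfl,
      pole_match h0 h1 hW hWa hG hS.harm hZW a c₀ hζ⟩)
    (by
      obtain ⟨ε₁, hε₁, hP⟩ := (nhdsGT_basis (0 : ℝ)).eventually_iff.1 hP
      refine ⟨ε₁, hε₁, fun ε hε => ⟨(sub_of_pos hL (f := fun z => v z + ε * D z + τ ε * ω z)
        Z.finite_toSet.isClosed
        (fun z hz => ((hS.harm z hz.1).add (harm_const_mul (hDh z hz.1 hz.2) ε)).add
          (harm_const_mul (hω.harm z hz.1) (τ ε)))
        (fun z hz => by rw [hS.off z hz, hω.off z hz, hD, indicator_of_notMem hz]; ring)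
        (fun p hp hpa => ?_) (fun p hp => ?_)).1, fun z => ?_⟩⟩
      · have a1 := hS.atL p hp fun hc => hpa.1.ne' (hL.closure_Ex hc).1
        have a2 := ((hD0 p fun hc => (main_sub r L hc).2 hp).mono_left
          (nhdsWithin_le_nhds (s := main r L))).const_mul ε
        have a3 := (hω.atL p hp fun hc => hpa.1.ne' (hL.closure_Ex hc).1).const_mul (τ ε)
        simpa using (a1.add a2).add a3
      · filter_upwards [(hP hε).2.1 p hp, self_mem_nhdsWithin] with z h2 hz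
        rwa [hD, indicator_of_mem hz]
      · rw [abs_of_nonneg (mul_nonneg (hP hε).1 (hω01 z).1)]
        exact mul_le_of_le_one_right (hP hε).1 (hω01 z).2)
  have hKR : ∀ y ∈ K, y ∈ Rg r Z (2 * δ) := fun y hy =>
    ⟨hK.sub hy, fun ζ hζ => by linarith [hgap y hy ζ hζ]⟩
  have hKZ : ∀ y ∈ K, y ∉ Z := fun y hy hc => (hZ y hc).2 hy
  have h0R : z₀ ∈ Rg r Z δ :=
    ⟨ann_sub_cann r m1, fun ζ hζ => by linarith [hgap z₀ (hK.sup m0) ζ hζ]⟩
  refine ⟨C + 2, ?_⟩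
  filter_upwards [hP, Ioo_mem_nhdsGT hε₀] with ε ⟨hτ, _, hle'⟩ hε
  obtain ⟨Θ, w, hw, hΘ, hΨ, hvw⟩ := hvar ε hε
  have hP0 : ∀ z, 0 ≤ τ ε * ω z := fun z => mul_nonneg hτ (hω01 z).1
  have hP1 : ∀ z, τ ε * ω z ≤ τ ε := fun z => mul_le_of_le_one_right hτ (hω01 z).2
  have hle : ∀ y ∈ K, v y + ε * D y ≤ τ ε := fun y hy => by
    by_cases hm : y ∈ main r L
    · rw [hD, indicator_of_mem hm]; exact hle' y hy hm
    · rw [hS.off y hm, hD, indicator_of_notMem hm]; simpa using hτ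
  have tr := fun (p : ℂ) (hp : ‖p‖ = r ∨ ‖p‖ = 1) => ls_transport h1 hδ hb
    (fun z hz => ⟨(hΘ z hz).1, (hΘ z hz).2.1, (hΘ z hz).2.2.1, (hΘ z hz).2.2.2.1⟩)
    (f := fun z => v z + ε * D z) (w := fun z => w z - 2 * τ ε)
    (fun z hz hza => by linarith [(hvw z hz hza).2, hP1 (Θ z)]) hp
  have lsD : ∀ (q : ℂ) (c : ℝ), ‖q‖ = r ∨ ‖q‖ = 1 → LS v (ann r) q c →
      LS (fun z => v z + ε * D z) (ann r) q c := fun q c hq hc => by
    have a1 : q ∉ main r L := fun hm => by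
      rcases hq with hq | hq
      · exact (hWa hm).1.ne' hq
      · exact (hWa hm).2.ne hq
    have a2 := ((hD0 q a1).mono_left (nhdsWithin_le_nhds (s := ann r))).const_mul ε
    exact (hc.add (LS.of_tendsto a2 le_rfl)).le (by simp)
  have cΨ : ContinuousOn (fun y => y * exp (ε * ρ y)) K := fun y hy =>
    (continuousAt_id.mul (continuous_exp.continuousAt.comp (continuousAt_const.mul
      (hρa y (hcO (hK.sub hy)) (hKZ y hy)).continuousAt))).continuousWithinAt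
  have hgc : GC r A B z₁ ((fun y => y * exp (ε * ρ y)) '' K) fun z => w z - 2 * τ ε := by
    refine ⟨hK.cpt.image_of_continuousOn cΨ, hK.conn.image _ cΨ, ?_, ⟨z₁, gc.mem, by simp [hρ1]⟩,
      ?_, hw.sub_harm (g := fun _ => 2 * τ ε) fun z _ => harmonicAt_const _, ?_, fun p hp => ?_,
      fun p hp => ?_, ?_⟩
    · rintro _ ⟨y, hy, rfl⟩
      exact (hΨ y (hKR y hy)).1.1
    · obtain ⟨p, hp, hp1⟩ := hK.out
      refine ⟨_, ⟨p, hp, rfl⟩, ?_⟩
      simp [norm_exp, hp1, hre p (Or.inr hp1)]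
    · rintro _ ⟨y, hy, rfl⟩ hz
      have a1 := (hvw _ (hΨ y (hKR y hy)).1 hz).2
      rw [(hΨ y (hKR y hy)).2] at a1
      linarith [hle y hy, hP1 y]
    · obtain ⟨a1, a2⟩ := tr p (Or.inr hp)
      have a3 := (hΘ p a1).2.2.2.1.2 hp
      exact a2 A (lsD _ _ (Or.inr a3) (gc.outer _ a3))
    · obtain ⟨a1, a2⟩ := tr p (Or.inl hp)
      have a3 := (hΘ p a1).2.2.1.2 hp
      exact a2 B (lsD _ _ (Or.inl a3) (gc.inner _ a3))
    · obtain ⟨S, hSf, hSh⟩ := gc.hug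
      refine ⟨_, hSf.image fun y => y * exp (ε * ρ y), ?_⟩
      rintro _ ⟨y, hy, rfl⟩ hp hS'
      obtain ⟨a1, a2⟩ := tr _ (Or.inl hp)
      have a3 := (hΘ _ a1).2.2.1.2 hp
      refine a2 0 (lsD _ _ (Or.inl a3) ?_)
      rw [(hΨ y (hKR y hy)).2] at a3 ⊢
      exact hSh y hy a3 fun hc => hS' ⟨y, hc, rfl⟩
  refine ⟨Θ z₀, ?_, fun hm => ?_⟩
  · rw [← mul_assoc]
    exact (hΘ z₀ h0R).2.2.2.2.trans (by nlinarith [sq_nonneg ε])
  · have a1 := (hvw z₀ h0R m1).1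
    have a2 := hBd _ _ hgc
    rw [hD, indicator_of_mem hm] at a1
    nlinarith [sq_nonneg ε, hP0 (Θ z₀)]

end Pool.Agent.P.MP_3bd355_an
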