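import Pool.Agent.P.MP_3bd355_an.E.St

/-! The expansion in the height has no quadratic term. -/

open Set Filter Metric Complex InnerProductSpace
open scoped Topology ComplexConjugate Real

namespace Pool.Agent.P.MP_3bd355_an

namespace ECubP

theorem mvt {f f' : ℝ → ℝ} {τ K : ℝ} (hf : ∀ s ∈ Icc (0 : ℝ) τ, HasDerivAt f (f' s) s)
    (h0 : f 0 = 0) (hK : ∀ s ∈ Icc (0 : ℝ) τ, |f' s| ≤ K) {s : ℝ} (hs : s ∈ Icc (0 : ℝ) τ) :
    |f s| ≤ K * τ := by
  have h := (convex_Icc (0 : ℝ) τ).norm_image_sub_le_of_norm_hasDerivWithin_le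
    (fun y hy => (hf y hy).hasDerivWithinAt) (fun y hy => hK y hy)
    (left_mem_Icc.2 (hs.1.trans hs.2)) hs
  rw [h0, sub_zero, sub_zero, Real.norm_eq_abs, Real.norm_eq_abs, abs_of_nonneg hs.1] at h
  exact h.trans (mul_le_mul_of_nonneg_left hs.2 ((abs_nonneg _).trans (hK s hs)))

theorem vert {Ψ : ℂ → ℂ} {t s : ℝ} (h : AnalyticAt ℂ Ψ (t + s * I)) :
    HasDerivAt (fun y : ℝ => Ψ (t + y * I)) (deriv Ψ (t + s * I) * I) s := by
  have h1 : HasDerivAt (fun z : ℂ => (t : ℂ) + z * I) I (s : ℂ) := by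
    simpa using ((hasDerivAt_id (s : ℂ)).mul_const I).const_add (t : ℂ)
  exact (HasDerivAt.comp (s : ℂ) h.differentiableAt.hasDerivAt h1).comp_ofReal

theorem vert_im {Ψ : ℂ → ℂ} {t s : ℝ} (h : AnalyticAt ℂ Ψ (t + s * I)) :
    HasDerivAt (fun y : ℝ => (Ψ (t + y * I)).im) (deriv Ψ (t + s * I)).re s := by
  have := Complex.imCLM.hasFDerivAt.comp_hasDerivAt s (vert h)
  rw [show Complex.imCLM (deriv Ψ (t + s * I) * I) = (deriv Ψ (t + s * I)).re by simp] at this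
  exact this

theorem vert_re {Ψ : ℂ → ℂ} {t s : ℝ} (h : AnalyticAt ℂ Ψ (t + s * I)) :
    HasDerivAt (fun y : ℝ => (Ψ (t + y * I)).re) (-(deriv Ψ (t + s * I)).im) s := by
  have := Complex.reCLM.hasFDerivAt.comp_hasDerivAt s (vert h)
  rw [show Complex.reCLM (deriv Ψ (t + s * I) * I) = -(deriv Ψ (t + s * I)).im by simp] at this
  exact this

end ECubP

theorem e_cub : E_CUB := by
  intro u x Φ h
  have h1 : RefAt (fun η => (deriv Φ η).im) x (deriv Φ) :=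
    ⟨h.1.deriv, h.deriv_im, Eventually.of_forall fun _ => rfl⟩
  have h2 := h1.deriv_im
  set M : ℝ := ‖deriv (deriv (deriv Φ)) x‖ + 1 with hM
  have hb : ∀ᶠ z in 𝓝 (x : ℂ), ‖deriv (deriv (deriv Φ)) z‖ ≤ M :=
    ((h.1.deriv.deriv.deriv.continuousAt.norm).eventually (gt_mem_nhds (lt_add_one _))).mono
      fun z hz => hz.le
  obtain ⟨δ, hδ, hball⟩ := Metric.mem_nhds_iff.1 (h.1.eventually_analyticAt.and hb)
  have hre : Tendsto (fun η : ℂ => η.re) (𝓝[upH] (x : ℂ)) (𝓝 x) := by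
    simpa using (Complex.continuous_re.tendsto (x : ℂ)).mono_left nhdsWithin_le_nhds
  refine ⟨M, ?_⟩
  filter_upwards [h.2.2, hre.eventually h.2.1, hre.eventually h2,
    nhdsWithin_le_nhds (ball_mem_nhds (x : ℂ) hδ), self_mem_nhdsWithin] with η e1 e2 e3 e4 e5
  have hτ : 0 < η.im := e5
  have hmem : ∀ s ∈ Icc (0 : ℝ) η.im, ((η.re : ℂ) + s * I) ∈ ball (x : ℂ) δ := by
    intro s hs
    rw [mem_ball, dist_eq_norm] at e4 ⊢
    refine lt_of_le_of_lt ?_ e4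
    rw [Complex.norm_eq_sqrt_sq_add_sq, Complex.norm_eq_sqrt_sq_add_sq]
    refine Real.sqrt_le_sqrt ?_
    have := hs.1
    have := hs.2
    simp
    nlinarith
  have hA : ∀ s ∈ Icc (0 : ℝ) η.im, AnalyticAt ℂ Φ ((η.re : ℂ) + s * I) :=
    fun s hs => (hball (hmem s hs)).1
  have k1 : ∀ s ∈ Icc (0 : ℝ) η.im, |(deriv (deriv Φ) ((η.re : ℂ) + s * I)).im| ≤ M * η.im :=
    fun s hs => ECubP.mvt (f := fun y : ℝ => (deriv (deriv Φ) ((η.re : ℂ) + y * I)).im)
      (fun y hy => ECubP.vert_im (hA y hy).deriv.deriv) (by simpa using e3)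
      (fun y hy => (Complex.abs_re_le_norm _).trans (hball (hmem y hy)).2) hs
  have k2 : ∀ s ∈ Icc (0 : ℝ) η.im,
      |(deriv Φ ((η.re : ℂ) + s * I)).re - (deriv Φ η.re).re| ≤ M * η.im * η.im :=
    fun s hs => ECubP.mvt
      (f := fun y : ℝ => (deriv Φ ((η.re : ℂ) + y * I)).re - (deriv Φ η.re).re)
      (fun y hy => (ECubP.vert_re (hA y hy).deriv).sub_const _) (by simp)
      (fun y hy => by rw [abs_neg]; exact k1 y hy) hs
  have k3 := ECubP.mvt
    (f := fun y : ℝ => (Φ ((η.re : ℂ) + y * I)).im - y * (deriv Φ η.re).re)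
    (f' := fun y : ℝ => (deriv Φ ((η.re : ℂ) + y * I)).re - (deriv Φ η.re).re)
    (fun y hy => (ECubP.vert_im (hA y hy)).sub (by
      simpa using (hasDerivAt_id y).mul_const (deriv Φ η.re).re)) (by simpa using e2)
    k2 (right_mem_Icc.2 hτ.le)
  simp only [Complex.re_add_im] at k3
  rw [e1]
  calc _ ≤ _ := k3
    _ = _ := by ring

end Pool.Agent.P.MP_3bd355_an
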