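import Pool.Agent.P.MP_3bd355_an.E.St
import Pool.Agent.P.MP_3bd355_an.AllX

/-! The radial configuration. -/

open Set Filter Metric Complex InnerProductSpace
open scoped Topology ComplexConjugate Real

namespace Pool.Agent.P.MP_3bd355_an

namespace ERadcP

theorem exists_y {r A : ℝ} (B : ℝ) (h0 : 0 < r) (h1 : r < 1) (hA : A < 0) :
    ∃ y : ℝ, r < y ∧ y < 1 ∧ hf r A B (-(y : ℂ)) < 0 := by
  have hc : ContinuousAt (fun y : ℝ => A + (B - A) * Real.log y / Real.log r) 1 :=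
    continuousAt_const.add
      ((continuousAt_const.mul (Real.continuousAt_log one_ne_zero)).div_const _)
  have hv : (fun y : ℝ => A + (B - A) * Real.log y / Real.log r) 1 < 0 := by simpa using hA
  have e1 : ∀ᶠ y : ℝ in 𝓝[<] 1, A + (B - A) * Real.log y / Real.log r < 0 :=
    nhdsWithin_le_nhds (hc.eventually_lt continuousAt_const hv)
  obtain ⟨y, e2, e3⟩ := (e1.and (Ioo_mem_nhdsLT h1)).exists
  refine ⟨y, e3.1, e3.2, ?_⟩
  rwa [hf, norm_neg, norm_real, Real.norm_eq_abs, abs_of_pos (h0.trans e3.1)]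

end ERadcP

theorem e_radc : E_RADC := by
  intro r A B x h0 hx hx1 hA hh
  have xp : 0 < x := h0.trans hx
  have h1 : r < 1 := hx.trans hx1
  obtain ⟨y, hy, hy1, hneg⟩ := ERadcP.exists_y B h0 h1 hA
  have yp : 0 < y := h0.trans hy
  have nx : ‖(x : ℂ)‖ = x := by rw [norm_real, Real.norm_eq_abs, abs_of_pos xp]
  have m1 : (x : ℂ) ∈ ann r := ⟨by rwa [nx], by rwa [nx]⟩
  have m0 : -(y : ℂ) ∈ ann r := by
    have : ‖-(y : ℂ)‖ = y := by rw [norm_neg, norm_real, Real.norm_eq_abs, abs_of_pos yp]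
    exact ⟨by rwa [this], by rwa [this]⟩
  have hz : (x : ℂ) ≠ 0 := ofReal_ne_zero.2 xp.ne'
  have hyp : Hyp r A B (-(y : ℂ)) x := ⟨h0, h1, m0, m1, hA.le, hh, by simp, by simp⟩
  have hCH := hyp.ch
  have hB := hyp.B0
  obtain ⟨m, hm, -, hb, happ⟩ := all_MREAL r A B _ _ hCH
  obtain ⟨L, v, hc, hv⟩ := all_E2 r A B _ _ m hyp happ
  obtain ⟨K, hK⟩ := all_SC r A B _ L v hc
  have hG := SC.gc hc hK
  have up : v (-(y : ℂ)) ≤ m := hb K v hG
  have vneg : v (-(y : ℂ)) < 0 :=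
    (Sub.le_hf h0 h1 hG.sh hG.outer hG.inner _ m0).1.trans_lt hneg
  obtain ⟨a, b, c, κ, g, hC, -⟩ :=
    all_CORE r A B _ _ m L v ⟨hyp, hc, hb, hv, hc.sol.mem_main vneg.ne⟩
  have hvm : (v (-(y : ℂ)) : EReal) = Msup r A B (-(y : ℂ)) x := by
    rw [hm, le_antisymm up hv]
  obtain ⟨-, hall, -⟩ := all_MAIN r A B (-(y : ℂ)) x h0 m0 m1 hA.le hh fun t ht e => by
    have := congrArg re e
    simp only [neg_re, ofReal_re, re_ofReal_mul] at this
    nlinarith [mul_pos ht xp]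
  obtain ⟨k1, k2, k3, k4⟩ := all_RAD1 r A B _ _ a b c κ v g hCH hC fun s hs =>
    ConfP.on_ray hz fun ω hω => (hall a b c κ v g hC).2.2 hvm ω (by
      rw [show ω * -(y : ℂ) = ((-(y / x) : ℝ) : ℂ) * (ω * x) by push_cast; field_simp,
        im_ofReal_mul]
      exact mul_pos_of_neg_of_neg (neg_neg_of_pos (div_pos yp xp)) hω) hω.le s hs
  rw [X0P.slit_eq xp] at k3
  rw [nx] at k2 k4
  rw [← ofReal_mul, div_mul_cancel₀ _ xp.ne'] at k4
  obtain ⟨-, hAB, -, -, -, hadm⟩ := all_CRIT1 r A B _ _ a b c κ v g hCH hC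
  obtain ⟨hnh, -⟩ := all_CRIT2 r A B _ _ a b c κ v g hCH hC
  obtain ⟨hR, -, htip, -⟩ := hC.end_neg hA
  have ho := fun p hp => X0P.tend_real ((hadm k1).outer p hp)
  have hi := fun p hp => X0P.tend_real ((hadm k1).inner p hp)
  have a4 : HarmonicOnNhd v (ann r \ seg x ‖κ 1‖) := k3 ▸ hC.v_harm
  have a6 : ∀ z ∈ ann r, z ∈ seg x ‖κ 1‖ → v z = 0 := k3 ▸ hC.v_zero
  refine ⟨y, ‖κ 1‖, L, v, a, b, c, κ, g, hy, hy1, hc,
    ⟨h0, hx, k2, hR.2.le, hA.le, hB, ⟨fun e => absurd e hR.2.ne, fun e => absurd e hA.ne⟩, a4,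
      hC.v_cont, a6, ho, hi, hAB, ?_, fun _ => k4 ▸ htip,
      fun z hz => le_antisymm (X0P.symm_le h0 h1 a4 hC.v_cont a6 ho hi z hz) ?_⟩, hC, k3, k4, ?_⟩
  · have := hC.v_pos 0 ⟨le_rfl, one_pos⟩ (by rw [hC.start]; exact m1.1)
    rwa [hC.start] at this
  · simpa only [conj_conj] using
      X0P.symm_le h0 h1 a4 hC.v_cont a6 ho hi _ (conj_mem_ann.2 hz)
  · have hin : ∀ t ∈ Ioo (0 : ℝ) 1, κ t ∈ L := by
      intro t ht
      by_contra hn
      have ht' : t ∈ Icc (0 : ℝ) 1 := Ioo_subset_Icc_self ht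
      have hs : κ t ∈ seg x ‖κ 1‖ := k3 ▸ mem_image_of_mem κ ht'
      exact hnh t ht (k1 t ht') (hc.sol.harm _ (hc.cont.mem_main
        ⟨k1 t ht', (hC.mem t (Ioo_subset_Ico_self ht)).2⟩ hs.1.ge hn))
    rw [← k3, ← closure_Ioo zero_ne_one]
    refine (ContinuousOn.image_closure (by rw [closure_Ioo zero_ne_one]; exact hC.cont)).trans ?_
    exact hc.cont.cpt.isClosed.closure_subset_iff.2 (image_subset_iff.2 hin)

end Pool.Agent.P.MP_3bd355_an
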